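import Pool.Agent.Lib.MP_7ab245_nt.QC.UInt
import Pool.Agent.Lib.MP_7ab245_nt.Cnt.Split

/-!
QC-Lp: the mean of `log⁺ |f|` on the unit circle.

PROOF. `lp f = (2π)⁻¹ ∫ log⁺ ‖f(e^{iθ})‖` over `(0, 2π]` (Real.circleAverage_def, intervalIntegral.integral_of_le; `mu` is Lebesgue measure on this interval, see
Mono and LogVar/Fourier.lean, `zz θ = circleMap 0 1 θ`). `ll_le`: `|x| = 2 log⁺ - log` i.e. `|u| = 2 u⁺ - u` for `u = log ‖f‖` (Real.posLog_def: `log⁺ x = max 0 (log x)`), `∫ u = 2π log (MM f) ≥ 0`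
(log_integral, one_le_MM); integrability: log_eval_integrable. `log_MM_le`: `u ≤ u⁺`. `lp_X_mul`: `‖z^m f(z)‖ = ‖f(z)‖` on the circle. `lp_le_height`: on the circle
`‖f(z)‖ ≤ ∑_{i ≤ n} |coeff i| ≤ (n+1) H`, `log⁺` is monotone (Real.posLog_le_posLog) and `log⁺ ((n+1)H) = log ((n+1) H)`; average of a bounded function.
-/

set_option autoImplicit false

open Finset MeasureTheory

namespace Pool.Agent.Lib.MP_7ab245_nt.QC

open Pool.Agent.Lib.MP_7ab245_nt.LogVar Pool.Agent.Lib.MP_7ab245_nt.Cnt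
open Pool.Agent.Lib.MP_7ab245_nt.Mono

/-- the mean of `log⁺ |f|` on the unit circle -/
noncomputable def lp (f : Polynomial ℤ) : ℝ :=
  Real.circleAverage (fun z => Real.posLog ‖(cx f).eval z‖) 0 1

private theorem lp_eq (f : Polynomial ℤ) :
    lp f = (2 * Real.pi)⁻¹ * ∫ θ, Real.posLog ‖(cx f).eval (zz θ)‖ ∂mu := by
  unfold lp
  rw [Real.circleAverage_def, intervalIntegral.integral_of_le (by positivity), smul_eq_mul]
  rfl

private theorem lp_int (f : Polynomial ℤ) :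
    Integrable (fun θ => Real.posLog ‖(cx f).eval (zz θ)‖) mu :=
  (integrable_const (0 : ℝ)).sup (log_eval_integrable (cx f))

theorem ll_le (f : Polynomial ℤ) (hf : f ≠ 0) : ll f ≤ 2 * lp f := by
  have hI := log_eval_integrable (cx f)
  have hP := lp_int f
  have h1 : ∀ θ, |Real.log ‖(cx f).eval (zz θ)‖| =
      2 * Real.posLog ‖(cx f).eval (zz θ)‖ - Real.log ‖(cx f).eval (zz θ)‖ := by
    intro θ
    rw [Real.posLog_apply]
    rcases le_total 0 (Real.log ‖(cx f).eval (zz θ)‖) with h | h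
    · rw [abs_of_nonneg h, max_eq_right h]
      ring
    · rw [abs_of_nonpos h, max_eq_left h]
      ring
  have h2 : ∫ θ, |Real.log ‖(cx f).eval (zz θ)‖| ∂mu =
      2 * ∫ θ, Real.posLog ‖(cx f).eval (zz θ)‖ ∂mu - 2 * Real.pi * Real.log (MM f) := by
    simp_rw [h1]
    rw [integral_sub (hP.const_mul 2) hI, integral_const_mul, log_integral f hf]
  have h3 : 0 ≤ Real.log (MM f) := Real.log_nonneg (one_le_MM f hf)
  have hpi := Real.pi_pos
  unfold ll
  rw [h2, lp_eq, mul_sub]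
  have h4 : (2 * Real.pi)⁻¹ * (2 * Real.pi * Real.log (MM f)) = Real.log (MM f) := by
    field_simp
  rw [h4]
  linarith

theorem log_MM_le (f : Polynomial ℤ) (hf : f ≠ 0) : Real.log (MM f) ≤ lp f := by
  have hpi := Real.pi_pos
  have h1 : Real.log (MM f) = (2 * Real.pi)⁻¹ *
      ∫ θ, Real.log ‖(cx f).eval (zz θ)‖ ∂mu := by
    rw [log_integral f hf]
    field_simp
  rw [h1, lp_eq]
  refine mul_le_mul_of_nonneg_left ?_ (by positivity)
  exact integral_mono (log_eval_integrable (cx f)) (lp_int f) fun θ => by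
    show _ ≤ Real.posLog _
    rw [Real.posLog_apply]
    exact le_max_right _ _

theorem lp_X_mul (f : Polynomial ℤ) (m : ℕ) : lp (Polynomial.X ^ m * f) = lp f := by
  rw [lp_eq, lp_eq]
  have h1 : ∀ θ, ‖(cx (Polynomial.X ^ m * f)).eval (zz θ)‖ = ‖(cx f).eval (zz θ)‖ := by
    intro θ
    unfold cx
    rw [Polynomial.map_mul, Polynomial.map_pow, Polynomial.map_X, Polynomial.eval_mul,
      Polynomial.eval_pow, Polynomial.eval_X, norm_mul, norm_pow, norm_zz, one_pow, one_mul]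
  simp_rw [h1]

theorem lp_le_height (f : Polynomial ℤ) (n H : ℕ) (hH : 1 ≤ H) (hd : f.natDegree ≤ n)
    (hc : ∀ i, |f.coeff i| ≤ (H : ℤ)) : lp f ≤ Real.log ((n + 1) * H) := by
  have hpi := Real.pi_pos
  have hH1 : (1 : ℝ) ≤ H := by exact_mod_cast hH
  have hn1 : (1 : ℝ) ≤ n + 1 := by
    have : (0 : ℝ) ≤ n := Nat.cast_nonneg n
    linarith
  have hB : (1 : ℝ) ≤ (n + 1) * H := by nlinarith
  have h1 : ∀ θ, ‖(cx f).eval (zz θ)‖ ≤ (n + 1) * H := by
    intro θ
    have h2 : (cx f).natDegree < n + 1 := by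
      unfold cx
      exact (Polynomial.natDegree_map_le.trans hd).trans_lt (Nat.lt_succ_self n)
    rw [Polynomial.eval_eq_sum_range' h2]
    refine (norm_sum_le _ _).trans ?_
    have h3 : ∀ i ∈ range (n + 1), ‖(cx f).coeff i * zz θ ^ i‖ ≤ H := by
      intro i _
      rw [norm_mul, norm_pow, norm_zz, one_pow, mul_one]
      unfold cx
      rw [Polynomial.coeff_map, eq_intCast, Complex.norm_intCast]
      exact_mod_cast hc i
    refine (sum_le_sum h3).trans ?_
    rw [sum_const, card_range, nsmul_eq_mul]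
    push_cast
    exact le_rfl
  have h4 : ∀ θ, Real.posLog ‖(cx f).eval (zz θ)‖ ≤ Real.log ((n + 1) * H) := by
    intro θ
    rw [← Real.posLog_eq_log (by rw [abs_of_nonneg (by linarith)]; exact hB)]
    exact Real.posLog_le_posLog (norm_nonneg _) (h1 θ)
  have h5 : ∫ θ, Real.posLog ‖(cx f).eval (zz θ)‖ ∂mu ≤
      ∫ _, Real.log ((n + 1) * H) ∂mu :=
    integral_mono (lp_int f) (integrable_const _) h4
  rw [integral_const, smul_eq_mul, Measure.real, mu_univ, ENNReal.toReal_ofReal (by positivity)]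
    at h5
  rw [lp_eq]
  calc (2 * Real.pi)⁻¹ * ∫ θ, Real.posLog ‖(cx f).eval (zz θ)‖ ∂mu
      ≤ (2 * Real.pi)⁻¹ * (2 * Real.pi * Real.log ((n + 1) * H)) :=
        mul_le_mul_of_nonneg_left h5 (by positivity)
    _ = Real.log ((n + 1) * H) := by field_simp

end Pool.Agent.Lib.MP_7ab245_nt.QC
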