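import Pool.Agent.Lib.MP_7ab245_nt.QC.Fam2
import Pool.Agent.Lib.MP_7ab245_nt.QC.Lp
import Pool.Agent.Lib.MP_7ab245_nt.Cnt.Cser
import Pool.Agent.Lib.MP_7ab245_nt.Cnt.Split

/-!
QC-All2: the count, with the exponent `C T ^ 4 (1 + l) ^ 2 log (2 n)`.
-/

set_option autoImplicit false

open Finset MeasureTheory

namespace Pool.Agent.Lib.MP_7ab245_nt.QC

open Pool.Agent.Lib.MP_7ab245_nt.LogVar Pool.Agent.Lib.MP_7ab245_nt.Cnt
open Pool.Agent.Lib.MP_7ab245_nt.Mono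

private theorem all2_MM_X (m : ℕ) (g : Polynomial ℤ) : MM (Polynomial.X ^ m * g) = MM g := by
  rw [MM_mul]
  have h1 : MM (Polynomial.X ^ m : Polynomial ℤ) = 1 := by
    induction m with
    | zero =>
      unfold MM cx
      rw [pow_zero, Polynomial.map_one, Polynomial.mahlerMeasure_one]
    | succ m ih =>
      rw [pow_succ, MM_mul, ih, one_mul]
      unfold MM cx
      rw [Polynomial.map_X, Polynomial.mahlerMeasure_eq_leadingCoeff_mul_prod_roots,
        Polynomial.leadingCoeff_X, Polynomial.roots_X]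
      simp
  rw [h1, one_mul]

private theorem all2_split (f : Polynomial ℤ) (hf : f ≠ 0) :
    ∃ (m : ℕ) (g : Polynomial ℤ), f = Polynomial.X ^ m * g ∧ g.coeff 0 ≠ 0 ∧
      m + g.natDegree = f.natDegree := by
  have h1 : (Polynomial.X : Polynomial ℤ) ^ f.natTrailingDegree ∣ f := by
    rw [Polynomial.X_pow_dvd_iff]
    intro d hd
    exact Polynomial.coeff_eq_zero_of_lt_natTrailingDegree hd
  obtain ⟨g, hg⟩ := h1
  have hg0 : g.coeff 0 ≠ 0 := by
    have h2 : f.coeff f.natTrailingDegree ≠ 0 := Polynomial.trailingCoeff_nonzero_iff_nonzero.2 hf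
    have h3 := Polynomial.coeff_X_pow_mul g f.natTrailingDegree 0
    rw [← hg, zero_add] at h3
    rwa [← h3]
  refine ⟨f.natTrailingDegree, g, hg, hg0, ?_⟩
  have hgne : g ≠ 0 := by
    rintro rfl
    simp at hg0
  conv_rhs => rw [hg]
  rw [Polynomial.natDegree_mul (pow_ne_zero _ Polynomial.X_ne_zero) hgne,
    Polynomial.natDegree_X_pow]

private theorem all2_coeff (g : Polynomial ℤ) (h0 : g.coeff 0 ≠ 0) :
    |(g.coeff 0 : ℝ)| ≤ MM g := by
  have h1 := mu_ge g h0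
  have h2 : 0 < |(g.coeff 0 : ℝ)| := abs_pos.2 (by exact_mod_cast h0)
  rwa [one_le_div h2] at h1

private theorem all2_small (n : ℕ) (T l : ℝ) (hn : 1 ≤ n) (hT : 1 ≤ T) (hl : 0 ≤ l)
    (F : Finset (Polynomial ℤ))
    (hF : ∀ f ∈ F, f ≠ 0 ∧ f.natDegree ≤ n ∧ MM f ≤ T ∧ lp f ≤ l) :
    (F.card : ℝ) ≤ (n + 1) * ((3 * T) * Real.exp (2 + 10 ^ 8 * T ^ 4 * (6 * (1 + l)) ^ 2 *
      (1 + Real.log n))) := by
  classical
  have hnR : (1 : ℝ) ≤ n := by exact_mod_cast hn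
  set E := Real.exp (2 + 10 ^ 8 * T ^ 4 * (6 * (1 + l)) ^ 2 * (1 + Real.log n)) with hE
  have hch : ∀ f ∈ F, ∃ p : ℕ × Polynomial ℤ, f = Polynomial.X ^ p.1 * p.2 ∧
      p.2.coeff 0 ≠ 0 ∧ p.1 ≤ n ∧ p.2.natDegree ≤ n ∧ MM p.2 ≤ T ∧ lp p.2 ≤ l := by
    intro f hf
    obtain ⟨h1, h2, h3, h4⟩ := hF f hf
    obtain ⟨m, g, h5, h6, h7⟩ := all2_split f h1
    refine ⟨(m, g), h5, h6, by simp only; omega, by simp only; omega, ?_, ?_⟩
    · rw [h5, all2_MM_X] at h3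
      exact h3
    · rw [h5, lp_X_mul] at h4
      exact h4
  choose! p hp using hch
  set G : Finset (Polynomial ℤ) := F.image fun f => (p f).2 with hG
  have hGmem : ∀ g ∈ G, g.coeff 0 ≠ 0 ∧ g.natDegree ≤ n ∧ MM g ≤ T ∧ lp g ≤ l := by
    intro g hg
    rw [hG, Finset.mem_image] at hg
    obtain ⟨f, hf, rfl⟩ := hg
    obtain ⟨h1, h2, h3, h4, h5, h6⟩ := hp f hf
    exact ⟨h2, h4, h5, h6⟩
  have hFG : F.card ≤ (n + 1) * G.card := by
    have h1 : F ⊆ (range (n + 1) ×ˢ G).image fun q => Polynomial.X ^ q.1 * q.2 := by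
      intro f hf
      rw [Finset.mem_image]
      obtain ⟨h1, h2, h3, -⟩ := hp f hf
      refine ⟨p f, ?_, h1.symm⟩
      rw [Finset.mem_product, Finset.mem_range, hG, Finset.mem_image]
      exact ⟨by omega, f, hf, rfl⟩
    calc F.card ≤ _ := Finset.card_le_card h1
      _ ≤ (range (n + 1) ×ˢ G).card := Finset.card_image_le
      _ = (n + 1) * G.card := by rw [Finset.card_product, Finset.card_range]
  -- the constant coefficient
  set B : ℕ := ⌊T⌋₊ with hB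
  have hBT : (B : ℝ) ≤ T := Nat.floor_le (by linarith)
  have hmaps : ∀ g ∈ G, g.coeff 0 ∈ Icc (-(B : ℤ)) (B : ℤ) := by
    intro g hg
    obtain ⟨h1, h2, h3, h4⟩ := hGmem g hg
    have h5 := (all2_coeff g h1).trans h3
    have h6 : (((g.coeff 0).natAbs : ℕ) : ℝ) ≤ T := by
      rw [Nat.cast_natAbs]
      push_cast
      exact h5
    have h7 : (g.coeff 0).natAbs ≤ B := Nat.le_floor h6
    rw [Finset.mem_Icc]
    omega
  have hfib : ∀ a ∈ Icc (-(B : ℤ)) (B : ℤ),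
      ((G.filter fun g => g.coeff 0 = a).card : ℝ) ≤ E := by
    intro a _
    by_cases ha : a = 0
    · have h1 : G.filter (fun g => g.coeff 0 = a) = ∅ := by
        rw [Finset.filter_eq_empty_iff]
        intro g hg h2
        exact (hGmem g hg).1 (by rw [h2, ha])
      rw [h1, Finset.card_empty, Nat.cast_zero]
      exact (Real.exp_pos _).le
    · refine fam2 n hn T (6 * (1 + l)) hT (by linarith) a ha _ ?_
      intro g hg
      rw [Finset.mem_filter] at hg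
      obtain ⟨h1, h2, h3, h4⟩ := hGmem g hg.1
      have hg0 : g ≠ 0 := by
        rintro rfl
        simp at h1
      refine ⟨h2, hg.2, h3, ?_⟩
      have := ll_le g hg0
      linarith
  have hGc : (G.card : ℝ) ≤ 3 * T * E := by
    rw [Finset.card_eq_sum_card_fiberwise hmaps]
    push_cast
    calc ∑ a ∈ Icc (-(B : ℤ)) (B : ℤ), ((G.filter fun g => g.coeff 0 = a).card : ℝ)
        ≤ ∑ _a ∈ Icc (-(B : ℤ)) (B : ℤ), E := Finset.sum_le_sum hfib
      _ = (2 * B + 1) * E := by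
          rw [Finset.sum_const, nsmul_eq_mul, Int.card_Icc]
          congr 1
          have : (((B : ℤ) + 1 - (-(B : ℤ))).toNat : ℤ) = 2 * B + 1 := by
            rw [Int.toNat_of_nonneg (by omega)]
            ring
          exact_mod_cast this
      _ ≤ 3 * T * E := mul_le_mul_of_nonneg_right (by linarith) (Real.exp_pos _).le
  calc (F.card : ℝ) ≤ ((n + 1) * G.card : ℕ) := by exact_mod_cast hFG
    _ = (n + 1) * (G.card : ℝ) := by push_cast; ring
    _ ≤ (n + 1) * ((3 * T) * E) := mul_le_mul_of_nonneg_left hGc (by linarith)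

private theorem all2_log_two : (69 / 100 : ℝ) ≤ Real.log 2 := by
  have := Real.log_two_gt_d9
  linarith

private theorem all2_num (n : ℕ) (T l : ℝ) (hn : 1 ≤ n) (hT : 1 ≤ T) (hl : 0 ≤ l) :
    Real.log (n + 1) + Real.log (3 * T) + (2 + 10 ^ 8 * T ^ 4 * (6 * (1 + l)) ^ 2 *
      (1 + Real.log n)) ≤ 10 ^ 10 * T ^ 4 * (1 + l) ^ 2 * Real.log (2 * n) := by
  have hnR : (1 : ℝ) ≤ n := by exact_mod_cast hn
  obtain ⟨L, hL⟩ : ∃ L : ℝ, L = Real.log (2 * n) := ⟨_, rfl⟩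
  have h2 := all2_log_two
  have hLn : L = Real.log 2 + Real.log n := by
    rw [hL, Real.log_mul (by norm_num) (by linarith)]
  have hlogn : 0 ≤ Real.log n := Real.log_nonneg hnR
  have hL1 : 69 / 100 ≤ L := by linarith
  have h3 : 1 + Real.log n ≤ 5 / 2 * L := by
    have := Real.log_two_gt_d9
    nlinarith
  have h6 : Real.log (n + 1) ≤ L := by
    rw [hL]
    exact Real.log_le_log (by linarith) (by linarith)
  have h7 : Real.log (3 * T) ≤ 3 * T := by
    have := Real.log_le_sub_one_of_pos (show (0 : ℝ) < 3 * T by linarith)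
    linarith
  have hT4 : T ≤ T ^ 4 := le_self_pow₀ hT (by norm_num)
  have hT41 : 1 ≤ T ^ 4 := one_le_pow₀ hT
  have hl1 : 1 ≤ (1 + l) ^ 2 := one_le_pow₀ (by linarith)
  have hX : 1 ≤ T ^ 4 * (1 + l) ^ 2 := one_le_mul_of_one_le_of_one_le hT41 hl1
  have hXT : T ^ 4 ≤ T ^ 4 * (1 + l) ^ 2 := le_mul_of_one_le_right (by linarith) hl1
  have hL0 : 0 < L := by linarith
  rw [← hL]
  obtain ⟨X, hXd⟩ : ∃ X : ℝ, X = T ^ 4 * (1 + l) ^ 2 := ⟨_, rfl⟩
  have e1 : 10 ^ 8 * T ^ 4 * (6 * (1 + l)) ^ 2 * (1 + Real.log n) =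
      36 * 10 ^ 8 * X * (1 + Real.log n) := by
    rw [hXd]; ring
  have e2 : 10 ^ 10 * T ^ 4 * (1 + l) ^ 2 * L = 10 ^ 10 * (X * L) := by
    rw [hXd]; ring
  rw [e1, e2]
  rw [← hXd] at hX hXT
  have h9 : 36 * 10 ^ 8 * X * (1 + Real.log n) ≤ 36 * 10 ^ 8 * X * (5 / 2 * L) :=
    mul_le_mul_of_nonneg_left h3 (by positivity)
  have h12 : X ≤ 2 * (X * L) := by nlinarith
  have h10 : L ≤ X * L := le_mul_of_one_le_left hL0.le hX
  have h11 : 3 * T ≤ 6 * (X * L) := by linarith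
  have h13 : (2 : ℝ) ≤ 4 * (X * L) := by linarith
  have h14 : 0 ≤ X * L := by positivity
  nlinarith

theorem all2_lp : ∃ C : ℝ, 0 < C ∧ ∀ (n : ℕ) (T l : ℝ), 1 ≤ n → 1 ≤ T → 0 ≤ l →
    ∀ F : Finset (Polynomial ℤ), (∀ f ∈ F, f ≠ 0 ∧ f.natDegree ≤ n ∧ MM f ≤ T ∧ lp f ≤ l) →
    (F.card : ℝ) ≤ (2 * n : ℝ) ^ (C * T ^ 4 * (1 + l) ^ 2) := by
  refine ⟨10 ^ 10, by norm_num, ?_⟩
  intro n T l hn hT hl F hF
  have hnR : (1 : ℝ) ≤ n := by exact_mod_cast hn
  rw [Real.rpow_def_of_pos (by linarith)]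
  refine (all2_small n T l hn hT hl F hF).trans ?_
  have h1 := all2_num n T l hn hT hl
  rw [mul_comm (Real.log (2 * n))]
  have h2 := Real.exp_le_exp.2 h1
  refine le_trans (le_of_eq ?_) h2
  have hn0 : (0 : ℝ) < n + 1 := by linarith
  have hT0 : (0 : ℝ) < 3 * T := by linarith
  rw [Real.exp_add (Real.log (n + 1) + Real.log (3 * T)), Real.exp_add (Real.log (n + 1)),
    Real.exp_log hn0, Real.exp_log hT0]
  ring

end Pool.Agent.Lib.MP_7ab245_nt.QC
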