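import Pool.Agent.Lib.MP_7ab245_nt.QC.Defs

/-!
QC-Bet: bounds for the normalised Blaschke product.

PROOF. Let `M = MM f > 0`, `ε = kk (cx f) / M`, `‖ε‖ = 1` (norm_kk), `b = bb (cx f)`, `PC_bb`: `pn (b * a) R ≤ pn a R`; `bc j f = ε * coeff j b`.
`bc_sum`: `a = 1`: `∑_{j<R} ‖bc j f‖² = pn (b * 1) R ≤ pn 1 R ≤ 1`. `bc_zero`: `poly_eq` at the coefficient `0`: `a₀ = kk * b(0) * 1` (ho_const).
`bt_le`: `vw n j = 2 max 0 (1 - j/(2n)) - max 0 (1 - j/n)` (cases `j ≤ n`, `n ≤ j ≤ 2n`), so `bt = 2 σ_{2n} - σ_n`,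
`σ_m(z) = ∑_{j<m} (1 - j/m) b_j z^j = (1/m) ∑_{i<m} S_i`, `S_i = ∑_{j≤i} b_j z^j`. With `a = ∑_{l<m} z^{-l} X^l` (a power series, e.g. PowerSeries.mk
(fun l => if l < m then z⁻¹^l else 0)) the coefficient `i < m` of `b * a` is `z^{-i} S_i` (PowerSeries.coeff_mul, Nat.sum_antidiagonal_eq_sum_range_succ_mk),
so `∑_{i<m} ‖S_i‖² = pn (b a) m ≤ pn a m = m` and `‖σ_m‖ ≤ (1/m) √(m ∑‖S_i‖²) ≤ 1` (Cauchy-Schwarz: `sq_sum_le_card_mul_sum_sq`).
`vw_bounds`: clear.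
-/

set_option autoImplicit false

open Finset MeasureTheory

namespace Pool.Agent.Lib.MP_7ab245_nt.QC

open Pool.Agent.Lib.MP_7ab245_nt.LogVar Pool.Agent.Lib.MP_7ab245_nt.Cnt
open Pool.Agent.Lib.MP_7ab245_nt.Mono

theorem vw_nonneg (n j : ℕ) : 0 ≤ vw n j := le_max_left _ _

theorem vw_le_one (n j : ℕ) : vw n j ≤ 1 := max_le zero_le_one (min_le_left _ _)

theorem vw_one (n j : ℕ) (hn : 1 ≤ n) (hj : j ≤ n) : vw n j = 1 := by
  have h0 : (0 : ℝ) < n := by exact_mod_cast hn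
  have h1 : (j : ℝ) / n ≤ 1 := by
    rw [div_le_one h0]
    exact_mod_cast hj
  unfold vw
  rw [min_eq_left (by linarith), max_eq_right zero_le_one]

private theorem bet_cx (f : Polynomial ℤ) : (cx f).coeff 0 = (f.coeff 0 : ℂ) := by
  unfold cx
  rw [Polynomial.coeff_map]
  rfl

private theorem bet_cx_ne (f : Polynomial ℤ) (h0 : f.coeff 0 ≠ 0) : (cx f).coeff 0 ≠ 0 := by
  rw [bet_cx]
  exact_mod_cast h0

theorem MM_pos (f : Polynomial ℤ) (h0 : f.coeff 0 ≠ 0) : 0 < MM f := by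
  have h1 : cx f ≠ 0 := by
    intro h
    apply bet_cx_ne f h0
    rw [h, Polynomial.coeff_zero]
  exact Polynomial.mahlerMeasure_pos_of_ne_zero h1

theorem bc_zero (f : Polynomial ℤ) (h0 : f.coeff 0 ≠ 0) :
    bc 0 f = (f.coeff 0 : ℂ) / (MM f : ℂ) := by
  have h1 := congrArg (PowerSeries.coeff 0) (poly_eq (cx f) (bet_cx_ne f h0))
  rw [Polynomial.coeff_coe, PowerSeries.coeff_zero_eq_constantCoeff_apply, map_mul, map_mul,
    ho_const, PowerSeries.constantCoeff_C, mul_one, bet_cx] at h1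
  unfold bc
  rw [PowerSeries.coeff_zero_eq_constantCoeff_apply, h1]
  ring

private theorem bet_eps (f : Polynomial ℤ) (h0 : f.coeff 0 ≠ 0) :
    ‖kk (cx f) / (MM f : ℂ)‖ = 1 := by
  have h1 := MM_pos f h0
  rw [norm_div, norm_kk, Complex.norm_real, Real.norm_of_nonneg h1.le]
  exact div_self h1.ne'

private theorem bet_norm (f : Polynomial ℤ) (h0 : f.coeff 0 ≠ 0) (j : ℕ) :
    ‖bc j f‖ = ‖PowerSeries.coeff j (bb (cx f))‖ := by
  unfold bc
  rw [norm_mul, bet_eps f h0, one_mul]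

theorem bc_sum (f : Polynomial ℤ) (h0 : f.coeff 0 ≠ 0) (R : ℕ) :
    ∑ j ∈ range R, ‖bc j f‖ ^ 2 ≤ 1 := by
  have h1 : ∑ j ∈ range R, ‖bc j f‖ ^ 2 = pn (bb (cx f) * 1) R := by
    unfold pn
    refine sum_congr rfl fun j _ => ?_
    rw [bet_norm f h0, mul_one]
  rw [h1]
  refine (PC_bb (cx f) 1 R).trans ?_
  unfold pn
  rcases R with _ | R
  · simp
  · rw [sum_range_succ']
    simp [PowerSeries.coeff_one]

private theorem bet_dbl (g : ℕ → ℂ) (m : ℕ) :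
    ∑ i ∈ range m, ∑ j ∈ range (i + 1), g j = ∑ j ∈ range m, ((m : ℂ) - j) * g j := by
  induction m with
  | zero => simp
  | succ m ih =>
    rw [sum_range_succ, ih]
    have h1 : ∑ j ∈ range (m + 1), (((m + 1 : ℕ) : ℂ) - j) * g j =
        ∑ j ∈ range (m + 1), ((m : ℂ) - j) * g j + ∑ j ∈ range (m + 1), g j := by
      rw [← sum_add_distrib]
      refine sum_congr rfl fun j _ => ?_
      push_cast
      ring
    rw [h1, sum_range_succ (fun j : ℕ => ((m : ℂ) - j) * g j) m]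
    ring

/-- Fejér means of a prefix contraction -/
private theorem bet_fejer {b : PowerSeries ℂ} (hb : PC b) (z : ℂ) (hz : ‖z‖ = 1) (m : ℕ) :
    ‖∑ j ∈ range m, ((m : ℂ) - j) * (PowerSeries.coeff j b * z ^ j)‖ ≤ m := by
  have hz0 : z ≠ 0 := by
    intro h
    rw [h, norm_zero] at hz
    exact zero_ne_one hz
  rw [← bet_dbl]
  obtain ⟨S, hS⟩ : ∃ S : ℕ → ℂ, S = fun i => ∑ j ∈ range (i + 1), PowerSeries.coeff j b * z ^ j :=
    ⟨_, rfl⟩
  have hS' : ∀ i, ∑ j ∈ range (i + 1), PowerSeries.coeff j b * z ^ j = S i := fun i => by rw [hS]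
  simp only [hS']
  have h1 : ∀ i, PowerSeries.coeff i (b * PowerSeries.mk fun l => z⁻¹ ^ l) = z⁻¹ ^ i * S i := by
    intro i
    rw [PowerSeries.coeff_mul, Nat.sum_antidiagonal_eq_sum_range_succ_mk, hS, mul_sum]
    refine sum_congr rfl fun j hj => ?_
    rw [mem_range] at hj
    rw [PowerSeries.coeff_mk]
    have h2 : z⁻¹ ^ i = z⁻¹ ^ (i - j) * z⁻¹ ^ j := by
      rw [← pow_add]
      congr 1
      omega
    have h3 : z⁻¹ ^ j * z ^ j = 1 := by
      rw [← mul_pow, inv_mul_cancel₀ hz0, one_pow]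
    show PowerSeries.coeff j b * z⁻¹ ^ (i - j) = z⁻¹ ^ i * (PowerSeries.coeff j b * z ^ j)
    rw [h2]
    linear_combination (- (PowerSeries.coeff j b * z⁻¹ ^ (i - j))) * h3
  have h4 : ∀ i : ℕ, ‖z⁻¹ ^ i‖ = 1 := by
    intro i
    rw [norm_pow, norm_inv, hz, inv_one, one_pow]
  have h5 : ∑ i ∈ range m, ‖S i‖ ^ 2 ≤ m := by
    have h6 := hb (PowerSeries.mk fun l => z⁻¹ ^ l) m
    unfold pn at h6
    have h7 : ∑ i ∈ range m, ‖PowerSeries.coeff i (b * PowerSeries.mk fun l => z⁻¹ ^ l)‖ ^ 2 =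
        ∑ i ∈ range m, ‖S i‖ ^ 2 := by
      refine sum_congr rfl fun i _ => ?_
      rw [h1, norm_mul, h4, one_mul]
    have h8 : ∑ i ∈ range m, ‖PowerSeries.coeff i (PowerSeries.mk fun l => z⁻¹ ^ l)‖ ^ 2 = m := by
      have h9 : ∀ i ∈ range m, ‖PowerSeries.coeff i (PowerSeries.mk fun l => z⁻¹ ^ l)‖ ^ 2 =
          (1 : ℝ) := by
        intro i _
        rw [PowerSeries.coeff_mk, h4, one_pow]
      rw [sum_congr rfl h9, sum_const, card_range, nsmul_eq_mul, mul_one]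
    rw [h7, h8] at h6
    exact h6
  have h10 : (∑ i ∈ range m, ‖S i‖) ^ 2 ≤ (m : ℝ) ^ 2 := by
    have h11 := sq_sum_le_card_mul_sum_sq (s := range m) (f := fun i => ‖S i‖)
    rw [card_range] at h11
    have h12 : (m : ℝ) * ∑ i ∈ range m, ‖S i‖ ^ 2 ≤ m * m :=
      mul_le_mul_of_nonneg_left h5 (Nat.cast_nonneg m)
    rw [sq (m : ℝ)]
    exact h11.trans h12
  refine (norm_sum_le _ _).trans ?_
  exact (sq_le_sq₀ (sum_nonneg fun i _ => norm_nonneg _) (Nat.cast_nonneg m)).mp h10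

private theorem bet_fejer' {b : PowerSeries ℂ} (hb : PC b) (z : ℂ) (hz : ‖z‖ = 1) (m : ℕ)
    (hm : 1 ≤ m) :
    ‖∑ j ∈ range m, (1 - (j : ℂ) / m) * (PowerSeries.coeff j b * z ^ j)‖ ≤ 1 := by
  have h0 : (0 : ℝ) < m := by exact_mod_cast hm
  have hm0 : (m : ℂ) ≠ 0 := by
    have : m ≠ 0 := by omega
    exact_mod_cast this
  have h1 : ∑ j ∈ range m, (1 - (j : ℂ) / m) * (PowerSeries.coeff j b * z ^ j) =
      (m : ℂ)⁻¹ * ∑ j ∈ range m, ((m : ℂ) - j) * (PowerSeries.coeff j b * z ^ j) := by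
    rw [mul_sum]
    refine sum_congr rfl fun j _ => ?_
    field_simp
  rw [h1, norm_mul, norm_inv, Complex.norm_natCast]
  have h2 := bet_fejer hb z hz m
  calc (m : ℝ)⁻¹ * ‖∑ j ∈ range m, ((m : ℂ) - j) * (PowerSeries.coeff j b * z ^ j)‖
      ≤ (m : ℝ)⁻¹ * m := mul_le_mul_of_nonneg_left h2 (inv_nonneg.mpr h0.le)
    _ = 1 := inv_mul_cancel₀ h0.ne'

private theorem bet_vw (n j : ℕ) (hn : 1 ≤ n) (hj : j < 2 * n) :
    vw n j = 2 * (1 - (j : ℝ) / ((2 * n : ℕ) : ℝ)) - (if j < n then 1 - (j : ℝ) / n else 0) := by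
  have h0 : (0 : ℝ) < n := by exact_mod_cast hn
  have e : 2 * (1 - (j : ℝ) / ((2 * n : ℕ) : ℝ)) = 2 - (j : ℝ) / n := by
    push_cast
    field_simp
  rw [e]
  by_cases h : j < n
  · rw [if_pos h, vw_one n j hn h.le]
    ring
  · rw [if_neg h, sub_zero]
    have h1 : (1 : ℝ) ≤ (j : ℝ) / n := by
      rw [one_le_div h0]
      exact_mod_cast not_lt.mp h
    have h2 : (j : ℝ) / n ≤ 2 := by
      rw [div_le_iff₀ h0]
      exact_mod_cast hj.le
    unfold vw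
    rw [min_eq_right (by linarith), max_eq_right (by linarith)]

theorem bt_le (n : ℕ) (hn : 1 ≤ n) (z : ℂ) (hz : ‖z‖ = 1) (f : Polynomial ℤ)
    (h0 : f.coeff 0 ≠ 0) : ‖bt n z f‖ ≤ 3 := by
  have hb := PC_bb (cx f)
  obtain ⟨b, hbb⟩ : ∃ b : PowerSeries ℂ, b = bb (cx f) := ⟨_, rfl⟩
  rw [← hbb] at hb
  have h1 := bet_fejer' hb z hz (2 * n) (by omega)
  have h2 := bet_fejer' hb z hz n hn
  have h3 : bt n z f = kk (cx f) / (MM f : ℂ) *
      (2 * ∑ j ∈ range (2 * n), (1 - (j : ℂ) / ((2 * n : ℕ) : ℂ)) * (PowerSeries.coeff j b * z ^ j) -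
        ∑ j ∈ range n, (1 - (j : ℂ) / n) * (PowerSeries.coeff j b * z ^ j)) := by
    have h4 : ∑ j ∈ range n, (1 - (j : ℂ) / n) * (PowerSeries.coeff j b * z ^ j) =
        ∑ j ∈ range (2 * n), (if j < n then (1 - (j : ℂ) / n) * (PowerSeries.coeff j b * z ^ j)
          else 0) := by
      rw [← sum_filter]
      refine sum_congr ?_ fun _ _ => rfl
      ext j
      rw [mem_filter, mem_range, mem_range]
      omega
    rw [h4, mul_sum, ← sum_sub_distrib, mul_sum]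
    unfold bt
    refine sum_congr rfl fun j hj => ?_
    rw [mem_range] at hj
    rw [bet_vw n j hn hj]
    unfold bc
    rw [← hbb]
    by_cases h : j < n
    · rw [if_pos h, if_pos h]
      push_cast
      ring
    · rw [if_neg h, if_neg h]
      push_cast
      ring
  rw [h3, norm_mul, bet_eps f h0, one_mul]
  refine (norm_sub_le _ _).trans ?_
  rw [norm_mul, Complex.norm_ofNat]
  linarith

end Pool.Agent.Lib.MP_7ab245_nt.QC
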