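import Pool.Agent.Lib.MP_7ab245_nt.QC.Ra
import Pool.Agent.Lib.MP_7ab245_nt.Cnt.Code
import Pool.Agent.Lib.MP_7ab245_nt.Cnt.Gauss

/-!
QC-Code2: from a predictor to a count.
-/

set_option autoImplicit false

open Finset MeasureTheory

namespace Pool.Agent.Lib.MP_7ab245_nt.QC

open Pool.Agent.Lib.MP_7ab245_nt.LogVar Pool.Agent.Lib.MP_7ab245_nt.Cnt

variable {ι : Type} [Fintype ι] [Nonempty ι] (a : ℕ → ι → ℤ)

private theorem code2_pt (m : ℤ) (x : ℝ) : ((m - round x : ℤ) : ℝ) ^ 2 ≤ 4 * ((m : ℝ) - x) ^ 2 := by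
  have h1 := abs_sub_round x
  by_cases h : |(m : ℝ) - x| < 1 / 2
  · have h2 : |((m - round x : ℤ) : ℝ)| < 1 := by
      push_cast
      have : (m : ℝ) - round x = (m - x) + (x - round x) := by ring
      rw [this]
      calc |(m : ℝ) - x + (x - round x)| ≤ |(m : ℝ) - x| + |x - round x| := abs_add_le _ _
        _ < 1 := by linarith
    have h3 : m - round x = 0 := by
      have h4 : |m - round x| < 1 := by exact_mod_cast h2
      exact Int.abs_lt_one_iff.1 h4
    rw [h3]
    push_cast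
    nlinarith [sq_nonneg ((m : ℝ) - x)]
  · push Not at h
    have h2 : |((m - round x : ℤ) : ℝ)| ≤ 2 * |(m : ℝ) - x| := by
      push_cast
      have : (m : ℝ) - round x = (m - x) + (x - round x) := by ring
      rw [this]
      calc |(m : ℝ) - x + (x - round x)| ≤ |(m : ℝ) - x| + |x - round x| := abs_add_le _ _
        _ ≤ 2 * |(m : ℝ) - x| := by linarith
    have h3 := pow_le_pow_left₀ (abs_nonneg _) h2 2
    rw [sq_abs, mul_pow, sq_abs] at h3
    linarith

theorem code2 (n : ℕ) (hn : 1 ≤ n) (A : ℕ → ι → ℝ)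
    (ha0 : ∀ f g, a 0 f = a 0 g)
    (hA : ∀ k f g, (∀ j < k, a j f = a j g) → A k f = A k g)
    (hdet : ∀ f g, (∀ k ≤ n, a k f = a k g) → f = g) (V : ℝ)
    (hV : ∑ k ∈ Icc 1 n, ∑ f, ((a k f : ℝ) - A k f) ^ 2 ≤ V * Fintype.card ι) :
    Real.log (Fintype.card ι) ≤ 2 + 4 * (1 + Real.log n) * V := by
  have hnR : (1 : ℝ) ≤ n := by exact_mod_cast hn
  have hlog : 0 ≤ Real.log n := Real.log_nonneg hnR
  obtain ⟨s, hs⟩ : ∃ s : ℝ, s = 1 + Real.log n := ⟨_, rfl⟩
  have hs1 : 1 ≤ s := by linarith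
  have hc : (0 : ℝ) < Fintype.card ι := by exact_mod_cast Fintype.card_pos
  have h1 := code n (fun k f => a k f - round (A k f)) (fun _ => s)
    (fun _ => 1 + 4 * Real.exp (-s))
    (by
      intro f g h
      apply hdet
      intro k
      induction k using Nat.strong_induction_on with
      | _ k ih =>
        intro hk
        rcases Nat.eq_zero_or_pos k with rfl | hk0
        · exact ha0 f g
        · have h2 := h k (Finset.mem_Icc.2 ⟨hk0, hk⟩)
          rw [hA k f g (fun j hj => ih j hj (by omega))] at h2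
          omega)
    (fun k _ => by positivity)
    (fun k _ B => gs_le_exp s hs1 B)
  refine h1.trans ?_
  have h2 : ∑ _k ∈ Icc 1 n, Real.log (1 + 4 * Real.exp (-s)) ≤ 2 := by
    rw [Finset.sum_const, Nat.card_Icc, nsmul_eq_mul, Nat.add_sub_cancel]
    have h3 : Real.log (1 + 4 * Real.exp (-s)) ≤ 4 * Real.exp (-s) := by
      have := Real.log_le_sub_one_of_pos (show (0 : ℝ) < 1 + 4 * Real.exp (-s) by positivity)
      linarith
    have h4 : Real.exp (-s) = Real.exp (-1) / n := by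
      rw [hs, neg_add, Real.exp_add, Real.exp_neg (Real.log n), Real.exp_log (by linarith)]
      rfl
    have h5 : Real.exp (-1) ≤ 1 / 2 := by
      rw [Real.exp_neg, ← one_div]
      apply one_div_le_one_div_of_le (by norm_num)
      have := Real.add_one_le_exp (1 : ℝ)
      linarith
    calc (n : ℝ) * Real.log (1 + 4 * Real.exp (-s)) ≤ n * (4 * (Real.exp (-1) / n)) := by
          rw [← h4]
          exact mul_le_mul_of_nonneg_left h3 (by linarith)
      _ = 4 * Real.exp (-1) := by field_simp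
      _ ≤ 2 := by linarith
  have h3 : (∑ k ∈ Icc 1 n, s * ∑ f, (((a k f - round (A k f) : ℤ)) : ℝ) ^ 2) / Fintype.card ι ≤
      4 * (1 + Real.log n) * V := by
    rw [div_le_iff₀ hc, ← Finset.mul_sum]
    calc s * ∑ k ∈ Icc 1 n, ∑ f, (((a k f - round (A k f) : ℤ)) : ℝ) ^ 2
        ≤ s * ∑ k ∈ Icc 1 n, ∑ f, 4 * ((a k f : ℝ) - A k f) ^ 2 :=
          mul_le_mul_of_nonneg_left (Finset.sum_le_sum fun k _ => Finset.sum_le_sum fun f _ =>
            code2_pt _ _) (by linarith)
      _ = s * (4 * ∑ k ∈ Icc 1 n, ∑ f, ((a k f : ℝ) - A k f) ^ 2) := by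
          simp only [Finset.mul_sum]
      _ ≤ s * (4 * (V * Fintype.card ι)) := by
          apply mul_le_mul_of_nonneg_left _ (by linarith)
          linarith
      _ = _ := by rw [hs]; ring
  linarith

end Pool.Agent.Lib.MP_7ab245_nt.QC
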