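import Pool.Agent.Lib.MP_7ab245_nt.Cnt.AvB

/-!
QC-Mart: real averages over the classes; three inequalities for the increments of averages.
-/

set_option autoImplicit false

open Finset

namespace Pool.Agent.Lib.MP_7ab245_nt.QC

open Pool.Agent.Lib.MP_7ab245_nt.Cnt

variable {ι : Type} [Fintype ι] (a : ℕ → ι → ℤ)

/-- the real average over the class -/
noncomputable def ra (k : ℕ) (X : ι → ℝ) (f : ι) : ℝ :=
  (∑ g ∈ cls a k f, X g) / ((cls a k f).card : ℝ)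

theorem ra_eq (k : ℕ) (X : ι → ℝ) (f : ι) :
    ((ra a k X f : ℝ) : ℂ) = av a k (fun g => (X g : ℂ)) f := by
  unfold ra av
  push_cast
  rfl

theorem ra_congr {k : ℕ} {f g : ι} (X : ι → ℝ) (h : ∀ j < k, a j f = a j g) :
    ra a k X f = ra a k X g := by
  unfold ra
  rw [cls_congr a h]

theorem card_pos' (k : ℕ) (f : ι) : (0 : ℝ) < (cls a k f).card := by
  exact_mod_cast card_cls_pos a k f

theorem ra_nonneg (k : ℕ) (X : ι → ℝ) (h : ∀ g, 0 ≤ X g) (f : ι) : 0 ≤ ra a k X f :=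
  div_nonneg (sum_nonneg fun g _ => h g) (card_pos' a k f).le

theorem ra_le (k : ℕ) (X : ι → ℝ) (D : ℝ) (h : ∀ g, X g ≤ D) (f : ι) : ra a k X f ≤ D := by
  unfold ra
  rw [div_le_iff₀ (card_pos' a k f)]
  calc ∑ g ∈ cls a k f, X g ≤ ∑ _g ∈ cls a k f, D := sum_le_sum fun g _ => h g
    _ = D * (cls a k f).card := by rw [sum_const, nsmul_eq_mul, mul_comm]

theorem ra_sum {k : ℕ} {κ : Type} (S : Finset κ) (X : κ → ι → ℝ) (f : ι) :
    ra a k (fun g => ∑ i ∈ S, X i g) f = ∑ i ∈ S, ra a k (X i) f := by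
  unfold ra
  rw [Finset.sum_comm, Finset.sum_div]

theorem ra_const_mul (k : ℕ) (c : ℝ) (X : ι → ℝ) (f : ι) :
    ra a k (fun g => c * X g) f = c * ra a k X f := by
  unfold ra
  rw [← mul_sum, mul_div_assoc]

theorem ra_add (k : ℕ) (X Y : ι → ℝ) (f : ι) :
    ra a k (fun g => X g + Y g) f = ra a k X f + ra a k Y f := by
  unfold ra
  rw [sum_add_distrib, add_div]

/-- a factor which is constant on the class -/
theorem ra_mul {k : ℕ} (X Y : ι → ℝ) (f : ι) (h : ∀ g, (∀ j < k, a j g = a j f) → Y g = Y f) :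
    ra a k (fun g => X g * Y g) f = ra a k X f * Y f := by
  unfold ra
  have h1 : ∀ g ∈ cls a k f, X g * Y g = X g * Y f := fun g hg => by
    rw [h g ((mem_cls a).mp hg)]
  rw [Finset.sum_congr rfl h1, ← Finset.sum_mul]
  ring

theorem ra_tower {k l : ℕ} (hkl : k ≤ l) (X : ι → ℝ) (f : ι) :
    ra a k (fun g => ra a l X g) f = ra a k X f := by
  have h := av_tower a hkl (fun g => (X g : ℂ)) f
  apply Complex.ofReal_injective
  rw [ra_eq, ra_eq, ← h]
  congr 1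
  funext g
  exact ra_eq a l X g

theorem sum_ra (k : ℕ) (X : ι → ℝ) : ∑ f, ra a k X f = ∑ f, X f := by
  rcases isEmpty_or_nonempty ι with h | h
  · simp
  · obtain ⟨f₀⟩ := h
    have h1 : cls a 0 f₀ = univ := by
      ext g
      rw [mem_cls]
      simp
    have h2 := ra_tower a (Nat.zero_le k) X f₀
    unfold ra at h2
    rw [h1] at h2
    have h3 : (0 : ℝ) < ((univ : Finset ι).card : ℝ) := by
      rw [← h1]
      exact card_pos' a 0 f₀
    exact (div_left_inj' h3.ne').1 h2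

/-- the average over a smaller class vanishes with the one over the larger class -/
theorem ra_zero {k l : ℕ} (hkl : k ≤ l) (X : ι → ℝ) (h : ∀ g, 0 ≤ X g) (f : ι)
    (h0 : ra a k X f = 0) : ra a l X f = 0 := by
  unfold ra at h0 ⊢
  rw [div_eq_zero_iff] at h0
  rcases h0 with h0 | h0
  · rw [sum_eq_zero_iff_of_nonneg fun g _ => h g] at h0
    rw [sum_eq_zero fun g hg => h0 g ?_, zero_div]
    rw [mem_cls] at hg ⊢
    exact fun j hj => hg j (lt_of_lt_of_le hj hkl)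
  · exact absurd h0 (card_pos' a k f).ne'

/-- orthogonality: a function of the class against an increment -/
theorem sum_mul_incr (k : ℕ) (X Y : ι → ℝ) (h : ∀ f g, (∀ j < k, a j g = a j f) → Y g = Y f) :
    ∑ f, ra a (k + 1) X f * Y f = ∑ f, ra a k X f * Y f := by
  rw [← sum_ra a k (fun f => ra a (k + 1) X f * Y f)]
  refine sum_congr rfl fun f _ => ?_
  rw [ra_mul a (fun g => ra a (k + 1) X g) Y f (h f), ra_tower a (Nat.le_succ k)]

private theorem mart_ineq {x y : ℝ} (hx : 0 ≤ x) (hy : 0 ≤ y) (h : y = 0 → x = 0) :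
    (√x - √y) ^ 2 ≤ x * Real.log x - x * Real.log y - x + y := by
  rcases eq_or_lt_of_le hy with hy0 | hy0
  · rw [h hy0.symm, ← hy0]
    simp
  rcases eq_or_lt_of_le hx with hx0 | hx0
  · rw [← hx0]
    simp [Real.sq_sqrt hy]
  have h1 : (√x - √y) ^ 2 = x + y - 2 * (√x * √y) := by
    rw [sub_sq, Real.sq_sqrt hx, Real.sq_sqrt hy]
    ring
  have hsx : 0 < √x := Real.sqrt_pos.2 hx0
  have hsy : 0 < √y := Real.sqrt_pos.2 hy0
  have h2 : Real.log (√y / √x) ≤ √y / √x - 1 := Real.log_le_sub_one_of_pos (by positivity)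
  rw [Real.log_div hsy.ne' hsx.ne', Real.log_sqrt hy, Real.log_sqrt hx] at h2
  have h3 : x * (√y / √x) = √x * √y := by
    have : x = √x * √x := (Real.mul_self_sqrt hx).symm
    nth_rewrite 1 [this]
    field_simp
  have h4 : x * (Real.log y / 2 - Real.log x / 2) ≤ x * (√y / √x - 1) :=
    mul_le_mul_of_nonneg_left h2 hx
  rw [mul_sub x (√y / √x), h3] at h4
  rw [h1]
  linarith

/-- Hellinger -/
theorem hel (N : ℕ) (D : ℝ) (hD : 1 ≤ D) (Q : ι → ℝ) (h0 : ∀ f, 0 ≤ Q f) (h1 : ∀ f, Q f ≤ D) :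
    ∑ k ∈ range N, ∑ f, (√(ra a (k + 1) Q f) - √(ra a k Q f)) ^ 2 ≤
      Real.log D * ∑ f, Q f + Fintype.card ι := by
  have hstep : ∀ k ∈ range N, ∑ f, (√(ra a (k + 1) Q f) - √(ra a k Q f)) ^ 2 ≤
      ∑ f, ra a (k + 1) Q f * Real.log (ra a (k + 1) Q f) -
        ∑ f, ra a k Q f * Real.log (ra a k Q f) := by
    intro k _
    have h2 : ∑ f, (√(ra a (k + 1) Q f) - √(ra a k Q f)) ^ 2 ≤
        ∑ f, (ra a (k + 1) Q f * Real.log (ra a (k + 1) Q f) -
          ra a (k + 1) Q f * Real.log (ra a k Q f) - ra a (k + 1) Q f + ra a k Q f) :=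
      sum_le_sum fun f _ => mart_ineq (ra_nonneg a _ Q h0 f) (ra_nonneg a _ Q h0 f)
        (ra_zero a (Nat.le_succ k) Q h0 f)
    have h3 := sum_mul_incr a k Q (fun f => Real.log (ra a k Q f))
      (fun f g h => by rw [ra_congr a Q h])
    rw [sum_add_distrib, sum_sub_distrib, sum_sub_distrib, sum_ra, sum_ra, h3] at h2
    linarith
  refine (sum_le_sum hstep).trans ?_
  rw [sum_range_sub (fun k => ∑ f, ra a k Q f * Real.log (ra a k Q f))]
  have hA : ∑ f, ra a N Q f * Real.log (ra a N Q f) ≤ Real.log D * ∑ f, Q f := by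
    rw [← sum_ra a N Q, mul_sum]
    refine sum_le_sum fun f _ => ?_
    rw [mul_comm]
    refine mul_le_mul_of_nonneg_right ?_ (ra_nonneg a _ Q h0 f)
    rcases eq_or_lt_of_le (ra_nonneg a N Q h0 f) with h2 | h2
    · rw [← h2, Real.log_zero]
      exact Real.log_nonneg hD
    · exact Real.log_le_log h2 (ra_le a N Q D h1 f)
  have hB : -(∑ f, ra a 0 Q f * Real.log (ra a 0 Q f)) ≤ Fintype.card ι := by
    rw [← sum_neg_distrib]
    calc ∑ f, -(ra a 0 Q f * Real.log (ra a 0 Q f)) ≤ ∑ _f : ι, (1 : ℝ) := by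
          refine sum_le_sum fun f _ => ?_
          rcases eq_or_lt_of_le (ra_nonneg a 0 Q h0 f) with h2 | h2
          · rw [← h2]
            simp
          · have h3 := Real.one_sub_inv_le_log_of_pos h2
            have h4 := mul_le_mul_of_nonneg_left h3 h2.le
            rw [mul_sub, mul_inv_cancel₀ h2.ne'] at h4
            linarith
      _ = Fintype.card ι := by simp
  linarith

/-- the sum of the increments of several averages -/
theorem lemA {κ : Type} (S : Finset κ) (N : ℕ) (D m : ℝ) (hD : 1 ≤ D) (w : κ → ℝ)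
    (hw : ∀ y ∈ S, 0 ≤ w y) (Q : κ → ι → ℝ) (h0 : ∀ y ∈ S, ∀ f, 0 ≤ Q y f)
    (h1 : ∀ y ∈ S, ∀ f, Q y f ≤ D) (hm : ∀ f, ∑ y ∈ S, w y * Q y f ≤ m) :
    ∑ k ∈ range N, ∑ f, (∑ y ∈ S, w y * |ra a (k + 1) (Q y) f - ra a k (Q y) f|) ^ 2 ≤
      4 * m * (m * Real.log D + ∑ y ∈ S, w y) * Fintype.card ι := by
  rcases isEmpty_or_nonempty ι with hι | ⟨⟨f₀⟩⟩
  · simp
  have hm0 : 0 ≤ m := (sum_nonneg fun y hy => mul_nonneg (hw y hy) (h0 y hy f₀)).trans (hm f₀)
  have hlog : 0 ≤ Real.log D := Real.log_nonneg hD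
  have hav : ∀ k f, ∑ y ∈ S, w y * ra a k (Q y) f ≤ m := by
    intro k f
    have h2 := ra_le a k (fun g => ∑ y ∈ S, w y * Q y g) m hm f
    rw [ra_sum a S (fun y g => w y * Q y g)] at h2
    simpa only [ra_const_mul] using h2
  have hpt : ∀ k f, (∑ y ∈ S, w y * |ra a (k + 1) (Q y) f - ra a k (Q y) f|) ^ 2 ≤
      4 * m * ∑ y ∈ S, w y * (√(ra a (k + 1) (Q y) f) - √(ra a k (Q y) f)) ^ 2 := by
    intro k f
    have h2 : ∑ y ∈ S, w y * |ra a (k + 1) (Q y) f - ra a k (Q y) f| =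
        ∑ y ∈ S, (√(w y) * |√(ra a (k + 1) (Q y) f) - √(ra a k (Q y) f)|) *
          (√(w y) * (√(ra a (k + 1) (Q y) f) + √(ra a k (Q y) f))) := by
      refine sum_congr rfl fun y hy => ?_
      have h3 := ra_nonneg a (k + 1) (Q y) (h0 y hy) f
      have h4 := ra_nonneg a k (Q y) (h0 y hy) f
      have h5 : ra a (k + 1) (Q y) f - ra a k (Q y) f =
          (√(ra a (k + 1) (Q y) f) - √(ra a k (Q y) f)) *
            (√(ra a (k + 1) (Q y) f) + √(ra a k (Q y) f)) := by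
        have e1 := Real.mul_self_sqrt h3
        have e2 := Real.mul_self_sqrt h4
        nlinarith
      rw [h5, abs_mul, abs_of_nonneg (show 0 ≤ √(ra a (k + 1) (Q y) f) + √(ra a k (Q y) f) by
        positivity)]
      have h6 := Real.mul_self_sqrt (hw y hy)
      calc w y * (|√(ra a (k + 1) (Q y) f) - √(ra a k (Q y) f)| *
            (√(ra a (k + 1) (Q y) f) + √(ra a k (Q y) f)))
          = (√(w y) * √(w y)) * (|√(ra a (k + 1) (Q y) f) - √(ra a k (Q y) f)| *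
            (√(ra a (k + 1) (Q y) f) + √(ra a k (Q y) f))) := by rw [h6]
        _ = _ := by ring
    rw [h2]
    refine (sum_mul_sq_le_sq_mul_sq S _ _).trans ?_
    have h7 : ∑ y ∈ S, (√(w y) * |√(ra a (k + 1) (Q y) f) - √(ra a k (Q y) f)|) ^ 2 =
        ∑ y ∈ S, w y * (√(ra a (k + 1) (Q y) f) - √(ra a k (Q y) f)) ^ 2 := by
      refine sum_congr rfl fun y hy => ?_
      rw [mul_pow, Real.sq_sqrt (hw y hy), sq_abs]
    have h8 : ∑ y ∈ S, (√(w y) * (√(ra a (k + 1) (Q y) f) + √(ra a k (Q y) f))) ^ 2 ≤ 4 * m := by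
      calc ∑ y ∈ S, (√(w y) * (√(ra a (k + 1) (Q y) f) + √(ra a k (Q y) f))) ^ 2
          ≤ ∑ y ∈ S, (2 * (w y * ra a (k + 1) (Q y) f) + 2 * (w y * ra a k (Q y) f)) := by
            refine sum_le_sum fun y hy => ?_
            rw [mul_pow, Real.sq_sqrt (hw y hy)]
            have h3 := ra_nonneg a (k + 1) (Q y) (h0 y hy) f
            have h4 := ra_nonneg a k (Q y) (h0 y hy) f
            have h9 : (√(ra a (k + 1) (Q y) f) + √(ra a k (Q y) f)) ^ 2 ≤
                2 * ra a (k + 1) (Q y) f + 2 * ra a k (Q y) f := by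
              have e1 := Real.sq_sqrt h3
              have e2 := Real.sq_sqrt h4
              nlinarith [sq_nonneg (√(ra a (k + 1) (Q y) f) - √(ra a k (Q y) f))]
            have := mul_le_mul_of_nonneg_left h9 (hw y hy)
            linarith
        _ = 2 * (∑ y ∈ S, w y * ra a (k + 1) (Q y) f) + 2 * (∑ y ∈ S, w y * ra a k (Q y) f) := by
            rw [sum_add_distrib, ← mul_sum, ← mul_sum]
        _ ≤ 4 * m := by linarith [hav (k + 1) f, hav k f]
    rw [h7, mul_comm]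
    refine mul_le_mul_of_nonneg_right h8 (sum_nonneg fun y hy => ?_)
    exact mul_nonneg (hw y hy) (sq_nonneg _)
  calc ∑ k ∈ range N, ∑ f, (∑ y ∈ S, w y * |ra a (k + 1) (Q y) f - ra a k (Q y) f|) ^ 2
      ≤ ∑ k ∈ range N, ∑ f, 4 * m * ∑ y ∈ S, w y *
          (√(ra a (k + 1) (Q y) f) - √(ra a k (Q y) f)) ^ 2 :=
        sum_le_sum fun k _ => sum_le_sum fun f _ => hpt k f
    _ = 4 * m * ∑ y ∈ S, w y * ∑ k ∈ range N, ∑ f,
          (√(ra a (k + 1) (Q y) f) - √(ra a k (Q y) f)) ^ 2 := by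
        simp only [mul_sum]
        rw [sum_congr rfl fun k _ => sum_comm, sum_comm]
    _ ≤ 4 * m * ∑ y ∈ S, w y * (Real.log D * ∑ f, Q y f + Fintype.card ι) := by
        refine mul_le_mul_of_nonneg_left (sum_le_sum fun y hy => ?_) (by positivity)
        exact mul_le_mul_of_nonneg_left (hel a N D hD (Q y) (h0 y hy) (h1 y hy)) (hw y hy)
    _ = 4 * m * (Real.log D * ∑ f, (∑ y ∈ S, w y * Q y f) + (∑ y ∈ S, w y) * Fintype.card ι) := by
        congr 1
        simp only [mul_add, sum_add_distrib, mul_sum, sum_mul]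
        congr 1
        rw [sum_comm]
        exact sum_congr rfl fun f _ => sum_congr rfl fun y _ => by ring
    _ ≤ 4 * m * (Real.log D * (m * Fintype.card ι) + (∑ y ∈ S, w y) * Fintype.card ι) := by
        refine mul_le_mul_of_nonneg_left ?_ (by positivity)
        have h2 : ∑ f, (∑ y ∈ S, w y * Q y f) ≤ m * Fintype.card ι := by
          calc ∑ f, (∑ y ∈ S, w y * Q y f) ≤ ∑ _f : ι, m := sum_le_sum fun f _ => hm f
            _ = m * Fintype.card ι := by rw [sum_const, card_univ, nsmul_eq_mul, mul_comm]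
        have := mul_le_mul_of_nonneg_left h2 hlog
        linarith
    _ = _ := by ring

/-- orthogonality, complex version -/
theorem sum_mul_incr_c (k : ℕ) (X Y : ι → ℂ) (h : ∀ f g, (∀ j < k, a j g = a j f) → Y g = Y f) :
    ∑ f, av a (k + 1) X f * Y f = ∑ f, av a k X f * Y f := by
  rcases isEmpty_or_nonempty ι with hι | ⟨⟨f₀⟩⟩
  · simp
  have h1 : cls a 0 f₀ = univ := by
    ext g
    rw [mem_cls]
    simp
  have h2 := sum_cls_av a (Nat.zero_le k) (fun f => av a (k + 1) X f * Y f) f₀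
  rw [h1] at h2
  rw [← h2]
  refine sum_congr rfl fun f _ => ?_
  rw [av_mul a (fun g => av a (k + 1) X g) Y f (h f), av_tower a (Nat.le_succ k)]

private theorem norm_av_le (k : ℕ) (X : ι → ℂ) (B : ℝ) (h : ∀ g, ‖X g‖ ≤ B) (f : ι) :
    ‖av a k X f‖ ≤ B := by
  unfold av
  rw [norm_div, Complex.norm_natCast, div_le_iff₀ (card_pos' a k f)]
  calc ‖∑ g ∈ cls a k f, X g‖ ≤ ∑ g ∈ cls a k f, ‖X g‖ := norm_sum_le _ _
    _ ≤ ∑ _g ∈ cls a k f, B := sum_le_sum fun g _ => h g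
    _ = B * (cls a k f).card := by rw [sum_const, nsmul_eq_mul, mul_comm]

private theorem mart_pt {q q' : ℝ} (hq : 0 ≤ q) (hq' : 0 ≤ q') (b b' : ℂ) (hb : ‖b‖ ≤ 3)
    (hb' : ‖b'‖ ≤ 3) : |(q' - q) * (‖b'‖ ^ 2 - ‖b‖ ^ 2)| ≤
      1 / 2 * (q * ‖b' - b‖ ^ 2) + 108 * (√q' - √q) ^ 2 := by
  set Δ := |√q' - √q| with hΔ
  have hΔ0 : 0 ≤ Δ := abs_nonneg _
  have hΔ2 : (√q' - √q) ^ 2 = Δ ^ 2 := (sq_abs _).symm
  have h1 : |q' - q| ≤ Δ * (2 * √q + Δ) := by
    have e1 := Real.mul_self_sqrt hq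
    have e2 := Real.mul_self_sqrt hq'
    have e3 : q' - q = (√q' - √q) * (√q' + √q) := by nlinarith
    rw [e3, abs_mul, abs_of_nonneg (show 0 ≤ √q' + √q by positivity)]
    refine mul_le_mul_of_nonneg_left ?_ hΔ0
    have : √q' - √q ≤ Δ := le_abs_self _
    linarith
  have hn0 : 0 ≤ ‖b' - b‖ := norm_nonneg _
  have h2 : |‖b'‖ ^ 2 - ‖b‖ ^ 2| ≤ 6 * ‖b' - b‖ := by
    have e1 : ‖b'‖ ^ 2 - ‖b‖ ^ 2 = (‖b'‖ + ‖b‖) * (‖b'‖ - ‖b‖) := by ring
    rw [e1, abs_mul, abs_of_nonneg (show 0 ≤ ‖b'‖ + ‖b‖ by positivity)]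
    exact mul_le_mul (by linarith) (abs_norm_sub_norm_le b' b) (abs_nonneg _) (by norm_num)
  have h3 : ‖b' - b‖ ≤ 6 := (norm_sub_le _ _).trans (by linarith)
  rw [abs_mul, hΔ2]
  have hsq : √q * √q = q := Real.mul_self_sqrt hq
  have hs0 : 0 ≤ √q := Real.sqrt_nonneg _
  calc |q' - q| * |‖b'‖ ^ 2 - ‖b‖ ^ 2| ≤ (Δ * (2 * √q + Δ)) * (6 * ‖b' - b‖) :=
        mul_le_mul h1 h2 (abs_nonneg _) (by positivity)
    _ = 12 * Δ * (√q * ‖b' - b‖) + 6 * Δ ^ 2 * ‖b' - b‖ := by ring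
    _ ≤ (1 / 2 * (√q * ‖b' - b‖) ^ 2 + 72 * Δ ^ 2) + 6 * Δ ^ 2 * 6 := by
        have e1 : 12 * Δ * (√q * ‖b' - b‖) ≤ 1 / 2 * (√q * ‖b' - b‖) ^ 2 + 72 * Δ ^ 2 := by
          nlinarith [sq_nonneg (√q * ‖b' - b‖ - 12 * Δ)]
        have e2 : 6 * Δ ^ 2 * ‖b' - b‖ ≤ 6 * Δ ^ 2 * 6 :=
          mul_le_mul_of_nonneg_left h3 (by positivity)
        linarith
    _ = 1 / 2 * (q * ‖b' - b‖ ^ 2) + 108 * Δ ^ 2 := by
        rw [mul_pow, sq √q, hsq]
        ring

/-- the increments of a bounded complex average with the weights `E_k Q` -/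
theorem lemS (N : ℕ) (D : ℝ) (hD : 1 ≤ D) (Q : ι → ℝ) (h0 : ∀ f, 0 ≤ Q f) (h1 : ∀ f, Q f ≤ D)
    (β : ι → ℂ) (hβ : ∀ f, ‖β f‖ ≤ 3) :
    ∑ k ∈ range N, ∑ f, ra a k Q f * ‖av a (k + 1) β f - av a k β f‖ ^ 2 ≤
      18 * ∑ f, Q f + 216 * (Real.log D * ∑ f, Q f + Fintype.card ι) := by
  have hb : ∀ k f, ‖av a k β f‖ ≤ 3 := fun k f => norm_av_le a k β 3 hβ f
  have hq : ∀ k f, 0 ≤ ra a k Q f := fun k f => ra_nonneg a k Q h0 f
  have hstep : ∀ k ∈ range N, ∑ f, ra a k Q f * ‖av a (k + 1) β f - av a k β f‖ ^ 2 ≤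
      (∑ f, ra a (k + 1) Q f * ‖av a (k + 1) β f‖ ^ 2 - ∑ f, ra a k Q f * ‖av a k β f‖ ^ 2) +
        (1 / 2 * ∑ f, ra a k Q f * ‖av a (k + 1) β f - av a k β f‖ ^ 2 +
          108 * ∑ f, (√(ra a (k + 1) Q f) - √(ra a k Q f)) ^ 2) := by
    intro k _
    -- orthogonality
    have o1 := sum_mul_incr_c a k β (fun f => (ra a k Q f : ℂ) * (starRingEnd ℂ) (av a k β f))
      (fun f g h => by rw [ra_congr a Q h, av_congr a β h])
    have o2 : ∑ f, ra a k Q f * (av a (k + 1) β f * (starRingEnd ℂ) (av a k β f)).re =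
        ∑ f, ra a k Q f * ‖av a k β f‖ ^ 2 := by
      have h2 := congrArg Complex.re o1
      rw [Complex.re_sum, Complex.re_sum] at h2
      have e1 : ∀ f, (av a (k + 1) β f * ((ra a k Q f : ℂ) * (starRingEnd ℂ) (av a k β f))).re =
          ra a k Q f * (av a (k + 1) β f * (starRingEnd ℂ) (av a k β f)).re := by
        intro f
        rw [mul_left_comm, Complex.re_ofReal_mul]
      have e2 : ∀ f, (av a k β f * ((ra a k Q f : ℂ) * (starRingEnd ℂ) (av a k β f))).re =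
          ra a k Q f * ‖av a k β f‖ ^ 2 := by
        intro f
        rw [mul_left_comm, Complex.re_ofReal_mul, Complex.mul_conj, Complex.ofReal_re,
          Complex.normSq_eq_norm_sq]
      simp only [e1, e2] at h2
      exact h2
    have o3 : ∑ f, ra a k Q f * ‖av a (k + 1) β f - av a k β f‖ ^ 2 =
        ∑ f, ra a k Q f * ‖av a (k + 1) β f‖ ^ 2 - ∑ f, ra a k Q f * ‖av a k β f‖ ^ 2 := by
      have e1 : ∀ f, ra a k Q f * ‖av a (k + 1) β f - av a k β f‖ ^ 2 =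
          ra a k Q f * ‖av a (k + 1) β f‖ ^ 2 + ra a k Q f * ‖av a k β f‖ ^ 2 -
            2 * (ra a k Q f * (av a (k + 1) β f * (starRingEnd ℂ) (av a k β f)).re) := by
        intro f
        rw [← Complex.normSq_eq_norm_sq, ← Complex.normSq_eq_norm_sq, ← Complex.normSq_eq_norm_sq,
          Complex.normSq_sub]
        ring
      rw [sum_congr rfl fun f _ => e1 f, sum_sub_distrib, sum_add_distrib, ← mul_sum, o2]
      ring
    have o4 := sum_mul_incr a k Q (fun f => ‖av a k β f‖ ^ 2)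
      (fun f g h => by rw [av_congr a β h])
    have o5 : -∑ f, (ra a (k + 1) Q f - ra a k Q f) * (‖av a (k + 1) β f‖ ^ 2 - ‖av a k β f‖ ^ 2) ≤
        1 / 2 * ∑ f, ra a k Q f * ‖av a (k + 1) β f - av a k β f‖ ^ 2 +
          108 * ∑ f, (√(ra a (k + 1) Q f) - √(ra a k Q f)) ^ 2 := by
      rw [← sum_neg_distrib, mul_sum, mul_sum, ← sum_add_distrib]
      refine sum_le_sum fun f _ => ?_
      exact (neg_le_abs _).trans (mart_pt (hq k f) (hq (k + 1) f) _ _ (hb k f) (hb (k + 1) f))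
    have o6 : ∑ f, (ra a (k + 1) Q f - ra a k Q f) * (‖av a (k + 1) β f‖ ^ 2 - ‖av a k β f‖ ^ 2) =
        ∑ f, ra a (k + 1) Q f * ‖av a (k + 1) β f‖ ^ 2 - ∑ f, ra a k Q f * ‖av a (k + 1) β f‖ ^ 2 := by
      have e1 : ∀ f, (ra a (k + 1) Q f - ra a k Q f) *
          (‖av a (k + 1) β f‖ ^ 2 - ‖av a k β f‖ ^ 2) =
          (ra a (k + 1) Q f * ‖av a (k + 1) β f‖ ^ 2 - ra a k Q f * ‖av a (k + 1) β f‖ ^ 2) -
            (ra a (k + 1) Q f * ‖av a k β f‖ ^ 2 - ra a k Q f * ‖av a k β f‖ ^ 2) := by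
        intro f
        ring
      rw [sum_congr rfl fun f _ => e1 f, sum_sub_distrib, sum_sub_distrib, sum_sub_distrib, o4]
      ring
    rw [o6] at o5
    linarith [o3, o5]
  have htot := sum_le_sum hstep
  rw [sum_add_distrib, sum_range_sub (fun k => ∑ f, ra a k Q f * ‖av a k β f‖ ^ 2),
    sum_add_distrib, ← mul_sum, ← mul_sum] at htot
  have hh := hel a N D hD Q h0 h1
  have hN : ∑ f, ra a N Q f * ‖av a N β f‖ ^ 2 ≤ 9 * ∑ f, Q f := by
    rw [← sum_ra a N Q, mul_sum]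
    refine sum_le_sum fun f _ => ?_
    have e1 : ‖av a N β f‖ ^ 2 ≤ 9 := by
      calc ‖av a N β f‖ ^ 2 ≤ 3 ^ 2 := pow_le_pow_left₀ (norm_nonneg _) (hb N f) 2
        _ = 9 := by norm_num
    nlinarith [hq N f]
  have hz : 0 ≤ ∑ f, ra a 0 Q f * ‖av a 0 β f‖ ^ 2 :=
    sum_nonneg fun f _ => mul_nonneg (hq 0 f) (by positivity)
  linarith

end Pool.Agent.Lib.MP_7ab245_nt.QC
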