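import Mathlib
import Pool.Agent.Lib.MP_7ab245_nt.Cnt.Defs
import Pool.Agent.Lib.MP_7ab245_nt.LogVar.Assembly
import Pool.Agent.Lib.MP_7ab245_nt.QC.Mart

/-!
Integer polynomials of bounded Mahler measure and polynomial height: definitions. Do not edit.
-/

set_option autoImplicit false

open Finset MeasureTheory

namespace Pool.Agent.Lib.MP_7ab245_nt.QC

open Pool.Agent.Lib.MP_7ab245_nt.LogVar Pool.Agent.Lib.MP_7ab245_nt.Cnt
open Pool.Agent.Lib.MP_7ab245_nt.Mono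

/-- the `N`-th roots of unity -/
noncomputable def zg (N t : ℕ) : ℂ := Complex.exp (2 * Real.pi * Complex.I * (t / N))

/-- Fejér kernel -/
noncomputable def KK (k : ℕ) (z : ℂ) : ℝ := ‖∑ i ∈ range k, z ^ i‖ ^ 2 / k

/-- the radius of the Poisson kernel at scale `2 ^ r` -/
noncomputable def rho (r : ℕ) : ℝ := 1 - 1 / 2 ^ r

/-- majorant of the Fejér kernels at scale `2 ^ r` -/
noncomputable def kap (r : ℕ) (z : ℂ) : ℝ := 8 * (1 - rho r ^ 2) / ‖1 - (rho r : ℂ) * z‖ ^ 2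

/-- the weights: `1` for `j ≤ n`, `0` for `j ≥ 2 n`, linear in between -/
noncomputable def vw (n j : ℕ) : ℝ := max 0 (min 1 (2 - j / n))

/-- the coefficients of the normalised Blaschke product -/
noncomputable def bc (j : ℕ) (f : Polynomial ℤ) : ℂ :=
  kk (cx f) / (MM f : ℂ) * PowerSeries.coeff j (bb (cx f))

/-- smoothed Blaschke product on the circle -/
noncomputable def bt (n : ℕ) (z : ℂ) (f : Polynomial ℤ) : ℂ :=
  ∑ j ∈ range (2 * n), (vw n j : ℂ) * bc j f * z ^ j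

/-- smoothed `log |f|` on the circle -/
noncomputable def ut (n : ℕ) (z : ℂ) (f : Polynomial ℤ) : ℝ :=
  Real.log (MM f) + ∑ j ∈ Icc 1 (2 * n), vw n j / j * (QQ j f * z ^ j).re

/-- the mean of `|log |f||` on the unit circle -/
noncomputable def ll (f : Polynomial ℤ) : ℝ :=
  (2 * Real.pi)⁻¹ * ∫ θ, |Real.log ‖(cx f).eval (zz θ)‖| ∂mu

section avg

variable {ι : Type} [Fintype ι]

/-- first part of the averaged key identity -/
noncomputable def WA (a : ℕ → ι → ℤ) (b : ℕ → ι → ℂ) (k : ℕ) (f : ι) : ℂ :=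
  (∑ j ∈ range (k + 1), ((2 * j : ℂ) - k) * (av a (k + 1) (b j) f * av a k (b (k - j)) f)) / k

/-- second part of the averaged key identity -/
noncomputable def WB (a : ℕ → ι → ℤ) (β : ℕ → ι → ℂ) (U : ℕ → ι → ℝ) (N : ℕ) (ζ : ℕ → ℂ)
    (K : ℕ → ℕ → ℝ) (k : ℕ) (f : ι) : ℂ :=
  2 / (N : ℂ) ^ 2 * ∑ t ∈ range N, ∑ s ∈ range N, ζ t * (K t s : ℂ) *
    (av a (k + 1) (fun g => (U t g : ℂ) * β s g) f * av a k (β s) f -
      av a (k + 1) (β s) f * av a k (fun g => (U t g : ℂ) * β s g) f)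

/-- the three nonnegative functions attached to `U β` -/
noncomputable def q1 (U : ι → ℝ) (β : ι → ℂ) (g : ι) : ℝ := 3 * |U g| + U g * (β g).re
noncomputable def q2 (U : ι → ℝ) (g : ι) : ℝ := 3 * |U g|
noncomputable def q3 (U : ι → ℝ) (β : ι → ℂ) (g : ι) : ℝ := 3 * |U g| + U g * (β g).im

/-- first part of the bound for `WB` -/
noncomputable def BI (a : ℕ → ι → ℤ) (β : ℕ → ι → ℂ) (U : ℕ → ι → ℝ) (N : ℕ)
    (κ : ℕ → ℕ → ℝ) (k : ℕ) (f : ι) : ℝ :=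
  ∑ y ∈ range N ×ˢ range N, κ y.1 y.2 / (N : ℝ) ^ 2 *
    (|ra a (k + 1) (q1 (U y.1) (β y.2)) f - ra a k (q1 (U y.1) (β y.2)) f| +
      2 * |ra a (k + 1) (q2 (U y.1)) f - ra a k (q2 (U y.1)) f| +
      |ra a (k + 1) (q3 (U y.1) (β y.2)) f - ra a k (q3 (U y.1) (β y.2)) f|)

/-- the weights of the second part -/
noncomputable def Qs (U : ℕ → ι → ℝ) (N : ℕ) (κ : ℕ → ℕ → ℝ) (s : ℕ) (g : ι) : ℝ :=
  (∑ t ∈ range N, κ t s * |U t g|) / N

/-- second part of the bound for `WB` -/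
noncomputable def BS (a : ℕ → ι → ℤ) (β : ℕ → ι → ℂ) (U : ℕ → ι → ℝ) (N : ℕ)
    (κ : ℕ → ℕ → ℝ) (k : ℕ) (f : ι) : ℝ :=
  (∑ s ∈ range N, ra a k (Qs U N κ s) f * ‖av a (k + 1) (β s) f - av a k (β s) f‖) / N

end avg

end Pool.Agent.Lib.MP_7ab245_nt.QC
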