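import Pool.Agent.Lib.MP_7ab245_nt.QC.Fej
import Pool.Agent.Lib.MP_7ab245_nt.QC.Bet

/-!
QC-Disc1: the discrete Fourier transforms.

PROOF. `d1`: `ut n z f = log M + ∑_{1≤j≤2n} (v_j/(2j)) (Q_j z^j + conj Q_j z^{-j})`; `∑_t z_t^{-l} z_t^{j} = N [N ∣ j - l]`, `|j - l| < 2n < N` so only `j = l`;
`∑_t z_t^{-l-j} = 0` as `0 < l + j ≤ 4n < N`, and the constant term gives `0` (`0 < l < N`).
`d2`: `bt bt' = ∑_{i,j<2n} v_i v_j b_i c_j z^{i+j}`, `∑_s z_s^{-m} z_s^{i+j} = N [N ∣ i + j - m]`; `-n < m < n` and `0 ≤ i + j ≤ 4n - 2`, so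
`-n < i+j-m < 5n ≤ N`: only `i + j = m`. For `m ≥ 0` (`m < n`) all weights are `1` (vw_one) and the sum is `∑_{i≤m} b_i c_{m-i}`; for `m < 0` there is none.
-/

set_option autoImplicit false

open Finset MeasureTheory

namespace Pool.Agent.Lib.MP_7ab245_nt.QC

open Pool.Agent.Lib.MP_7ab245_nt.LogVar Pool.Agent.Lib.MP_7ab245_nt.Cnt
open Pool.Agent.Lib.MP_7ab245_nt.Mono

private theorem Disc1_not_dvd (N : ℕ) (x : ℤ) (hx : x ≠ 0) (h1 : -(N : ℤ) < x) (h2 : x < N) :
    ¬ (N : ℤ) ∣ x := by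
  intro hd
  exact hx (Int.eq_zero_of_abs_lt_dvd hd (abs_lt.mpr ⟨h1, h2⟩))

private theorem Disc1_re (n N t j : ℕ) (q : ℂ) (hj : 1 ≤ j) :
    (((vw n j / j * (q * zg N t ^ j).re : ℝ)) : ℂ) =
      (vw n j : ℂ) / (2 * j) * q * zg N t ^ (j : ℤ) +
        (vw n j : ℂ) / (2 * j) * (starRingEnd ℂ) q * zg N t ^ (-(j : ℤ)) := by
  have hj0 : (j : ℂ) ≠ 0 := by exact_mod_cast (by omega : j ≠ 0)
  have h1 : (((q * zg N t ^ j).re : ℝ) : ℂ) =
      (q * zg N t ^ j + (starRingEnd ℂ) (q * zg N t ^ j)) / 2 := by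
    rw [Complex.add_conj]
    push_cast
    ring
  rw [Complex.ofReal_mul, h1, map_mul, map_pow, conj_zg, zpow_natCast, zpow_neg, zpow_natCast,
    inv_pow]
  push_cast
  field_simp

theorem d1 (n N l : ℕ) (hn : 1 ≤ n) (hN : 5 * n ≤ N) (hl : 1 ≤ l) (hln : l < 2 * n)
    (f : Polynomial ℤ) :
    ∑ t ∈ range N, zg N t ^ (-(l : ℤ)) * (ut n (zg N t) f : ℂ) =
      N * ((vw n l : ℂ) / (2 * l) * QQ l f) := by
  have h1 : ∀ t ∈ range N, zg N t ^ (-(l : ℤ)) * (ut n (zg N t) f : ℂ) =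
      (Real.log (MM f) : ℂ) * zg N t ^ (-(l : ℤ)) + ∑ j ∈ Icc 1 (2 * n),
        ((vw n j : ℂ) / (2 * j) * QQ j f * zg N t ^ ((j : ℤ) - l) +
          (vw n j : ℂ) / (2 * j) * (starRingEnd ℂ) (QQ j f) * zg N t ^ (-(j : ℤ) - l)) := by
    intro t _
    have hz := zg_ne N t
    unfold ut
    rw [Complex.ofReal_add, mul_add, Complex.ofReal_sum, mul_sum, mul_comm (zg N t ^ (-(l : ℤ)))
      (Real.log (MM f) : ℂ)]
    congr 1
    apply sum_congr rfl
    intro j hj
    rw [mem_Icc] at hj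
    rw [Disc1_re n N t j (QQ j f) hj.1, sub_eq_add_neg, sub_eq_add_neg, zpow_add₀ hz,
      zpow_add₀ hz]
    ring
  rw [sum_congr rfl h1, sum_add_distrib, ← mul_sum, sum_zg N (by omega), if_neg, mul_zero,
    zero_add, sum_comm]
  · rw [sum_eq_single l]
    · rw [sum_add_distrib, ← mul_sum, ← mul_sum, sum_zg N (by omega), sum_zg N (by omega), if_pos,
        if_neg]
      · ring
      · exact Disc1_not_dvd N _ (by omega) (by omega) (by omega)
      · simp
    · intro j hj hjl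
      rw [mem_Icc] at hj
      rw [sum_add_distrib, ← mul_sum, ← mul_sum, sum_zg N (by omega), sum_zg N (by omega), if_neg,
        if_neg]
      · ring
      · exact Disc1_not_dvd N _ (by omega) (by omega) (by omega)
      · exact Disc1_not_dvd N _ (by omega) (by omega) (by omega)
    · intro h
      exact absurd (mem_Icc.mpr ⟨hl, hln.le⟩) h
  · exact Disc1_not_dvd N _ (by omega) (by omega) (by omega)

private theorem Disc1_exp (n N : ℕ) (hn : 1 ≤ n) (hN : 5 * n ≤ N) (e : ℤ) (he1 : -(n : ℤ) < e)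
    (he2 : e < n) (f g : Polynomial ℤ) :
    ∑ s ∈ range N, zg N s ^ (-e) * (bt n (zg N s) f * bt n (zg N s) g) =
      N * ∑ i ∈ range (2 * n), ∑ j ∈ range (2 * n),
        if ((i : ℤ) + j = e) then ((vw n i : ℂ) * bc i f) * ((vw n j : ℂ) * bc j g) else 0 := by
  have h1 : ∀ s ∈ range N, zg N s ^ (-e) * (bt n (zg N s) f * bt n (zg N s) g) =
      ∑ i ∈ range (2 * n), ∑ j ∈ range (2 * n),
        ((vw n i : ℂ) * bc i f) * ((vw n j : ℂ) * bc j g) * zg N s ^ ((i : ℤ) + j - e) := by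
    intro s _
    unfold bt
    rw [sum_mul_sum, mul_sum]
    apply sum_congr rfl
    intro i _
    rw [mul_sum]
    apply sum_congr rfl
    intro j _
    have hz := zg_ne N s
    rw [show (i : ℤ) + j - e = -e + i + j by ring, zpow_add₀ hz, zpow_add₀ hz, zpow_natCast,
      zpow_natCast]
    ring
  rw [sum_congr rfl h1, sum_comm, mul_sum]
  apply sum_congr rfl
  intro i hi
  rw [sum_comm, mul_sum]
  apply sum_congr rfl
  intro j hj
  rw [mem_range] at hi hj
  rw [← mul_sum, sum_zg N (by omega)]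
  by_cases h : (i : ℤ) + j = e
  · rw [if_pos h, if_pos (by rw [h]; simp)]
    ring
  · rw [if_neg h, if_neg]
    · ring
    · exact Disc1_not_dvd N _ (by omega) (by omega) (by omega)

theorem d2 (n N : ℕ) (hn : 1 ≤ n) (hN : 5 * n ≤ N) (m : ℕ) (hm : m < n)
    (f g : Polynomial ℤ) :
    ∑ s ∈ range N, zg N s ^ (-(m : ℤ)) * (bt n (zg N s) f * bt n (zg N s) g) =
      N * ∑ i ∈ range (m + 1), bc i f * bc (m - i) g := by
  rw [Disc1_exp n N hn hN (m : ℤ) (by omega) (by omega)]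
  congr 1
  have hsub : range (m + 1) ⊆ range (2 * n) := by
    intro i hi
    rw [mem_range] at hi ⊢
    omega
  rw [← sum_subset hsub]
  · apply sum_congr rfl
    intro i hi
    rw [mem_range] at hi
    rw [sum_eq_single (m - i)]
    · rw [if_pos (by omega), vw_one n i hn (by omega), vw_one n (m - i) hn (by omega)]
      simp
    · intro j _ hj
      rw [if_neg]
      intro h
      apply hj
      omega
    · intro h
      exfalso
      apply h
      rw [mem_range]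
      omega
  · intro i _ hi
    rw [mem_range] at hi
    apply sum_eq_zero
    intro j _
    rw [if_neg]
    intro h
    apply hi
    omega

theorem d3 (n N : ℕ) (hn : 1 ≤ n) (hN : 5 * n ≤ N) (m : ℕ) (hm0 : 1 ≤ m) (hm : m < n)
    (f g : Polynomial ℤ) :
    ∑ s ∈ range N, zg N s ^ (m : ℤ) * (bt n (zg N s) f * bt n (zg N s) g) = 0 := by
  have h := Disc1_exp n N hn hN (-(m : ℤ)) (by omega) (by omega) f g
  rw [neg_neg] at h
  rw [h]
  have h0 : ∑ i ∈ range (2 * n), ∑ j ∈ range (2 * n),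
      (if ((i : ℤ) + j = -(m : ℤ)) then ((vw n i : ℂ) * bc i f) * ((vw n j : ℂ) * bc j g)
        else 0) = 0 := by
    apply sum_eq_zero
    intro i _
    apply sum_eq_zero
    intro j _
    rw [if_neg]
    omega
  rw [h0, mul_zero]

end Pool.Agent.Lib.MP_7ab245_nt.QC
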