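import Pool.Agent.Lib.MP_7ab245_nt.QS.Fam

/-!
The number of polynomials with a fixed constant coefficient (sharp form, from QS/Fam).
-/

set_option autoImplicit false

open Finset MeasureTheory

namespace Pool.Agent.Lib.MP_7ab245_nt.QC

open Pool.Agent.Lib.MP_7ab245_nt.LogVar Pool.Agent.Lib.MP_7ab245_nt.Cnt
open Pool.Agent.Lib.MP_7ab245_nt.Mono

theorem fam2 (n : ℕ) (hn : 1 ≤ n) (T l : ℝ) (hT : 1 ≤ T) (hl : 1 ≤ l) (a₀ : ℤ)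
    (ha₀ : a₀ ≠ 0) (F : Finset (Polynomial ℤ))
    (hF : ∀ f ∈ F, f.natDegree ≤ n ∧ f.coeff 0 = a₀ ∧ MM f ≤ T ∧ 3 * ll f ≤ l) :
    (F.card : ℝ) ≤ Real.exp (2 + 10 ^ 8 * T ^ 4 * l ^ 2 * (1 + Real.log n)) := by
  have hn1 : (1 : ℝ) ≤ n := by exact_mod_cast hn
  have hlog : 0 ≤ Real.log n := Real.log_nonneg hn1
  refine (QS.fam n hn T l (by linarith) (by linarith) a₀ ha₀ F hF).trans (Real.exp_le_exp.2 ?_)
  have h1 : 2 + 8 * l ^ 2 ≤ 10 * l ^ 2 := by nlinarith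
  have h2 : 0 ≤ (1 + Real.log n) * T ^ 4 := by positivity
  have h3 : (1 + Real.log n) * T ^ 4 * (2 + 8 * l ^ 2) ≤ (1 + Real.log n) * T ^ 4 * (10 * l ^ 2) :=
    mul_le_mul_of_nonneg_left h1 h2
  have h4 : 0 ≤ (1 + Real.log n) * T ^ 4 * l ^ 2 := by positivity
  nlinarith

end Pool.Agent.Lib.MP_7ab245_nt.QC
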