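import Pool.Agent.Lib.MP_7ab245_nt.QC.Orth

/-!
QC-Fej: the Fejér kernels.

PROOF. `KK_eq`: `‖S‖² = S * conj S` (Complex.mul_conj, normSq_eq_norm_sq), `S = ∑ z^i`, `conj (z^j) = z^(-j)` for `‖z‖ = 1`; expand the product
(sum_mul_sum). `KK_sum`: by `KK_eq` with `z = zg N t * w`: `∑_t KK = (1/k) ∑_{i,j} w^(i-j) ∑_t zg N t^(i-j)`, and `sum_zg` is nonzero only for
`i = j` as `|i-j| < k ≤ N`. `KK_integral`: the same with `int_zz` (LogVar/Fourier.lean): `∫ KK k (w * conj (zz θ)) dθ = 2π`.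
`KK_nonneg` clear, `KK_le`: `‖∑_{i<k} z^i‖ ≤ k`.
-/

set_option autoImplicit false

open Finset MeasureTheory

namespace Pool.Agent.Lib.MP_7ab245_nt.QC

open Pool.Agent.Lib.MP_7ab245_nt.LogVar Pool.Agent.Lib.MP_7ab245_nt.Cnt
open Pool.Agent.Lib.MP_7ab245_nt.Mono

theorem KK_nonneg (k : ℕ) (z : ℂ) : 0 ≤ KK k z := by
  unfold KK
  positivity

theorem KK_le (k : ℕ) (z : ℂ) (hz : ‖z‖ = 1) : KK k z ≤ k := by
  unfold KK
  have h1 : ‖∑ i ∈ range k, z ^ i‖ ≤ k := by
    calc ‖∑ i ∈ range k, z ^ i‖ ≤ ∑ i ∈ range k, ‖z ^ i‖ := norm_sum_le _ _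
      _ = ∑ i ∈ range k, (1 : ℝ) := by
          refine sum_congr rfl fun i _ => ?_
          rw [norm_pow, hz, one_pow]
      _ = k := by simp
  rcases Nat.eq_zero_or_pos k with h | h
  · subst h
    simp
  · have hk : (0 : ℝ) < k := by exact_mod_cast h
    rw [div_le_iff₀ hk]
    have h2 := norm_nonneg (∑ i ∈ range k, z ^ i)
    nlinarith

theorem KK_eq (k : ℕ) (z : ℂ) (hz : ‖z‖ = 1) :
    (KK k z : ℂ) = (∑ i ∈ range k, ∑ j ∈ range k, z ^ ((i : ℤ) - j)) / k := by
  have hz0 : z ≠ 0 := by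
    intro h
    rw [h, norm_zero] at hz
    exact zero_ne_one hz
  have hc : (starRingEnd ℂ) z = z⁻¹ := (Complex.inv_eq_conj hz).symm
  unfold KK
  rw [Complex.ofReal_div, Complex.ofReal_pow, Complex.ofReal_natCast]
  congr 1
  rw [← Complex.mul_conj', map_sum, sum_mul_sum]
  refine sum_congr rfl fun i _ => sum_congr rfl fun j _ => ?_
  rw [map_pow, hc, zpow_sub₀ hz0, zpow_natCast, zpow_natCast, inv_pow, div_eq_mul_inv]

theorem KK_sum (N k : ℕ) (hk : 1 ≤ k) (hkN : k ≤ N) (w : ℂ) (hw : ‖w‖ = 1) :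
    ∑ t ∈ range N, KK k (zg N t * w) = N := by
  have hk0 : (k : ℂ) ≠ 0 := by
    have : k ≠ 0 := by omega
    exact_mod_cast this
  have key : ((∑ t ∈ range N, KK k (zg N t * w) : ℝ) : ℂ) = (N : ℂ) := by
    rw [Complex.ofReal_sum]
    have h1 : ∀ t ∈ range N, (KK k (zg N t * w) : ℂ) =
        (∑ i ∈ range k, ∑ j ∈ range k, w ^ ((i : ℤ) - j) * zg N t ^ ((i : ℤ) - j)) / k := by
      intro t _
      rw [KK_eq k _ (by rw [norm_mul, norm_zg, hw, one_mul])]
      congr 1
      refine sum_congr rfl fun i _ => sum_congr rfl fun j _ => ?_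
      rw [mul_zpow, mul_comm]
    rw [sum_congr rfl h1, ← sum_div, sum_comm]
    have h2 : ∀ i ∈ range k, ∑ t ∈ range N, ∑ j ∈ range k,
        w ^ ((i : ℤ) - j) * zg N t ^ ((i : ℤ) - j) = (N : ℂ) := by
      intro i hi
      rw [sum_comm]
      have h3 : ∀ j ∈ range k, ∑ t ∈ range N, w ^ ((i : ℤ) - j) * zg N t ^ ((i : ℤ) - j) =
          if j = i then (N : ℂ) else 0 := by
        intro j hj
        rw [← mul_sum, sum_zg N (by omega)]
        have hi' := mem_range.mp hi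
        have hj' := mem_range.mp hj
        by_cases hij : j = i
        · subst hij
          simp
        · have hnd : ¬ ((N : ℤ) ∣ (i : ℤ) - j) := by
            intro hd
            have h4 : ((i : ℤ) - j) = 0 := by
              apply Int.eq_zero_of_abs_lt_dvd hd
              rw [abs_lt]
              constructor <;> omega
            omega
          rw [if_neg hnd, if_neg hij, mul_zero]
      rw [sum_congr rfl h3, sum_ite_eq' (range k) i, if_pos hi]
    rw [sum_congr rfl h2, sum_const, card_range, nsmul_eq_mul]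
    field_simp
  exact_mod_cast key

end Pool.Agent.Lib.MP_7ab245_nt.QC
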