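import Pool.Agent.Lib.MP_7ab245_nt.Cnt3.Gap

/-!
If Lehmer's conjecture is false, the numbers of polynomials of degree at most `n`, bounded coefficients and
Mahler measure at most `T` without zeros which are `0` or roots of unity grow faster than every power of
`n`.
-/

set_option autoImplicit false

open Polynomial Finset

namespace Pool.Agent.Lib.MP_7ab245_nt.QC

open Pool.Agent.Lib.MP_7ab245_nt Pool.Agent.Lib.MP_7ab245_nt.Cnt3

/-! ### Heights -/

/-- the sum of the absolute values of the coefficients -/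
noncomputable def len (g : ℤ[X]) : ℕ := ∑ i ∈ g.support, (g.coeff i).natAbs

theorem coeff_le_len (g : ℤ[X]) (i : ℕ) : (g.coeff i).natAbs ≤ len g := by
  classical
  unfold len
  by_cases h : i ∈ g.support
  · exact Finset.single_le_sum (f := fun i => (g.coeff i).natAbs) (fun _ _ => Nat.zero_le _) h
  · rw [notMem_support_iff.1 h]
    exact Nat.zero_le _

theorem len_eq {g : ℤ[X]} {s : Finset ℕ} (hs : g.support ⊆ s) :
    len g = ∑ i ∈ s, (g.coeff i).natAbs := by
  unfold len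
  refine Finset.sum_subset hs fun i _ hi => ?_
  rw [notMem_support_iff.1 hi]
  rfl

theorem len_zero : len (0 : ℤ[X]) = 0 := by
  unfold len
  simp

theorem len_add (g h : ℤ[X]) : len (g + h) ≤ len g + len h := by
  classical
  rw [len_eq (g := g + h) (s := g.support ∪ h.support) support_add,
    len_eq (g := g) (s := g.support ∪ h.support) subset_union_left,
    len_eq (g := h) (s := g.support ∪ h.support) subset_union_right, ← Finset.sum_add_distrib]
  refine Finset.sum_le_sum fun i _ => ?_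
  rw [coeff_add]
  exact Int.natAbs_add_le _ _

theorem len_monomial_mul (k : ℕ) (a : ℤ) (h : ℤ[X]) :
    len (monomial k a * h) ≤ a.natAbs * len h := by
  classical
  have h1 : (monomial k a * h).support ⊆ h.support.map (addRightEmbedding k) := by
    intro i hi
    rw [mem_support_iff] at hi
    rw [Finset.mem_map]
    rcases Nat.lt_or_ge i k with hik | hik
    · exfalso
      apply hi
      rw [← C_mul_X_pow_eq_monomial, mul_assoc, coeff_C_mul, coeff_X_pow_mul', if_neg (by omega),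
        mul_zero]
    · refine ⟨i - k, ?_, ?_⟩
      · rw [mem_support_iff]
        intro h2
        apply hi
        rw [← C_mul_X_pow_eq_monomial, mul_assoc, coeff_C_mul, coeff_X_pow_mul', if_pos hik, h2,
          mul_zero]
      · simp only [addRightEmbedding_apply]
        omega
  rw [len_eq h1, Finset.sum_map]
  unfold len
  rw [Finset.mul_sum]
  refine Finset.sum_le_sum fun i _ => ?_
  rw [addRightEmbedding_apply, ← C_mul_X_pow_eq_monomial, mul_assoc, coeff_C_mul,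
    coeff_X_pow_mul, Int.natAbs_mul]

theorem len_mul (g h : ℤ[X]) : len (g * h) ≤ len g * len h := by
  classical
  have key : ∀ s : Finset ℕ, len ((∑ i ∈ s, monomial i (g.coeff i)) * h) ≤
      (∑ i ∈ s, (g.coeff i).natAbs) * len h := by
    intro s
    induction s using Finset.induction_on with
    | empty => simp [len_zero]
    | insert i s his ih =>
      rw [Finset.sum_insert his, Finset.sum_insert his, add_mul, add_mul]
      exact (len_add _ _).trans (Nat.add_le_add (len_monomial_mul _ _ _) ih)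
  have h1 := key g.support
  rw [← as_sum_support g] at h1
  exact h1

theorem len_expand (g : ℤ[X]) {m : ℕ} (hm : 0 < m) : len (expand ℤ m g) = len g := by
  classical
  have h1 : (expand ℤ m g).support ⊆ g.support.map ⟨fun i => i * m, fun i j hij =>
      Nat.eq_of_mul_eq_mul_right hm hij⟩ := by
    intro i hi
    rw [mem_support_iff, coeff_expand hm] at hi
    rw [Finset.mem_map]
    split_ifs at hi with h
    · exact ⟨i / m, mem_support_iff.2 hi, Nat.div_mul_cancel h⟩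
    · exact absurd rfl hi
  rw [len_eq h1, Finset.sum_map]
  unfold len
  refine Finset.sum_congr rfl fun i _ => ?_
  show ((expand ℤ m g).coeff (i * m)).natAbs = (g.coeff i).natAbs
  rw [coeff_expand_mul hm]

theorem len_one : len (1 : ℤ[X]) = 1 := by
  have h1 : (1 : ℤ[X]).support ⊆ {0} := by
    intro i hi
    rw [mem_support_iff, coeff_one] at hi
    rw [Finset.mem_singleton]
    by_contra hcon
    exact hi (if_neg hcon)
  rw [len_eq h1, Finset.sum_singleton, coeff_one_zero]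
  rfl

theorem PS_len {g : ℤ[X]} (s : Multiset ℕ) (hs : ∀ m ∈ s, 0 < m) :
    len (PS g s) ≤ len g ^ (Multiset.card s) := by
  induction s using Multiset.induction_on with
  | empty => rw [PS_zero, len_one, Multiset.card_zero, pow_zero]
  | cons m s ih =>
    rw [PS_cons, Multiset.card_cons, pow_succ']
    refine (len_mul _ _).trans ?_
    rw [len_expand g (hs m (Multiset.mem_cons_self _ _))]
    exact Nat.mul_le_mul_left _ (ih fun m' h => hs m' (Multiset.mem_cons_of_mem h))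

/-- the exponents are determined by the product -/
private theorem gap_le {g : ℤ[X]} {a : ℂ} (ha : aeval a g = 0) (ha1 : 1 < ‖a‖)
    (hmax : ∀ z : ℂ, aeval z g = 0 → ‖z‖ ≤ ‖a‖) {s s' : Multiset ℕ} (hs : ∀ m ∈ s, 0 < m)
    (he : PS g s = PS g s') : ∀ m ∈ s, ∃ m' ∈ s', m' ≤ m := by
  intro m hm
  obtain ⟨z, hz⟩ := IsAlgClosed.exists_pow_nat_eq a (hs m hm)
  have h1 : aeval z (PS g s) = 0 := (PS_root g z s).2 ⟨m, hm, by rw [hz]; exact ha⟩
  rw [he] at h1
  obtain ⟨m', hm', h2⟩ := (PS_root g z s').1 h1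
  refine ⟨m', hm', ?_⟩
  have h3 := hmax _ h2
  rw [← hz, norm_pow, norm_pow] at h3
  have hz1 : 1 < ‖z‖ := by
    by_contra hcon
    push Not at hcon
    have := pow_le_one₀ (norm_nonneg z) hcon (n := m)
    rw [← norm_pow, hz] at this
    linarith
  exact (pow_le_pow_iff_right₀ hz1).1 h3

private theorem gap_inj {g : ℤ[X]} (hg : g ≠ 0) {a : ℂ} (ha : aeval a g = 0) (ha1 : 1 < ‖a‖)
    (hmax : ∀ z : ℂ, aeval z g = 0 → ‖z‖ ≤ ‖a‖) (k : ℕ) : ∀ s s' : Multiset ℕ,
    Multiset.card s = k → (∀ m ∈ s, 0 < m) → (∀ m ∈ s', 0 < m) → PS g s = PS g s' → s = s' := by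
  induction k with
  | zero =>
    intro s s' hk hs hs' he
    rw [Multiset.card_eq_zero] at hk
    subst hk
    symm
    rw [Multiset.eq_zero_iff_forall_notMem]
    intro m hm
    obtain ⟨m', hm', -⟩ := gap_le ha ha1 hmax hs' he.symm m hm
    exact absurd hm' (Multiset.notMem_zero _)
  | succ k ih =>
    intro s s' hk hs hs' he
    have hne : s.toFinset.Nonempty := by
      obtain ⟨m, hm⟩ := Multiset.card_pos_iff_exists_mem.1 (show 0 < Multiset.card s by omega)
      exact ⟨m, Multiset.mem_toFinset.2 hm⟩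
    obtain ⟨m, hm, hmin⟩ := s.toFinset.exists_min_image id hne
    rw [Multiset.mem_toFinset] at hm
    obtain ⟨m₁, hm₁, hle⟩ := gap_le ha ha1 hmax hs he m hm
    have hne' : s'.toFinset.Nonempty := ⟨m₁, Multiset.mem_toFinset.2 hm₁⟩
    obtain ⟨m', hm', hmin'⟩ := s'.toFinset.exists_min_image id hne'
    rw [Multiset.mem_toFinset] at hm'
    obtain ⟨m₂, hm₂, hle'⟩ := gap_le ha ha1 hmax hs' he.symm m' hm'
    have h1 : m' ≤ m₁ := hmin' m₁ (Multiset.mem_toFinset.2 hm₁)
    have h2 : m ≤ m₂ := hmin m₂ (Multiset.mem_toFinset.2 hm₂)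
    have h3 : m = m' := by omega
    subst h3
    obtain ⟨t, rfl⟩ := Multiset.exists_cons_of_mem hm
    obtain ⟨t', rfl⟩ := Multiset.exists_cons_of_mem hm'
    rw [PS_cons, PS_cons] at he
    have h4 := mul_left_cancel₀ (expand_ne hg (hs m hm)) he
    rw [Multiset.card_cons] at hk
    rw [ih t t' (by omega) (fun i hi => hs i (Multiset.mem_cons_of_mem hi))
      (fun i hi => hs' i (Multiset.mem_cons_of_mem hi)) h4]

/-! ### Counting -/

/-- the multiset of the numbers `i + 1` -/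
private def gap_ms {L K : ℕ} (s : Sym (Fin L) K) : Multiset ℕ :=
  Multiset.map (fun i : Fin L => i.val + 1) s.1

private theorem gap_ms_inj {L K : ℕ} {s s' : Sym (Fin L) K} (h : gap_ms s = gap_ms s') : s = s' := by
  have h1 : Function.Injective fun i : Fin L => i.val + 1 := fun i j hij => by
    simp only at hij
    exact Fin.ext (by omega)
  exact Subtype.ext (Multiset.map_injective h1 h)

private theorem gap_card {g : ℤ[X]} (hg : NC g) {a : ℂ} (ha : aeval a g = 0) (ha1 : 1 < ‖a‖)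
    (hmax : ∀ z : ℂ, aeval z g = 0 → ‖z‖ ≤ ‖a‖) (K L n : ℕ) (T : ℝ)
    (hT : Pool.Agent.Lib.MP_7ab245_nt.MM g ^ K ≤ T) (hn : g.natDegree * L * K ≤ n)
    (H : ℕ) (hH : len g ^ K ≤ H) :
    (L + K - 1).choose K ≤ {g : ℤ[X] | g ≠ 0 ∧ g.natDegree ≤ n ∧ len g ≤ H ∧
      (g.map (Int.castRingHom ℂ)).mahlerMeasure ≤ T ∧
      ∀ z : ℂ, aeval z g = 0 → z ≠ 0 ∧ ∀ k : ℕ, 0 < k → z ^ k ≠ 1}.ncard := by
  classical
  have hg0 := NC_ne_zero hg
  have hfin : {g : ℤ[X] | g ≠ 0 ∧ g.natDegree ≤ n ∧ len g ≤ H ∧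
      (g.map (Int.castRingHom ℂ)).mahlerMeasure ≤ T ∧
      ∀ z : ℂ, aeval z g = 0 → z ≠ 0 ∧ ∀ k : ℕ, 0 < k → z ^ k ≠ 1}.Finite :=
    (fin_set n T).subset fun g hg => ⟨hg.2.1, hg.2.2.2.1⟩
  have hpos : ∀ s : Sym (Fin L) K, ∀ m ∈ gap_ms s, 0 < m := by
    intro s m hm
    obtain ⟨i, -, rfl⟩ := Multiset.mem_map.1 hm
    omega
  have hle : ∀ s : Sym (Fin L) K, ∀ m ∈ gap_ms s, m ≤ L := by
    intro s m hm
    obtain ⟨i, -, rfl⟩ := Multiset.mem_map.1 hm
    exact i.2
  have hc : ∀ s : Sym (Fin L) K, Multiset.card (gap_ms s) = K := by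
    intro s
    unfold gap_ms
    rw [Multiset.card_map]
    exact s.2
  have h1 : (Finset.univ.image fun s : Sym (Fin L) K => PS g (gap_ms s)).card = (L + K - 1).choose K := by
    rw [Finset.card_image_of_injective, Finset.card_univ, Sym.card_sym_eq_choose, Fintype.card_fin]
    intro s s' he
    exact gap_ms_inj (gap_inj hg0 ha ha1 hmax _ _ _ rfl (hpos s) (hpos s') he)
  rw [← h1, ← Set.ncard_coe_finset]
  refine Set.ncard_le_ncard ?_ hfin
  intro P hP
  rw [Finset.mem_coe, Finset.mem_image] at hP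
  obtain ⟨s, -, rfl⟩ := hP
  refine ⟨PS_ne hg0 _ (hpos s), ?_, ?_, ?_, ?_⟩
  · have := PS_deg (g := g) L (gap_ms s) (hle s)
    rw [hc] at this
    exact this.trans hn
  · have h2 := PS_len (g := g) (gap_ms s) (hpos s)
    rw [hc] at h2
    exact h2.trans hH
  · have h2 := PS_MM (g := g) (gap_ms s) (hpos s)
    rw [hc] at h2
    have h3 : ((PS g (gap_ms s)).map (Int.castRingHom ℂ)).mahlerMeasure =
        Pool.Agent.Lib.MP_7ab245_nt.MM g ^ K := h2
    rw [h3]
    exact hT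
  · intro z hz
    obtain ⟨m, hm, h2⟩ := (PS_root g z _).1 hz
    have hm0 := hpos s m hm
    obtain ⟨h3, h4⟩ := roots_of_NC hg _ h2
    constructor
    · rintro rfl
      exact h3 (zero_pow hm0.ne')
    · intro k hk h5
      apply h4 k hk
      rw [← pow_mul, mul_comm, pow_mul, h5, one_pow]

/-- If there is a polynomial with `1 < M(f)`, `M(f) ^ K ≤ T`, `M(f) < 2`, then for some `H` the numbers of
polynomials of length (sum of the absolute values of the coefficients) at most `H` are at least `c n ^ K`. -/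
theorem gap_len_aux {f : ℤ[X]} (h1 : 1 < Pool.Agent.Lib.MP_7ab245_nt.MM f)
    (h2 : Pool.Agent.Lib.MP_7ab245_nt.MM f < 2) (K : ℕ) (T : ℝ)
    (hT : Pool.Agent.Lib.MP_7ab245_nt.MM f ^ K ≤ T) :
    ∃ (B : ℕ) (H₀ : ℕ), 0 < B ∧ ∀ (n : ℕ) (H : ℕ), B ≤ n → H₀ ≤ H →
      n ^ K ≤ B * {g : ℤ[X] | g ≠ 0 ∧ g.natDegree ≤ n ∧ len g ≤ H ∧
      (g.map (Int.castRingHom ℂ)).mahlerMeasure ≤ T ∧
      ∀ z : ℂ, aeval z g = 0 → z ≠ 0 ∧ ∀ k : ℕ, 0 < k → z ^ k ≠ 1}.ncard := by
  classical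
  have hf0 : f ≠ 0 := by
    rintro rfl
    unfold Pool.Agent.Lib.MP_7ab245_nt.MM at h1
    simp at h1
    linarith
  obtain ⟨k, g, he, hk, hg⟩ := split_aux _ f hf0 rfl
  have hM : Pool.Agent.Lib.MP_7ab245_nt.MM g = Pool.Agent.Lib.MP_7ab245_nt.MM f := by
    rw [he, MM_mulc, hk, one_mul]
  rw [← hM] at h1 h2 hT
  have hg0 := NC_ne_zero hg
  -- a zero of largest absolute value
  obtain ⟨a, ha, ha1, hmax⟩ : ∃ a : ℂ, aeval a g = 0 ∧ 1 < ‖a‖ ∧ ∀ z : ℂ, aeval z g = 0 → ‖z‖ ≤ ‖a‖ := by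
    have hmem : ∀ z : ℂ, z ∈ (g.map (Int.castRingHom ℂ)).roots ↔ aeval z g = 0 := by
      intro z
      have h3 : g.map (Int.castRingHom ℂ) ≠ 0 := by
        rw [Ne, Polynomial.map_eq_zero_iff (Int.castRingHom ℂ).injective_int]
        exact hg0
      rw [mem_roots h3, IsRoot, eval_map]
      rfl
    have hlc : ‖(g.map (Int.castRingHom ℂ)).leadingCoeff‖ ≤ 1 := by
      have h3 := leadingCoeff_le_mahlerMeasure (g.map (Int.castRingHom ℂ))
      rw [leadingCoeff_map_of_injective (Int.castRingHom ℂ).injective_int] at h3 ⊢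
      have h4 : ‖(Int.castRingHom ℂ) g.leadingCoeff‖ = ((|g.leadingCoeff| : ℤ) : ℝ) := by simp
      rw [h4] at h3 ⊢
      have h5 : ((|g.leadingCoeff| : ℤ) : ℝ) < 2 := lt_of_le_of_lt h3 h2
      have h6 : |g.leadingCoeff| < 2 := by exact_mod_cast h5
      have h7 : |g.leadingCoeff| ≤ 1 := by omega
      exact_mod_cast h7
    have hex : ∃ a ∈ (g.map (Int.castRingHom ℂ)).roots, 1 < ‖a‖ := by
      by_contra hcon
      push Not at hcon
      have h3 : Pool.Agent.Lib.MP_7ab245_nt.MM g ≤ 1 := by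
        unfold Pool.Agent.Lib.MP_7ab245_nt.MM
        show (g.map (Int.castRingHom ℂ)).mahlerMeasure ≤ 1
        rw [mahlerMeasure_eq_leadingCoeff_mul_prod_roots]
        have h4 : ((g.map (Int.castRingHom ℂ)).roots.map fun a => max 1 ‖a‖).prod = 1 := by
          apply Multiset.prod_eq_one
          intro x hx
          rw [Multiset.mem_map] at hx
          obtain ⟨a, ha, rfl⟩ := hx
          exact max_eq_left (hcon a ha)
        rw [h4, mul_one]
        exact hlc
      linarith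
    obtain ⟨a₀, ha₀, ha₀1⟩ := hex
    obtain ⟨a, ha, hmax⟩ := (g.map (Int.castRingHom ℂ)).roots.toFinset.exists_max_image (fun z => ‖z‖)
      ⟨a₀, Multiset.mem_toFinset.2 ha₀⟩
    rw [Multiset.mem_toFinset] at ha
    refine ⟨a, (hmem a).1 ha, lt_of_lt_of_le ha₀1 (hmax a₀ (Multiset.mem_toFinset.2 ha₀)), fun z hz => ?_⟩
    exact hmax z (Multiset.mem_toFinset.2 ((hmem z).2 hz))
  have hd : 0 < g.natDegree := by
    rcases Nat.eq_zero_or_pos g.natDegree with h3 | h3
    · exfalso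
      rw [eq_C_of_natDegree_eq_zero h3] at ha
      rw [aeval_C, algebraMap_int_eq, eq_intCast] at ha
      apply hg0
      rw [eq_C_of_natDegree_eq_zero h3]
      have h4 : g.coeff 0 = 0 := by exact_mod_cast ha
      rw [h4, C_0]
    · exact h3
  rcases Nat.eq_zero_or_pos K with hK | hK
  · -- K = 0
    subst hK
    refine ⟨1, len g ^ 0, one_pos, fun n H hn hH => ?_⟩
    have h3 := gap_card hg ha ha1 hmax 0 1 n T hT (by simp) H hH
    simpa using h3
  · refine ⟨(2 * (g.natDegree * K)) ^ K * K.factorial, len g ^ K, by positivity,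
      fun n H hn hH => ?_⟩
    set D := g.natDegree * K with hD
    have hD0 : 0 < D := Nat.mul_pos hd hK
    have h3 := gap_card hg ha ha1 hmax K (n / D) n T hT (by
      calc g.natDegree * (n / D) * K = D * (n / D) := by rw [hD]; ring
        _ ≤ n := Nat.mul_div_le n D) H hH
    have h4 : (n / D) ^ K ≤ K.factorial * (n / D + K - 1).choose K := by
      have h5 := Nat.pow_sub_le_descFactorial (n / D + K - 1) K
      rw [Nat.descFactorial_eq_factorial_mul_choose] at h5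
      have h6 : ∀ q : ℕ, q + K - 1 + 1 - K = q := by
        intro q
        omega
      rwa [h6] at h5
    have hL : 1 ≤ n / D := by
      rw [Nat.one_le_div_iff hD0]
      refine le_trans ?_ hn
      calc D ≤ 2 * D := by omega
        _ = (2 * D) ^ 1 := (pow_one _).symm
        _ ≤ (2 * D) ^ K := Nat.pow_le_pow_right (Nat.mul_pos two_pos hD0) hK
        _ ≤ (2 * D) ^ K * K.factorial := Nat.le_mul_of_pos_right _ (Nat.factorial_pos _)
    have h7 : n ≤ 2 * D * (n / D) := by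
      have h8 := Nat.lt_mul_div_succ n hD0
      have h9 : D * (n / D + 1) ≤ 2 * D * (n / D) := by
        calc D * (n / D + 1) ≤ D * (n / D + n / D) := Nat.mul_le_mul_left _ (Nat.add_le_add_left hL _)
          _ = 2 * D * (n / D) := by ring
      exact h8.le.trans h9
    calc n ^ K ≤ (2 * D * (n / D)) ^ K := Nat.pow_le_pow_left h7 _
      _ = (2 * D) ^ K * (n / D) ^ K := by rw [mul_pow]
      _ ≤ (2 * D) ^ K * (K.factorial * (n / D + K - 1).choose K) := Nat.mul_le_mul_left _ h4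
      _ = (2 * D) ^ K * K.factorial * (n / D + K - 1).choose K := by ring
      _ ≤ _ := Nat.mul_le_mul_left _ h3

/-- the same with one constant: length at most `B` -/
theorem gap_len {f : ℤ[X]} (h1 : 1 < Pool.Agent.Lib.MP_7ab245_nt.MM f)
    (h2 : Pool.Agent.Lib.MP_7ab245_nt.MM f < 2) (K : ℕ) (T : ℝ)
    (hT : Pool.Agent.Lib.MP_7ab245_nt.MM f ^ K ≤ T) :
    ∃ B : ℕ, 0 < B ∧ ∀ n : ℕ, B ≤ n → n ^ K ≤ B * {g : ℤ[X] | g ≠ 0 ∧ g.natDegree ≤ n ∧
      len g ≤ B ∧ (g.map (Int.castRingHom ℂ)).mahlerMeasure ≤ T ∧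
      ∀ z : ℂ, aeval z g = 0 → z ≠ 0 ∧ ∀ k : ℕ, 0 < k → z ^ k ≠ 1}.ncard := by
  obtain ⟨B, H₀, hB, h⟩ := gap_len_aux h1 h2 K T hT
  refine ⟨B + H₀, by omega, fun n hn => ?_⟩
  exact (h n (B + H₀) (by omega) (by omega)).trans (Nat.mul_le_mul_right _ (Nat.le_add_right _ _))

/-- the same with coefficients of absolute value at most `B` -/
theorem gap_const {f : ℤ[X]} (h1 : 1 < Pool.Agent.Lib.MP_7ab245_nt.MM f)
    (h2 : Pool.Agent.Lib.MP_7ab245_nt.MM f < 2) (K : ℕ) (T : ℝ)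
    (hT : Pool.Agent.Lib.MP_7ab245_nt.MM f ^ K ≤ T) :
    ∃ B : ℕ, 0 < B ∧ ∀ n : ℕ, B ≤ n → n ^ K ≤ B * {g : ℤ[X] | g ≠ 0 ∧ g.natDegree ≤ n ∧
      (∀ i, |g.coeff i| ≤ (B : ℤ)) ∧ (g.map (Int.castRingHom ℂ)).mahlerMeasure ≤ T ∧
      ∀ z : ℂ, aeval z g = 0 → z ≠ 0 ∧ ∀ k : ℕ, 0 < k → z ^ k ≠ 1}.ncard := by
  obtain ⟨B, hB, h⟩ := gap_len h1 h2 K T hT
  refine ⟨B, hB, fun n hn => (h n hn).trans (Nat.mul_le_mul_left _ (Set.ncard_le_ncard ?_ ?_))⟩
  · rintro g ⟨g1, g2, g3, g4⟩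
    refine ⟨g1, g2, fun i => ?_, g4⟩
    have h5 := (coeff_le_len g i).trans g3
    rw [Int.abs_eq_natAbs]
    exact_mod_cast h5
  · exact (fin_set n T).subset fun g hg => ⟨hg.2.1, hg.2.2.2.1⟩

/-- the same with the height bound `n` -/
theorem gap_height {f : ℤ[X]} (h1 : 1 < Pool.Agent.Lib.MP_7ab245_nt.MM f)
    (h2 : Pool.Agent.Lib.MP_7ab245_nt.MM f < 2) (K : ℕ) (T : ℝ)
    (hT : Pool.Agent.Lib.MP_7ab245_nt.MM f ^ K ≤ T) :
    ∃ B : ℕ, 0 < B ∧ ∀ n : ℕ, B ≤ n → n ^ K ≤ B * {g : ℤ[X] | g ≠ 0 ∧ g.natDegree ≤ n ∧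
      (∀ i, |g.coeff i| ≤ (n : ℤ)) ∧ (g.map (Int.castRingHom ℂ)).mahlerMeasure ≤ T ∧
      ∀ z : ℂ, aeval z g = 0 → z ≠ 0 ∧ ∀ k : ℕ, 0 < k → z ^ k ≠ 1}.ncard := by
  obtain ⟨B, hB, h⟩ := gap_const h1 h2 K T hT
  refine ⟨B, hB, fun n hn => (h n hn).trans (Nat.mul_le_mul_left _ (Set.ncard_le_ncard ?_ ?_))⟩
  · rintro g ⟨g1, g2, g3, g4⟩
    exact ⟨g1, g2, fun i => (g3 i).trans (by exact_mod_cast hn), g4⟩
  · exact (fin_set n T).subset fun g hg => ⟨hg.2.1, hg.2.2.2.1⟩

/-- on the unit circle `|g| ≤ len g` -/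
theorem norm_aeval_le_len (g : ℤ[X]) (z : ℂ) (hz : ‖z‖ ≤ 1) : ‖aeval z g‖ ≤ len g := by
  rw [aeval_eq_sum_range]
  refine (norm_sum_le _ _).trans ?_
  rw [len_eq (g := g) (s := Finset.range (g.natDegree + 1)) supp_subset_range_natDegree_succ]
  push_cast
  refine Finset.sum_le_sum fun i _ => ?_
  rw [norm_smul, Int.norm_eq_abs, norm_pow, Nat.cast_natAbs, Int.cast_abs]
  exact mul_le_of_le_one_right (abs_nonneg _) (pow_le_one₀ (norm_nonneg _) hz)

end Pool.Agent.Lib.MP_7ab245_nt.QC
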