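import Mathlib

/-!
QC-La1: a double sum.

PROOF. Exchange the sums: for fixed `j` at most one `i` satisfies `a * i = b * j`, and then `1/(i j) = a/(b j²)` (`i = b j/a`). So the double sum is at most
`(a/b) ∑_{j ≤ J} 1/j² ≤ 2 (a/b)` (`∑_{j=1}^J 1/j² ≤ 2 - 1/J ≤ 2`, induction: `1/(J+1)² ≤ 1/J - 1/(J+1)`).
-/

set_option autoImplicit false

open Finset

namespace Pool.Agent.Lib.MP_7ab245_nt.QC

private theorem la1_sq2 (J : ℕ) : ∑ j ∈ Icc 1 J, (1 : ℝ) / ((j : ℝ) * j) ≤ 2 := by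
  have h : ∀ J : ℕ, 1 ≤ J → ∑ j ∈ Icc 1 J, (1 : ℝ) / ((j : ℝ) * j) ≤ 2 - 1 / (J : ℝ) := by
    intro J hJ
    induction J, hJ using Nat.le_induction with
    | base => norm_num
    | succ J hJ ih =>
      rw [Finset.sum_Icc_succ_top (by omega)]
      have hJ' : (1 : ℝ) ≤ J := by exact_mod_cast hJ
      have h1 : (1 : ℝ) / (((J + 1 : ℕ) : ℝ) * ((J + 1 : ℕ) : ℝ)) ≤
          1 / (J : ℝ) - 1 / (((J + 1 : ℕ) : ℝ)) := by
        push_cast
        rw [div_sub_div _ _ (by positivity) (by positivity),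
          div_le_div_iff₀ (by positivity) (by positivity)]
        nlinarith
      linarith
  rcases Nat.eq_zero_or_pos J with rfl | hJ
  · norm_num
  · have h2 : (0 : ℝ) ≤ 1 / (J : ℝ) := by positivity
    linarith [h J hJ]

theorem lac_pair (a b J : ℕ) (ha : 1 ≤ a) (hb : 1 ≤ b) :
    ∑ i ∈ Icc 1 J, ∑ j ∈ Icc 1 J, (if a * i = b * j then (1 : ℝ) / (i * j) else 0) ≤
      2 * (a / b : ℝ) := by
  have ha' : (0 : ℝ) < a := by exact_mod_cast ha
  have hb' : (0 : ℝ) < b := by exact_mod_cast hb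
  rw [Finset.sum_comm]
  have key : ∀ j ∈ Icc 1 J, ∑ i ∈ Icc 1 J, (if a * i = b * j then (1 : ℝ) / (i * j) else 0) ≤
      (a / b : ℝ) * (1 / ((j : ℝ) * j)) := by
    intro j hj
    rw [Finset.mem_Icc] at hj
    have hj' : (0 : ℝ) < j := by exact_mod_cast hj.1
    by_cases h : ∃ i ∈ Icc 1 J, a * i = b * j
    · obtain ⟨i, hi, hij⟩ := h
      rw [Finset.sum_eq_single i]
      · rw [if_pos hij]
        have hi' : (0 : ℝ) < i := by
          rw [Finset.mem_Icc] at hi
          exact_mod_cast hi.1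
        have e : (a : ℝ) * i = b * j := by exact_mod_cast hij
        rw [div_mul_div_comm, div_le_div_iff₀ (by positivity) (by positivity)]
        have e2 : (a : ℝ) * 1 * ((i : ℝ) * j) = b * j * j := by
          calc (a : ℝ) * 1 * ((i : ℝ) * j) = (a * i) * j := by ring
            _ = b * j * j := by rw [e]
        nlinarith [e2]
      · intro k _ hk
        rw [if_neg]
        intro hkj
        exact hk (Nat.eq_of_mul_eq_mul_left (by omega) (hkj.trans hij.symm))
      · intro h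
        exact absurd hi h
    · push Not at h
      rw [Finset.sum_eq_zero]
      · positivity
      · intro i hi
        rw [if_neg (h i hi)]
  calc _ ≤ ∑ j ∈ Icc 1 J, (a / b : ℝ) * (1 / ((j : ℝ) * j)) := Finset.sum_le_sum key
    _ = (a / b : ℝ) * ∑ j ∈ Icc 1 J, (1 / ((j : ℝ) * j)) := by rw [Finset.mul_sum]
    _ ≤ (a / b : ℝ) * 2 := by
        apply mul_le_mul_of_nonneg_left (la1_sq2 J) (by positivity)
    _ = 2 * (a / b : ℝ) := by ring

end Pool.Agent.Lib.MP_7ab245_nt.QC
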