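import Pool.Agent.Lib.MP_7ab245_nt.QC.La1
import Pool.Agent.Lib.MP_7ab245_nt.QC.Defs

/-!
QC-La2: the square mean of a lacunary sum.

PROOF. `F θ = ∑_i GJ ρ J (zz θ ^ a i) = ∑_i ∑_{j=1}^J (ρ^j/j) zz θ^(a i * j)`. `‖F‖² = F * conj F`, `conj (zz θ) = (zz θ)⁻¹` (conj_zz), expand, integrate with `int_zz`
(LogVar/Fourier.lean): `∫ ‖F‖² = 2π ∑_{i,i'} ∑_{j,j'} [a i * j = a i' * j'] ρ^{j+j'}/(j j')`, real and `≤ 2π ∑_{i,i'} ∑_{j,j'} [..] 1/(j j')`. By `lac_pair` (applied to the pair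
in the right order; the double sum is symmetric) the inner double sum is `≤ 2 min(a i/a i', a i'/a i) ≤ 2 · 2^{-|i-i'|}` (iterate `2 a i ≤ a (i+1)`), and
`∑_{i'<K} 2^{-|i-i'|} ≤ 3`. Total `≤ 2π · 6K`.
-/

set_option autoImplicit false

open Finset MeasureTheory

namespace Pool.Agent.Lib.MP_7ab245_nt.QC

open Pool.Agent.Lib.MP_7ab245_nt.LogVar Pool.Agent.Lib.MP_7ab245_nt.Cnt
open Pool.Agent.Lib.MP_7ab245_nt.Mono

/-- the partial sums of `- log (1 - ρ w)` -/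
noncomputable def GJ (ρ : ℝ) (J : ℕ) (w : ℂ) : ℂ := ∑ j ∈ Icc 1 J, ((ρ ^ j / j : ℝ) : ℂ) * w ^ j

private lemma La2_geoA (i K : ℕ) (h : K ≤ i + 1) :
    ∑ m ∈ range K, ((1 : ℝ) / 2) ^ ((i - m) + (m - i)) ≤ 2 * (1 / 2) ^ (i + 1 - K) := by
  induction K with
  | zero => simp
  | succ K ih =>
    rw [sum_range_succ]
    have h1 := ih (by omega)
    have e1 : i + 1 - K = (i - K) + 1 := by omega
    have e2 : i + 1 - (K + 1) = i - K := by omega
    have e3 : (i - K) + (K - i) = i - K := by omega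
    rw [e1] at h1
    rw [e2, e3]
    calc _ ≤ 2 * ((1 : ℝ) / 2) ^ ((i - K) + 1) + (1 / 2) ^ (i - K) := by linarith
      _ = 2 * (1 / 2) ^ (i - K) := by ring

private lemma La2_geoB (i L : ℕ) :
    ∑ m ∈ range (i + 1 + L), ((1 : ℝ) / 2) ^ ((i - m) + (m - i)) ≤ 3 - (1 / 2) ^ L := by
  induction L with
  | zero =>
    have h := La2_geoA i (i + 1) le_rfl
    simp only [Nat.sub_self, pow_zero, add_zero] at h ⊢
    linarith
  | succ L ih =>
    rw [← add_assoc, sum_range_succ]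
    have e3 : (i - (i + 1 + L)) + ((i + 1 + L) - i) = L + 1 := by omega
    rw [e3]
    have e4 : ((1 : ℝ) / 2) ^ (L + 1) = (1 / 2) ^ L / 2 := by ring
    rw [e4]
    linarith

private lemma La2_geo (i K : ℕ) :
    ∑ m ∈ range K, ((1 : ℝ) / 2) ^ ((i - m) + (m - i)) ≤ 3 := by
  rcases le_or_gt K (i + 1) with h | h
  · refine (La2_geoA i K h).trans ?_
    have : ((1 : ℝ) / 2) ^ (i + 1 - K) ≤ 1 := pow_le_one₀ (by norm_num) (by norm_num)
    linarith
  · obtain ⟨L, rfl⟩ := Nat.exists_eq_add_of_le h.le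
    refine (La2_geoB i L).trans ?_
    have : (0 : ℝ) ≤ (1 / 2) ^ L := by positivity
    linarith

private lemma La2_ratio (K : ℕ) (a : ℕ → ℕ) (ha : ∀ i, i + 1 < K → 2 * a i ≤ a (i + 1)) (i d : ℕ)
    (h : i + d < K) : 2 ^ d * a i ≤ a (i + d) := by
  induction d with
  | zero => simp
  | succ d ih =>
    have h1 := ih (by omega)
    have h2 := ha (i + d) (by omega)
    calc 2 ^ (d + 1) * a i = 2 * (2 ^ d * a i) := by ring
      _ ≤ 2 * a (i + d) := by omega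
      _ ≤ a (i + d + 1) := h2

private lemma La2_pair (K J : ℕ) (a : ℕ → ℕ) (ha1 : ∀ i < K, 1 ≤ a i)
    (ha : ∀ i, i + 1 < K → 2 * a i ≤ a (i + 1)) (i m : ℕ) (hi : i < K) (hm : m < K) :
    ∑ j ∈ Icc 1 J, ∑ l ∈ Icc 1 J, (if a i * j = a m * l then (1 : ℝ) / (j * l) else 0) ≤
      2 * (1 / 2) ^ ((i - m) + (m - i)) := by
  have main : ∀ i m : ℕ, i ≤ m → m < K → (a i / a m : ℝ) ≤ (1 / 2) ^ (m - i) := by
    intro i m him hmK
    obtain ⟨d, rfl⟩ := Nat.exists_eq_add_of_le him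
    have h1 := La2_ratio K a ha i d hmK
    have h2 := ha1 (i + d) hmK
    have h3 : (0 : ℝ) < a (i + d) := by exact_mod_cast h2
    have h4 : (2 : ℝ) ^ d * a i ≤ a (i + d) := by exact_mod_cast h1
    rw [div_le_iff₀ h3, Nat.add_sub_cancel_left, one_div, inv_pow]
    rw [← div_eq_inv_mul, le_div_iff₀ (by positivity)]
    linarith
  rcases le_total i m with h | h
  · have h5 := lac_pair (a i) (a m) J (ha1 i hi) (ha1 m hm)
    have h6 := main i m h hm
    have e : (i - m) + (m - i) = m - i := by omega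
    rw [e]
    linarith
  · have h5 := lac_pair (a m) (a i) J (ha1 m hm) (ha1 i hi)
    have h6 := main m i h hi
    have e : (i - m) + (m - i) = i - m := by omega
    rw [e]
    rw [sum_comm] at h5
    have e2 : ∑ j ∈ Icc 1 J, ∑ l ∈ Icc 1 J, (if a i * j = a m * l then (1 : ℝ) / (j * l) else 0) =
        ∑ y ∈ Icc 1 J, ∑ x ∈ Icc 1 J, (if a m * x = a i * y then (1 : ℝ) / (x * y) else 0) := by
      refine sum_congr rfl fun y _ => sum_congr rfl fun x _ => ?_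
      by_cases hc : a i * y = a m * x
      · rw [if_pos hc, if_pos hc.symm, mul_comm (y : ℝ)]
      · rw [if_neg hc, if_neg (fun h => hc h.symm)]
    rw [e2]
    linarith

theorem lac_l2 (K J : ℕ) (a : ℕ → ℕ) (ha1 : ∀ i < K, 1 ≤ a i)
    (ha : ∀ i, i + 1 < K → 2 * a i ≤ a (i + 1)) (ρ : ℝ) (h0 : 0 ≤ ρ) (h1 : ρ ≤ 1) :
    ∫ θ, ‖∑ i ∈ range K, GJ ρ J (zz θ ^ a i)‖ ^ 2 ∂mu ≤ 2 * Real.pi * (6 * K) := by
  set P : Finset (ℕ × ℕ) := range K ×ˢ Icc 1 J with hP
  set c : ℕ × ℕ → ℝ := fun p => ρ ^ p.2 / p.2 with hc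
  set e : ℕ × ℕ → ℕ := fun p => a p.1 * p.2 with he
  have hF : ∀ θ, ∑ i ∈ range K, GJ ρ J (zz θ ^ a i) = ∑ p ∈ P, (c p : ℂ) * zz θ ^ e p := by
    intro θ
    rw [hP, sum_product]
    refine sum_congr rfl fun i _ => ?_
    unfold GJ
    refine sum_congr rfl fun j _ => ?_
    rw [← pow_mul]
  have hpt : ∀ θ, ((‖∑ i ∈ range K, GJ ρ J (zz θ ^ a i)‖ ^ 2 : ℝ) : ℂ) =
      ∑ p ∈ P, ∑ q ∈ P, ((c p * c q : ℝ) : ℂ) * zz θ ^ ((e p : ℤ) - e q) := by
    intro θ
    rw [hF, Complex.ofReal_pow, ← Complex.ofReal_pow, ← Complex.normSq_eq_norm_sq,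
      ← Complex.mul_conj, map_sum, sum_mul_sum]
    refine sum_congr rfl fun p _ => sum_congr rfl fun q _ => ?_
    rw [map_mul, Complex.conj_ofReal, map_pow, conj_zz, zpow_sub₀ (zz_ne θ), zpow_natCast,
      zpow_natCast, inv_pow]
    push_cast
    rw [div_eq_mul_inv]
    ring
  have hint : ∀ p q : ℕ × ℕ, Integrable (fun θ => ((c p * c q : ℝ) : ℂ) *
      zz θ ^ ((e p : ℤ) - e q)) mu := fun p q =>
    (contC_integrable _ (zpow_continuous _)).const_mul _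
  have hI : (∫ θ, ‖∑ i ∈ range K, GJ ρ J (zz θ ^ a i)‖ ^ 2 ∂mu) =
      ∑ p ∈ P, ∑ q ∈ P, (c p * c q) * (if e p = e q then 2 * Real.pi else 0) := by
    have h1 : ((∫ θ, ‖∑ i ∈ range K, GJ ρ J (zz θ ^ a i)‖ ^ 2 ∂mu : ℝ) : ℂ) =
        ((∑ p ∈ P, ∑ q ∈ P, (c p * c q) * (if e p = e q then 2 * Real.pi else 0) : ℝ) : ℂ) := by
      rw [← integral_complex_ofReal]
      simp_rw [hpt]
      rw [integral_finsetSum _ (fun p _ => integrable_finsetSum _ (fun q _ => hint p q))]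
      rw [Complex.ofReal_sum]
      refine sum_congr rfl fun p _ => ?_
      rw [integral_finsetSum _ (fun q _ => hint p q), Complex.ofReal_sum]
      refine sum_congr rfl fun q _ => ?_
      rw [integral_const_mul, int_zz]
      by_cases h : e p = e q
      · rw [if_pos (by omega), if_pos h]
        push_cast
        ring
      · rw [if_neg (by omega), if_neg h]
        push_cast
        ring
    exact_mod_cast h1
  rw [hI]
  have hc0 : ∀ p ∈ P, 0 ≤ c p ∧ c p ≤ 1 / p.2 := by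
    intro p hp
    have h2 : (0 : ℝ) ≤ p.2 := by positivity
    refine ⟨div_nonneg (pow_nonneg h0 _) h2, ?_⟩
    exact div_le_div_of_nonneg_right (pow_le_one₀ h0 h1) h2
  have hstep : ∑ p ∈ P, ∑ q ∈ P, (c p * c q) * (if e p = e q then 2 * Real.pi else 0) ≤
      ∑ p ∈ P, ∑ q ∈ P, 2 * Real.pi * (if e p = e q then 1 / ((p.2 : ℝ) * q.2) else 0) := by
    refine sum_le_sum fun p hp => sum_le_sum fun q hq => ?_
    by_cases h : e p = e q
    · rw [if_pos h, if_pos h]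
      have h3 : c p * c q ≤ 1 / p.2 * (1 / q.2) :=
        mul_le_mul (hc0 p hp).2 (hc0 q hq).2 (hc0 q hq).1 (by positivity)
      rw [one_div_mul_one_div] at h3
      nlinarith [Real.pi_pos]
    · rw [if_neg h, if_neg h]
      simp
  refine hstep.trans ?_
  have hre : ∑ p ∈ P, ∑ q ∈ P, 2 * Real.pi * (if e p = e q then 1 / ((p.2 : ℝ) * q.2) else 0) =
      2 * Real.pi * ∑ i ∈ range K, ∑ m ∈ range K, ∑ j ∈ Icc 1 J, ∑ l ∈ Icc 1 J,
        (if a i * j = a m * l then (1 : ℝ) / (j * l) else 0) := by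
    simp_rw [← mul_sum]
    congr 1
    rw [hP, sum_product]
    refine sum_congr rfl fun i _ => ?_
    simp_rw [sum_product]
    rw [sum_comm]
  rw [hre]
  refine mul_le_mul_of_nonneg_left ?_ (by positivity)
  calc ∑ i ∈ range K, ∑ m ∈ range K, ∑ j ∈ Icc 1 J, ∑ l ∈ Icc 1 J,
        (if a i * j = a m * l then (1 : ℝ) / (j * l) else 0)
      ≤ ∑ i ∈ range K, ∑ m ∈ range K, 2 * ((1 : ℝ) / 2) ^ ((i - m) + (m - i)) := by
        refine sum_le_sum fun i hi => sum_le_sum fun m hm => ?_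
        exact La2_pair K J a ha1 ha i m (mem_range.1 hi) (mem_range.1 hm)
    _ ≤ ∑ i ∈ range K, (6 : ℝ) := by
        refine sum_le_sum fun i _ => ?_
        rw [← mul_sum]
        have := La2_geo i K
        linarith
    _ = 6 * K := by
        rw [sum_const, card_range, nsmul_eq_mul, mul_comm]

end Pool.Agent.Lib.MP_7ab245_nt.QC
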