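import Pool.Agent.Lib.MP_7ab245_nt.QC.La2

/-!
QC-La3: the mean of the absolute value of `∑ log |1 - ρ z ^ a_i|` for `ρ < 1`.

PROOF. For `‖w‖ ≤ 1`, `0 ≤ ρ < 1`: `GJ ρ J w → - log (1 - ρ w)` as `J → ∞` (Complex.hasSum_taylorSeries_neg_log at `ρ w`, partial sums over `range (J+1)` start with the term `n = 0`
equal to `0`), and `‖GJ ρ J w‖ ≤ ∑ ρ^j ≤ 1/(1-ρ)`. So with `F_J θ = ∑_{i<K} GJ ρ J (zz θ ^ a i)`: `F_J → F`, `Re F = - ∑_i log ‖1 - ρ zz θ ^ a i‖` (Complex.log_re), bounded by the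
constant `K/(1-ρ)`. Dominated convergence (`tendsto_integral_of_dominated_convergence`, finite measure `mu`): `∫ ‖F‖² ≤ 2π · 6K` from `lac_l2`. Finally
`∫ |Re F| ≤ ∫ ‖F‖ ≤ √(∫1) √(∫‖F‖²) ≤ √(2π) √(2π 6K)`; Cauchy-Schwarz in the form `∫ ‖F‖ ≤ (s ∫ 1 + s⁻¹ ∫ ‖F‖²)/2` with `s = √(6K)` (pointwise `x ≤ (s + x²/s)/2`) is
enough (`K = 0` separately). Measurability: everything is continuous in `θ` (`1 - ρ z ≠ 0`).
-/

set_option autoImplicit false

open Finset MeasureTheory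

namespace Pool.Agent.Lib.MP_7ab245_nt.QC

open Pool.Agent.Lib.MP_7ab245_nt.LogVar Pool.Agent.Lib.MP_7ab245_nt.Cnt
open Pool.Agent.Lib.MP_7ab245_nt.Mono

private theorem la3_gj (ρ : ℝ) (J : ℕ) (w : ℂ) :
    GJ ρ J w = ∑ j ∈ range (J + 1), ((ρ : ℂ) * w) ^ j / j := by
  unfold GJ
  rw [Finset.sum_range_succ', Nat.cast_zero, div_zero, add_zero]
  have h : Icc 1 J = (range J).map ⟨fun j => j + 1, fun a b h => Nat.succ_injective h⟩ := by
    ext x
    simp only [mem_Icc, mem_map, mem_range, Function.Embedding.coeFn_mk]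
    constructor
    · rintro ⟨h1, h2⟩
      exact ⟨x - 1, by omega, by omega⟩
    · rintro ⟨y, h1, rfl⟩
      omega
  rw [h, Finset.sum_map]
  refine Finset.sum_congr rfl fun j _ => ?_
  simp only [Function.Embedding.coeFn_mk]
  push_cast
  rw [mul_pow]
  ring

private theorem la3_tendsto (ρ : ℝ) (h0 : 0 ≤ ρ) (h1 : ρ < 1) (w : ℂ) (hw : ‖w‖ ≤ 1) :
    Filter.Tendsto (fun J => GJ ρ J w) Filter.atTop
      (nhds (-Complex.log (1 - (ρ : ℂ) * w))) := by
  have hn : ‖(ρ : ℂ) * w‖ < 1 := by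
    rw [norm_mul, Complex.norm_real, Real.norm_eq_abs, abs_of_nonneg h0]
    nlinarith [norm_nonneg w]
  have h := (Complex.hasSum_taylorSeries_neg_log hn).tendsto_sum_nat
  have h' := (Filter.tendsto_add_atTop_iff_nat 1).2 h
  refine h'.congr fun J => ?_
  rw [la3_gj]

private theorem la3_bound (ρ : ℝ) (h0 : 0 ≤ ρ) (h1 : ρ < 1) (J : ℕ) (w : ℂ) (hw : ‖w‖ ≤ 1) :
    ‖GJ ρ J w‖ ≤ (1 - ρ)⁻¹ := by
  rw [la3_gj]
  refine (norm_sum_le _ _).trans ?_
  have h2 : ∀ j ∈ range (J + 1), ‖((ρ : ℂ) * w) ^ j / j‖ ≤ ρ ^ j := by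
    intro j _
    rw [norm_div, norm_pow, norm_mul, Complex.norm_real, Real.norm_eq_abs, abs_of_nonneg h0,
      Complex.norm_natCast]
    rcases Nat.eq_zero_or_pos j with rfl | hj
    · simp
    · have hj1 : (1 : ℝ) ≤ j := by exact_mod_cast hj
      have h3 : (ρ * ‖w‖) ^ j ≤ ρ ^ j := by
        refine pow_le_pow_left₀ (mul_nonneg h0 (norm_nonneg _)) ?_ j
        calc ρ * ‖w‖ ≤ ρ * 1 := mul_le_mul_of_nonneg_left hw h0
          _ = ρ := mul_one ρ
      have h4 : 0 ≤ (ρ * ‖w‖) ^ j := pow_nonneg (mul_nonneg h0 (norm_nonneg _)) j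
      exact (div_le_self h4 hj1).trans h3
  refine (Finset.sum_le_sum h2).trans ?_
  rw [← tsum_geometric_of_lt_one h0 h1]
  exact (summable_geometric_of_lt_one h0 h1).sum_le_tsum _ fun i _ => pow_nonneg h0 i

private theorem la3_zz (θ : ℝ) (k : ℕ) : ‖zz θ ^ k‖ ≤ 1 := by
  rw [norm_pow]
  have h : ‖zz θ‖ = 1 := by
    unfold zz
    simp [circleMap]
  rw [h, one_pow]

private theorem la3_zzc (k : ℕ) : Continuous fun θ => zz θ ^ k := by
  have h : Continuous fun θ => zz θ := by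
    unfold zz
    exact continuous_circleMap 0 1
  exact h.pow k

private theorem la3_cont (ρ : ℝ) (J k : ℕ) : Continuous fun θ => GJ ρ J (zz θ ^ k) := by
  unfold GJ
  exact continuous_finsetSum _ fun j _ => continuous_const.mul ((la3_zzc k).pow j)

private theorem la3_mu : ∫ _θ : ℝ, (1 : ℝ) ∂mu = 2 * Real.pi := by
  unfold mu
  rw [← intervalIntegral.integral_of_le (by positivity)]
  simp

private theorem la3_fin : IsFiniteMeasure mu := by
  unfold mu
  infer_instance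


theorem lac_l1 (K : ℕ) (a : ℕ → ℕ) (ha1 : ∀ i < K, 1 ≤ a i)
    (ha : ∀ i, i + 1 < K → 2 * a i ≤ a (i + 1)) (ρ : ℝ) (h0 : 0 ≤ ρ) (h1 : ρ < 1) :
    ∫ θ, |∑ i ∈ range K, Real.log ‖1 - (ρ : ℂ) * zz θ ^ a i‖| ∂mu ≤
      2 * Real.pi * √(6 * K) := by
  have := la3_fin
  set c : ℝ := (1 - ρ)⁻¹ with hc
  have hc0 : 0 ≤ c := inv_nonneg.2 (by linarith)
  set F : ℝ → ℂ := fun θ => ∑ i ∈ range K, -Complex.log (1 - (ρ : ℂ) * zz θ ^ a i) with hF
  have hre : ∀ θ, |∑ i ∈ range K, Real.log ‖1 - (ρ : ℂ) * zz θ ^ a i‖| ≤ ‖F θ‖ := by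
    intro θ
    have h2 : ∑ i ∈ range K, Real.log ‖1 - (ρ : ℂ) * zz θ ^ a i‖ = -(F θ).re := by
      simp only [hF, Complex.re_sum, Complex.neg_re, Complex.log_re, Finset.sum_neg_distrib,
        neg_neg]
    rw [h2, abs_neg]
    exact Complex.abs_re_le_norm _
  have hslit : ∀ (k : ℕ) (θ : ℝ), 1 - (ρ : ℂ) * zz θ ^ k ∈ Complex.slitPlane := by
    intro k θ
    left
    have h2 : ((ρ : ℂ) * zz θ ^ k).re ≤ ρ := by
      refine (Complex.re_le_norm _).trans ?_
      rw [norm_mul, Complex.norm_real, Real.norm_eq_abs, abs_of_nonneg h0]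
      calc ρ * ‖zz θ ^ k‖ ≤ ρ * 1 := mul_le_mul_of_nonneg_left (la3_zz θ k) h0
        _ = ρ := mul_one ρ
    rw [Complex.sub_re, Complex.one_re]
    linarith
  have hFc : Continuous F := by
    refine continuous_finsetSum _ fun i _ => Continuous.neg ?_
    exact (continuous_const.sub (continuous_const.mul (la3_zzc (a i)))).clog
      fun θ => hslit (a i) θ
  have hint : ∀ g : ℝ → ℝ, Continuous g → Integrable g mu := by
    intro g hg
    unfold mu
    exact hg.integrableOn_Ioc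
  have hlim : Filter.Tendsto (fun J => ∫ θ, ‖∑ i ∈ range K, GJ ρ J (zz θ ^ a i)‖ ^ 2 ∂mu)
      Filter.atTop (nhds (∫ θ, ‖F θ‖ ^ 2 ∂mu)) := by
    refine tendsto_integral_of_dominated_convergence (fun _ => ((K : ℝ) * c) ^ 2) ?_ ?_ ?_ ?_
    · intro J
      exact ((continuous_finsetSum _ fun i _ => la3_cont ρ J (a i)).norm.pow 2).aestronglyMeasurable
    · exact hint _ continuous_const
    · intro J
      refine Filter.Eventually.of_forall fun θ => ?_
      rw [Real.norm_eq_abs, abs_of_nonneg (by positivity)]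
      refine pow_le_pow_left₀ (norm_nonneg _) ?_ 2
      refine (norm_sum_le _ _).trans ?_
      refine (Finset.sum_le_sum fun i _ => la3_bound ρ h0 h1 J _ (la3_zz θ (a i))).trans ?_
      rw [Finset.sum_const, card_range, nsmul_eq_mul]
    · refine Filter.Eventually.of_forall fun θ => ?_
      refine Filter.Tendsto.pow (Filter.Tendsto.norm ?_) 2
      exact tendsto_finsetSum _ fun i _ => la3_tendsto ρ h0 h1 _ (la3_zz θ (a i))
  have hsq : ∫ θ, ‖F θ‖ ^ 2 ∂mu ≤ 2 * Real.pi * (6 * K) :=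
    le_of_tendsto' hlim fun J => lac_l2 K J a ha1 ha ρ h0 h1.le
  rcases Nat.eq_zero_or_pos K with rfl | hK
  · simp
  · have hK1 : (0 : ℝ) < 6 * K := by positivity
    set s : ℝ := √(6 * K) with hs
    have hs0 : 0 < s := Real.sqrt_pos.2 hK1
    have hss : s * s = 6 * K := Real.mul_self_sqrt hK1.le
    have hFn : Continuous fun θ => ‖F θ‖ := hFc.norm
    have hL : Continuous fun θ => |∑ i ∈ range K, Real.log ‖1 - (ρ : ℂ) * zz θ ^ a i‖| := by
      refine (continuous_finsetSum _ fun i _ => ?_).abs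
      refine Continuous.log
        (continuous_const.sub (continuous_const.mul (la3_zzc (a i)))).norm fun θ => ?_
      exact norm_ne_zero_iff.2 (Complex.slitPlane_ne_zero (hslit (a i) θ))
    calc ∫ θ, |∑ i ∈ range K, Real.log ‖1 - (ρ : ℂ) * zz θ ^ a i‖| ∂mu
        ≤ ∫ θ, (s / 2 * 1 + (2 * s)⁻¹ * ‖F θ‖ ^ 2) ∂mu := by
          refine integral_mono (hint _ hL) (hint _ ?_) fun θ => ?_
          · exact continuous_const.add (continuous_const.mul (hFn.pow 2))
          · refine (hre θ).trans ?_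
            have h3 : 0 ≤ (‖F θ‖ - s) ^ 2 * (2 * s)⁻¹ := by positivity
            have h4 : (‖F θ‖ - s) ^ 2 * (2 * s)⁻¹ =
                s / 2 * 1 + (2 * s)⁻¹ * ‖F θ‖ ^ 2 - ‖F θ‖ := by
              field_simp
              ring
            linarith
      _ = s / 2 * (2 * Real.pi) + (2 * s)⁻¹ * ∫ θ, ‖F θ‖ ^ 2 ∂mu := by
          have i1 : Integrable (fun _ : ℝ => s / 2 * (1 : ℝ)) mu := hint _ continuous_const
          have i2 : Integrable (fun θ => (2 * s)⁻¹ * ‖F θ‖ ^ 2) mu :=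
            hint _ (continuous_const.mul (hFn.pow 2))
          rw [integral_add i1 i2, integral_const_mul, integral_const_mul, la3_mu]
      _ ≤ s / 2 * (2 * Real.pi) + (2 * s)⁻¹ * (2 * Real.pi * (6 * K)) := by
          have h5 : (0 : ℝ) ≤ (2 * s)⁻¹ := by positivity
          have h6 := mul_le_mul_of_nonneg_left hsq h5
          linarith
      _ = 2 * Real.pi * s := by
          rw [← hss]
          field_simp
          ring

end Pool.Agent.Lib.MP_7ab245_nt.QC
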