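import Pool.Agent.Lib.MP_7ab245_nt.QC.La3
import Pool.Agent.Lib.MP_7ab245_nt.QC.Lp

/-!
QC-La4: the mean of `log⁺ |g|` for a lacunary product of binomials.

PROOF. `g = ∏_{i<K} (X ^ a i - 1)`, `K ≥ 1` (`K = 0`: `lp 1 = 0`). `u θ = log ‖g (zz θ)‖ = ∑_i log ‖1 - zz θ ^ a i‖` (for almost all `θ`; `g(z) = 0` only for finitely many), `∫ u = 0`
(log_integral, `MM g = 1`: Polynomial.mahlerMeasure_mul / Finset.prod, and `M(X^a - 1) = 1`, e.g. Cnt3/Gap.lean MM_expand or the product of cyclotomic polynomials).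
Let `ρ = exp (-1/K)`, `v θ = ∑_i log ‖1 - ρ zz θ ^ a i‖`, `∫ v = 0`: each `∫ log ‖1 - ρ zz θ ^ a‖ = 0` (Jensen: `Polynomial.mahlerMeasure` of `1 - ρ X^a` is `1`, all zeros have absolute value
`> 1`, and the constant coefficient is `1`; or `fourier_log`-type argument: power series, as in La3, the mean of `z^{a j}` is `0`).
Pointwise `v - u ≥ -1/2`: for `‖z‖ = 1`: `‖1 - ρ z‖² = (1-ρ)² + ρ ‖1-z‖² ≥ ρ ‖1 - z‖²`, so `log ‖1 - ρ z‖ ≥ log ‖1 - z‖ + (log ρ)/2` for `z ≠ 1`, `log ρ = -1/K`; sum over `i`.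
So `∫ |v - u| ≤ ∫ ((v-u) + 1) = 2π` (`|x| ≤ x + 1` for `x ≥ -1/2`). Hence `∫ |u| ≤ 2π √(6K) + 2π`. Finally `log⁺ = (|u| + u)/2` a.e. (Real.posLog), so `lp g = (2π)⁻¹ (∫|u| + ∫ u)/2 ≤ (√(6K) + 1)/2`
(compare the proof of `ll_le` in QC/Lp.lean; `lp` is a circleAverage).
-/

set_option autoImplicit false

open Finset MeasureTheory

namespace Pool.Agent.Lib.MP_7ab245_nt.QC

open Pool.Agent.Lib.MP_7ab245_nt.LogVar Pool.Agent.Lib.MP_7ab245_nt.Cnt
open Pool.Agent.Lib.MP_7ab245_nt.Mono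

private theorem la4_lp_eq (f : Polynomial ℤ) :
    lp f = (2 * Real.pi)⁻¹ * ∫ θ, Real.posLog ‖(cx f).eval (zz θ)‖ ∂mu := by
  unfold lp
  rw [Real.circleAverage_def, intervalIntegral.integral_of_le (by positivity), smul_eq_mul]
  rfl

/-- the mean of `log |1 - ρ z ^ a|` is `0` -/
private theorem la4_int0 (a : ℕ) (ha : 1 ≤ a) (ρ : ℝ) (h0 : 0 ≤ ρ) (h1 : ρ < 1) :
    ∫ θ, Real.log ‖1 - (ρ : ℂ) * zz θ ^ a‖ ∂mu = 0 := by
  have h2 : Real.circleAverage (fun z => Real.log ‖1 - (ρ : ℂ) * z ^ a‖) 0 1 =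
      Real.log ‖1 - (ρ : ℂ) * (0 : ℂ) ^ a‖ := by
    refine AnalyticOnNhd.circleAverage_log_norm_of_ne_zero (g := fun z => 1 - (ρ : ℂ) * z ^ a)
      ?_ ?_
    · intro z _
      fun_prop
    · intro z hz h3
      rw [mem_closedBall_zero_iff, abs_one] at hz
      have h4 : (1 : ℂ) = (ρ : ℂ) * z ^ a := sub_eq_zero.1 h3
      have h5 : (1 : ℝ) = ρ * ‖z‖ ^ a := by
        have h6 := congrArg norm h4
        rw [norm_one, norm_mul, norm_pow, Complex.norm_real, Real.norm_of_nonneg h0] at h6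
        exact h6
      have h7 : ‖z‖ ^ a ≤ 1 := pow_le_one₀ (norm_nonneg _) hz
      nlinarith
  rw [zero_pow (by omega), mul_zero, sub_zero, norm_one, Real.log_one,
    Pool.Agent.Lib.MP_7ab245_nt.Mono.circleAverage_eq] at h2
  have hpi := Real.pi_pos
  rcases mul_eq_zero.1 h2 with h3 | h3
  · exact absurd h3 (by positivity)
  · exact h3

/-- `|1 - ρ z|² ≥ ρ |1 - z|²` on the unit circle -/
private theorem la4_pt (z : ℂ) (hz : ‖z‖ = 1) (ρ : ℝ) (h0 : 0 < ρ) (h1 : z - 1 ≠ 0) :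
    Real.log ‖z - 1‖ + Real.log ρ / 2 ≤ Real.log ‖1 - (ρ : ℂ) * z‖ := by
  have h2 : ρ * ‖z - 1‖ ^ 2 ≤ ‖1 - (ρ : ℂ) * z‖ ^ 2 := by
    have e0 : z.re * z.re + z.im * z.im = 1 := by
      have h3 := Complex.normSq_eq_norm_sq z
      rw [hz, Complex.normSq_apply] at h3
      linarith
    rw [← Complex.normSq_eq_norm_sq, ← Complex.normSq_eq_norm_sq, Complex.normSq_apply,
      Complex.normSq_apply]
    simp only [Complex.sub_re, Complex.sub_im, Complex.one_re, Complex.one_im, Complex.mul_re,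
      Complex.mul_im, Complex.ofReal_re, Complex.ofReal_im]
    nlinarith [sq_nonneg (1 - ρ), e0]
  have hn : 0 < ‖z - 1‖ := norm_pos_iff.2 h1
  have h3 : 0 < ρ * ‖z - 1‖ ^ 2 := by positivity
  have h4 := Real.log_le_log h3 h2
  rw [Real.log_mul h0.ne' (by positivity), Real.log_pow, Real.log_pow] at h4
  push_cast at h4
  linarith

private theorem la4_monic (K : ℕ) (a : ℕ → ℕ) (ha1 : ∀ i < K, 1 ≤ a i) :
    (∏ i ∈ range K, ((Polynomial.X : Polynomial ℤ) ^ a i - 1)).Monic := by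
  refine Polynomial.monic_prod_of_monic _ _ fun i hi => ?_
  have h1 := ha1 i (mem_range.1 hi)
  have h2 := Polynomial.monic_X_pow_sub_C (1 : ℤ) (n := a i) (by omega)
  rwa [Polynomial.C_1] at h2

private theorem la4_eval (K : ℕ) (a : ℕ → ℕ) (z : ℂ) :
    (cx (∏ i ∈ range K, ((Polynomial.X : Polynomial ℤ) ^ a i - 1))).eval z =
      ∏ i ∈ range K, (z ^ a i - 1) := by
  unfold cx
  rw [Polynomial.map_prod, Polynomial.eval_prod]
  apply prod_congr rfl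
  intro i _
  simp

private theorem la4_MM (K : ℕ) (a : ℕ → ℕ) (ha1 : ∀ i < K, 1 ≤ a i) :
    MM (∏ i ∈ range K, ((Polynomial.X : Polynomial ℤ) ^ a i - 1)) = 1 := by
  have hm := la4_monic K a ha1
  have hmc : (cx (∏ i ∈ range K, ((Polynomial.X : Polynomial ℤ) ^ a i - 1))).Monic := hm.map _
  unfold MM
  rw [Polynomial.mahlerMeasure_eq_leadingCoeff_mul_prod_roots, hmc.leadingCoeff, norm_one, one_mul]
  apply Multiset.prod_eq_one
  intro x hx
  rw [Multiset.mem_map] at hx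
  obtain ⟨z, hz, rfl⟩ := hx
  have h1 := (Polynomial.mem_roots hmc.ne_zero).1 hz
  rw [Polynomial.IsRoot.def, la4_eval, prod_eq_zero_iff] at h1
  obtain ⟨i, hi, h2⟩ := h1
  have h3 := ha1 i (mem_range.1 hi)
  have h4 : z ^ a i = 1 := sub_eq_zero.1 h2
  have h5 : ‖z‖ = 1 := Complex.norm_eq_one_of_pow_eq_one h4 (by omega)
  rw [h5, max_self]

private theorem la4_ae (P : Polynomial ℂ) (hP : P ≠ 0) : ∀ᵐ θ ∂mu, P.eval (zz θ) ≠ 0 := by
  have h1 : ∀ z ∈ P.roots.toFinset, ∀ᵐ θ ∂mu, zz θ ≠ z := by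
    intro z _
    by_cases hz : z = 0
    · exact Filter.Eventually.of_forall fun θ => hz ▸ zz_ne θ
    · filter_upwards [lin_ne_ae z⁻¹] with θ hθ h2
      apply hθ
      rw [h2, inv_mul_cancel₀ hz, sub_self]
  have h2 := (Filter.eventually_all_finset P.roots.toFinset).2 h1
  filter_upwards [h2] with θ hθ h3
  exact hθ (zz θ) (by rw [Multiset.mem_toFinset, Polynomial.mem_roots hP]; exact h3) rfl

theorem lac_lp (K : ℕ) (a : ℕ → ℕ) (ha1 : ∀ i < K, 1 ≤ a i)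
    (ha : ∀ i, i + 1 < K → 2 * a i ≤ a (i + 1)) :
    lp (∏ i ∈ range K, (Polynomial.X ^ a i - 1)) ≤ (√(6 * K) + 1) / 2 := by
  have hpi := Real.pi_pos
  rcases Nat.eq_zero_or_pos K with rfl | hK
  · rw [la4_lp_eq]
    have h1 : ∀ θ, Real.posLog ‖(cx (∏ i ∈ range 0, ((Polynomial.X : Polynomial ℤ) ^ a i - 1))).eval
        (zz θ)‖ = 0 := by
      intro θ
      rw [la4_eval, range_zero, prod_empty, norm_one]
      simp [Real.posLog_apply]
    simp_rw [h1]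
    rw [integral_zero, mul_zero]
    positivity
  have hKR : (0 : ℝ) < K := by exact_mod_cast hK
  obtain ⟨g, hg⟩ : ∃ g : Polynomial ℤ, g = ∏ i ∈ range K, ((Polynomial.X : Polynomial ℤ) ^ a i - 1) :=
    ⟨_, rfl⟩
  rw [← hg]
  have hgm : g.Monic := by rw [hg]; exact la4_monic K a ha1
  have hgM : MM g = 1 := by rw [hg]; exact la4_MM K a ha1
  have hgc : cx g ≠ 0 := by
    have h1 : (cx g).Monic := hgm.map _
    exact h1.ne_zero
  have hge : ∀ z, (cx g).eval z = ∏ i ∈ range K, (z ^ a i - 1) := by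
    intro z
    rw [hg]
    exact la4_eval K a z
  obtain ⟨ρ, hρ⟩ : ∃ ρ : ℝ, ρ = Real.exp (-(1 / K)) := ⟨_, rfl⟩
  have hρ0 : 0 < ρ := by rw [hρ]; exact Real.exp_pos _
  have hρ1 : ρ < 1 := by
    rw [hρ, Real.exp_lt_one_iff]
    have : 0 < 1 / (K : ℝ) := by positivity
    linarith
  have hρl : Real.log ρ = -(1 / K) := by rw [hρ, Real.log_exp]
  obtain ⟨u, hu⟩ : ∃ u : ℝ → ℝ, u = fun θ => Real.log ‖(cx g).eval (zz θ)‖ := ⟨_, rfl⟩
  obtain ⟨v, hv⟩ : ∃ v : ℝ → ℝ, v = fun θ => ∑ i ∈ range K, Real.log ‖1 - (ρ : ℂ) * zz θ ^ a i‖ :=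
    ⟨_, rfl⟩
  have huI : Integrable u mu := by
    rw [hu]
    exact log_eval_integrable (cx g)
  have hne : ∀ (i : ℕ) (θ : ℝ), 1 - (ρ : ℂ) * zz θ ^ a i ≠ 0 := by
    intro i θ h3
    have h4 : (1 : ℂ) = (ρ : ℂ) * zz θ ^ a i := sub_eq_zero.1 h3
    have h6 := congrArg norm h4
    rw [norm_one, norm_mul, norm_pow, Complex.norm_real, Real.norm_of_nonneg hρ0.le, norm_zz,
      one_pow, mul_one] at h6
    linarith
  have hvi : ∀ i, Integrable (fun θ => Real.log ‖1 - (ρ : ℂ) * zz θ ^ a i‖) mu := by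
    intro i
    have hc : Continuous fun θ => Real.log ‖1 - (ρ : ℂ) * zz θ ^ a i‖ := by
      refine Continuous.log ?_ fun θ => norm_ne_zero_iff.2 (hne i θ)
      exact (continuous_const.sub (continuous_const.mul (zz_continuous.pow _))).norm
    unfold mu
    exact (hc.continuousOn.integrableOn_Icc).mono_set Set.Ioc_subset_Icc_self
  have hvI : Integrable v mu := by
    rw [hv]
    exact integrable_finsetSum _ fun i _ => hvi i
  have hu0 : ∫ θ, u θ ∂mu = 0 := by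
    rw [hu, log_integral g hgm.ne_zero, hgM, Real.log_one, mul_zero]
  have hv0 : ∫ θ, v θ ∂mu = 0 := by
    rw [hv, integral_finsetSum _ fun i _ => hvi i]
    exact sum_eq_zero fun i hi => la4_int0 (a i) (ha1 i (mem_range.1 hi)) ρ hρ0.le hρ1
  have hae : ∀ᵐ θ ∂mu, |u θ| ≤ |v θ| + (v θ - u θ) + 1 := by
    filter_upwards [la4_ae (cx g) hgc] with θ hθ
    have h1 : ∀ i ∈ range K, zz θ ^ a i - 1 ≠ 0 := by
      rw [hge] at hθ
      exact prod_ne_zero_iff.1 hθ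
    have h2 : u θ = ∑ i ∈ range K, Real.log ‖zz θ ^ a i - 1‖ := by
      rw [hu]
      simp only
      rw [hge, norm_prod, Real.log_prod]
      intro i hi
      exact norm_ne_zero_iff.2 (h1 i hi)
    have h3 : u θ - 1 / 2 ≤ v θ := by
      have h4 : ∑ i ∈ range K, (Real.log ‖zz θ ^ a i - 1‖ + Real.log ρ / 2) ≤ v θ := by
        rw [hv]
        refine sum_le_sum fun i hi => ?_
        refine la4_pt (zz θ ^ a i) ?_ ρ hρ0 (h1 i hi)
        rw [norm_pow, norm_zz, one_pow]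
      rw [sum_add_distrib, ← h2, sum_const, card_range, nsmul_eq_mul, hρl] at h4
      have h5 : (K : ℝ) * (-(1 / K) / 2) = -(1 / 2) := by field_simp
      rw [h5] at h4
      linarith
    have h6 : |v θ - u θ| ≤ (v θ - u θ) + 1 := by
      rw [abs_le]
      constructor <;> linarith
    have h7 : |u θ| ≤ |v θ| + |v θ - u θ| := by
      have h8 := abs_sub (v θ) (v θ - u θ)
      rwa [sub_sub_cancel] at h8
    linarith
  have h1 : ∫ θ, |u θ| ∂mu ≤ ∫ θ, (|v θ| + (v θ - u θ) + 1) ∂mu :=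
    integral_mono_ae huI.abs ((hvI.abs.add (hvI.sub huI)).add (integrable_const _)) hae
  have h2 : ∫ θ, (|v θ| + (v θ - u θ) + 1) ∂mu = ∫ θ, |v θ| ∂mu + 2 * Real.pi := by
    have e1 : ∫ θ, (|v θ| + (v θ - u θ) + 1) ∂mu =
        ∫ θ, (|v θ| + (v θ - u θ)) ∂mu + ∫ _, (1 : ℝ) ∂mu :=
      integral_add (hvI.abs.add (hvI.sub huI)) (integrable_const _)
    have e2 : ∫ θ, (|v θ| + (v θ - u θ)) ∂mu = ∫ θ, |v θ| ∂mu + ∫ θ, (v θ - u θ) ∂mu :=
      integral_add hvI.abs (hvI.sub huI)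
    have e3 : ∫ θ, (v θ - u θ) ∂mu = ∫ θ, v θ ∂mu - ∫ θ, u θ ∂mu := integral_sub hvI huI
    rw [e1, e2, e3, hu0, hv0, integral_const, mu_real_univ, smul_eq_mul]
    ring
  have h3 : ∫ θ, |v θ| ∂mu ≤ 2 * Real.pi * √(6 * K) := by
    rw [hv]
    exact lac_l1 K a ha1 ha ρ hρ0.le hρ1
  have h4 : ∫ θ, Real.posLog ‖(cx g).eval (zz θ)‖ ∂mu = (∫ θ, |u θ| ∂mu) / 2 := by
    have e1 : ∀ θ, Real.posLog ‖(cx g).eval (zz θ)‖ = (|u θ| + u θ) * (1 / 2) := by
      intro θ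
      rw [Real.posLog_apply, hu]
      simp only
      rcases le_total 0 (Real.log ‖(cx g).eval (zz θ)‖) with h | h
      · rw [abs_of_nonneg h, max_eq_right h]
        ring
      · rw [abs_of_nonpos h, max_eq_left h]
        ring
    simp_rw [e1]
    rw [integral_mul_const, integral_add huI.abs huI, hu0]
    ring
  rw [la4_lp_eq, h4]
  have h5 : ∫ θ, |u θ| ∂mu ≤ 2 * Real.pi * (√(6 * K) + 1) := by
    rw [h2] at h1
    linarith
  calc (2 * Real.pi)⁻¹ * ((∫ θ, |u θ| ∂mu) / 2)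
      ≤ (2 * Real.pi)⁻¹ * ((2 * Real.pi * (√(6 * K) + 1)) / 2) := by
        refine mul_le_mul_of_nonneg_left ?_ (by positivity)
        linarith
    _ = (√(6 * K) + 1) / 2 := by
        field_simp

end Pool.Agent.Lib.MP_7ab245_nt.QC
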