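import Pool.Agent.Lib.MP_7ab245_nt.QC.Gap2

/-!
The products of the polynomials `X ^ m - 1`: for height at most `n` and Mahler measure one there are at
least `exp (c log (2 n) ^ 2)` polynomials of degree at most `n`.
-/

set_option autoImplicit false

open Polynomial Finset

namespace Pool.Agent.Lib.MP_7ab245_nt.QC

open Pool.Agent.Lib.MP_7ab245_nt Pool.Agent.Lib.MP_7ab245_nt.Cnt3

private theorem low_aeval (m : ℕ) (z : ℂ) : aeval (z ^ m) (X - 1 : ℤ[X]) = z ^ m - 1 := by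
  simp

theorem low_ne : (X - 1 : ℤ[X]) ≠ 0 := by
  have := X_sub_C_ne_zero (1 : ℤ)
  rwa [C_1] at this

private theorem low_dvd {s s' : Multiset ℕ} (hs : ∀ m ∈ s, 0 < m)
    (he : PS (X - 1) s = PS (X - 1) s') : ∀ m ∈ s, ∃ m' ∈ s', m ∣ m' := by
  intro m hm
  have hm0 := hs m hm
  have hz := Complex.isPrimitiveRoot_exp m hm0.ne'
  have h1 : aeval (Complex.exp (2 * Real.pi * Complex.I / m)) (PS (X - 1) s) = 0 := by
    rw [PS_root]
    refine ⟨m, hm, ?_⟩
    rw [low_aeval, hz.pow_eq_one, sub_self]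
  rw [he, PS_root] at h1
  obtain ⟨m', hm', h2⟩ := h1
  rw [low_aeval, sub_eq_zero] at h2
  exact ⟨m', hm', (hz.pow_eq_one_iff_dvd m').1 h2⟩

private theorem low_max (s : Multiset ℕ) (hs : s ≠ 0) : ∃ m ∈ s, ∀ x ∈ s, x ≤ m := by
  have h1 : s.toFinset.Nonempty := by
    rw [Multiset.toFinset_nonempty]
    exact hs
  obtain ⟨m, hm, h2⟩ := s.toFinset.exists_max_image id h1
  exact ⟨m, Multiset.mem_toFinset.1 hm, fun x hx => h2 x (Multiset.mem_toFinset.2 hx)⟩

theorem low_inj (k : ℕ) : ∀ s s' : Multiset ℕ, Multiset.card s = k →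
    (∀ m ∈ s, 0 < m) → (∀ m ∈ s', 0 < m) → PS (X - 1) s = PS (X - 1) s' → s = s' := by
  induction k with
  | zero =>
    intro s s' hk hs hs' he
    rw [Multiset.card_eq_zero] at hk
    subst hk
    symm
    rw [Multiset.eq_zero_iff_forall_notMem]
    intro m hm
    obtain ⟨m', hm', -⟩ := low_dvd hs' he.symm m hm
    exact Multiset.notMem_zero m' hm'
  | succ k ih =>
    intro s s' hk hs hs' he
    have hs0 : s ≠ 0 := by
      rintro rfl
      simp at hk
    obtain ⟨m, hm, hmax⟩ := low_max s hs0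
    obtain ⟨m₁, hm₁, hd₁⟩ := low_dvd hs he m hm
    have hs0' : s' ≠ 0 := by
      rintro rfl
      exact Multiset.notMem_zero m₁ hm₁
    obtain ⟨m', hm', hmax'⟩ := low_max s' hs0'
    obtain ⟨m₂, hm₂, hd₂⟩ := low_dvd hs' he.symm m' hm'
    have h1 : m ≤ m' := (Nat.le_of_dvd (hs' m₁ hm₁) hd₁).trans (hmax' m₁ hm₁)
    have h2 : m' ≤ m := (Nat.le_of_dvd (hs m₂ hm₂) hd₂).trans (hmax m₂ hm₂)
    have h3 : m' = m := le_antisymm h2 h1
    rw [h3] at hm'
    obtain ⟨t, rfl⟩ := Multiset.exists_cons_of_mem hm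
    obtain ⟨t', rfl⟩ := Multiset.exists_cons_of_mem hm'
    rw [PS_cons, PS_cons] at he
    have h4 := mul_left_cancel₀ (expand_ne low_ne (hs m hm)) he
    rw [Multiset.card_cons] at hk
    rw [ih t t' (by omega) (fun x hx => hs x (Multiset.mem_cons_of_mem hx))
      (fun x hx => hs' x (Multiset.mem_cons_of_mem hx)) h4]

private def low_ms {L K : ℕ} (s : Sym (Fin L) K) : Multiset ℕ :=
  Multiset.map (fun i : Fin L => i.val + 1) s.1

private theorem low_ms_inj {L K : ℕ} {s s' : Sym (Fin L) K} (h : low_ms s = low_ms s') : s = s' := by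
  have h1 : Function.Injective fun i : Fin L => i.val + 1 := fun i j hij => by
    simp only at hij
    exact Fin.ext (by omega)
  exact Subtype.ext (Multiset.map_injective h1 h)

private theorem low_len : len (X - 1 : ℤ[X]) ≤ 2 := by
  have h1 := len_add (X : ℤ[X]) (-1)
  have h2 : len (X : ℤ[X]) ≤ 1 := by
    have := len_eq (g := (X : ℤ[X])) (s := {1}) (by
      intro i hi
      rw [mem_support_iff, coeff_X] at hi
      rw [Finset.mem_singleton]
      by_contra hcon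
      exact hi (if_neg fun h => hcon h.symm))
    rw [this, Finset.sum_singleton, coeff_X_one]
    rfl
  have h3 : len (-1 : ℤ[X]) ≤ 1 := by
    have := len_eq (g := (-1 : ℤ[X])) (s := {0}) (by
      intro i hi
      rw [mem_support_iff, coeff_neg, coeff_one] at hi
      rw [Finset.mem_singleton]
      by_contra hcon
      rw [if_neg hcon] at hi
      exact hi neg_zero)
    rw [this, Finset.sum_singleton, coeff_neg, coeff_one_zero]
    rfl
  rw [sub_eq_add_neg]
  omega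

private theorem low_card (K L n : ℕ) (hn : L * K ≤ n) (hH : 2 ^ K ≤ n) :
    (L + K - 1).choose K ≤ {g : ℤ[X] | g ≠ 0 ∧ g.natDegree ≤ n ∧ (∀ i, |g.coeff i| ≤ (n : ℤ)) ∧
      (g.map (Int.castRingHom ℂ)).mahlerMeasure ≤ 1}.ncard := by
  classical
  have hfin : {g : ℤ[X] | g ≠ 0 ∧ g.natDegree ≤ n ∧ (∀ i, |g.coeff i| ≤ (n : ℤ)) ∧
      (g.map (Int.castRingHom ℂ)).mahlerMeasure ≤ 1}.Finite :=
    (fin_set n 1).subset fun g hg => ⟨hg.2.1, hg.2.2.2⟩
  have hpos : ∀ s : Sym (Fin L) K, ∀ m ∈ low_ms s, 0 < m := by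
    intro s m hm
    obtain ⟨i, -, rfl⟩ := Multiset.mem_map.1 hm
    omega
  have hle : ∀ s : Sym (Fin L) K, ∀ m ∈ low_ms s, m ≤ L := by
    intro s m hm
    obtain ⟨i, -, rfl⟩ := Multiset.mem_map.1 hm
    exact i.2
  have hc : ∀ s : Sym (Fin L) K, Multiset.card (low_ms s) = K := by
    intro s
    unfold low_ms
    rw [Multiset.card_map]
    exact s.2
  have h1 : (Finset.univ.image fun s : Sym (Fin L) K => PS (X - 1) (low_ms s)).card =
      (L + K - 1).choose K := by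
    rw [Finset.card_image_of_injective, Finset.card_univ, Sym.card_sym_eq_choose, Fintype.card_fin]
    intro s s' he
    exact low_ms_inj (low_inj K _ _ (hc s) (hpos s) (hpos s') he)
  rw [← h1, ← Set.ncard_coe_finset]
  refine Set.ncard_le_ncard ?_ hfin
  intro P hP
  rw [Finset.mem_coe, Finset.mem_image] at hP
  obtain ⟨s, -, rfl⟩ := hP
  refine ⟨PS_ne low_ne _ (hpos s), ?_, ?_, ?_⟩
  · have := PS_deg (g := (X - 1 : ℤ[X])) L (low_ms s) (hle s)
    have hd : (X - 1 : ℤ[X]).natDegree = 1 := by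
      have := natDegree_X_sub_C (1 : ℤ)
      rwa [C_1] at this
    rw [hc, hd, one_mul] at this
    exact this.trans hn
  · intro i
    have h2 := coeff_le_len (PS (X - 1) (low_ms s)) i
    have h3 := PS_len (g := (X - 1 : ℤ[X])) (low_ms s) (hpos s)
    rw [hc] at h3
    have h4 : len (X - 1 : ℤ[X]) ^ K ≤ 2 ^ K := Nat.pow_le_pow_left low_len K
    have h5 : ((PS (X - 1) (low_ms s)).coeff i).natAbs ≤ n := h2.trans (h3.trans (h4.trans hH))
    rw [Int.abs_eq_natAbs]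
    exact_mod_cast h5
  · have h2 := PS_MM (g := (X - 1 : ℤ[X])) (low_ms s) (hpos s)
    have h3 : Pool.Agent.Lib.MP_7ab245_nt.MM (X - 1 : ℤ[X]) = 1 := by
      unfold Pool.Agent.Lib.MP_7ab245_nt.MM
      rw [Polynomial.map_sub, Polynomial.map_X, Polynomial.map_one]
      have h := mahlerMeasure_X_sub_C (1 : ℂ)
      rw [C_1] at h
      rw [h]
      simp
    rw [h3, one_pow] at h2
    exact h2.le

private theorem low_pow (K : ℕ) : 2 ^ (K ^ 2) ≤ (2 ^ (2 * K) + K - 1).choose K := by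
  rcases Nat.eq_zero_or_pos K with hK | hK
  · subst hK
    simp
  have h5 := Nat.pow_sub_le_descFactorial (2 ^ (2 * K) + K - 1) K
  rw [Nat.descFactorial_eq_factorial_mul_choose] at h5
  have h6 : 2 ^ (2 * K) + K - 1 + 1 - K = 2 ^ (2 * K) := by
    generalize 2 ^ (2 * K) = q
    omega
  rw [h6] at h5
  have h7 : K.factorial ≤ (2 ^ K) ^ K :=
    (Nat.factorial_le_pow K).trans (Nat.pow_le_pow_left Nat.lt_two_pow_self.le K)
  have h8 : (2 ^ (2 * K)) ^ K = (2 ^ K) ^ K * 2 ^ (K ^ 2) := by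
    rw [← pow_mul, ← pow_mul, ← pow_add]
    congr 1
    ring
  rw [h8] at h5
  have h9 : (2 ^ K) ^ K * 2 ^ (K ^ 2) ≤ (2 ^ K) ^ K * (2 ^ (2 * K) + K - 1).choose K :=
    h5.trans (Nat.mul_le_mul_right _ h7)
  exact Nat.le_of_mul_le_mul_left h9 (by positivity)

theorem low (n : ℕ) (hn : 1 ≤ n) : Real.exp (1 / 81 * Real.log (2 * n) ^ 2) ≤
    ({g : ℤ[X] | g ≠ 0 ∧ g.natDegree ≤ n ∧ (∀ i, |g.coeff i| ≤ (n : ℤ)) ∧
      (g.map (Int.castRingHom ℂ)).mahlerMeasure ≤ 1}.ncard : ℝ) := by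
  classical
  have hnR : (1 : ℝ) ≤ n := by exact_mod_cast hn
  have hfin : {g : ℤ[X] | g ≠ 0 ∧ g.natDegree ≤ n ∧ (∀ i, |g.coeff i| ≤ (n : ℤ)) ∧
      (g.map (Int.castRingHom ℂ)).mahlerMeasure ≤ 1}.Finite :=
    (fin_set n 1).subset fun g hg => ⟨hg.2.1, hg.2.2.2⟩
  obtain ⟨K, hK⟩ : ∃ K : ℕ, K = Nat.log 2 n / 4 := ⟨_, rfl⟩
  have hpl : 2 ^ (Nat.log 2 n) ≤ n := Nat.pow_log_le_self 2 (by omega)
  have hlp : n < 2 ^ (Nat.log 2 n + 1) := Nat.lt_pow_succ_log_self one_lt_two n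
  have hlog0 : 0 ≤ Real.log (2 * n) := Real.log_nonneg (by linarith)
  have hl2 : 0 < Real.log 2 := Real.log_pos one_lt_two
  have hl2' : Real.log 2 < 7 / 10 := by
    have := Real.log_two_lt_d9
    linarith
  have hup : Real.log (2 * n) ≤ (4 * K + 5) * Real.log 2 := by
    have h1 : (n : ℝ) ≤ 2 ^ (4 * K + 4) := by
      have h2 : n ≤ 2 ^ (4 * K + 4) := by
        refine hlp.le.trans (Nat.pow_le_pow_right two_pos ?_)
        omega
      exact_mod_cast h2
    have h3 : (2 * n : ℝ) ≤ 2 ^ (4 * K + 5) := by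
      calc (2 * n : ℝ) ≤ 2 * 2 ^ (4 * K + 4) := by linarith
        _ = 2 ^ (4 * K + 5) := by rw [pow_succ 2 (4 * K + 4)]; ring
    have h4 := Real.log_le_log (by linarith) h3
    rw [Real.log_pow] at h4
    push_cast at h4
    exact h4
  rcases Nat.eq_zero_or_pos K with hK0 | hK0
  · -- the polynomials 1 and -1
    have h1 : ({1, -1} : Set ℤ[X]) ⊆ {g : ℤ[X] | g ≠ 0 ∧ g.natDegree ≤ n ∧
        (∀ i, |g.coeff i| ≤ (n : ℤ)) ∧ (g.map (Int.castRingHom ℂ)).mahlerMeasure ≤ 1} := by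
      have hone : ∀ i, |(1 : ℤ[X]).coeff i| ≤ (n : ℤ) := by
        intro i
        rw [coeff_one]
        split_ifs
        · rw [abs_one]; exact_mod_cast hn
        · rw [abs_zero]; positivity
      rintro g (rfl | rfl)
      · refine ⟨one_ne_zero, by rw [natDegree_one]; exact Nat.zero_le _, hone, ?_⟩
        rw [Polynomial.map_one, mahlerMeasure_one]
      · refine ⟨neg_ne_zero.2 one_ne_zero, by rw [natDegree_neg, natDegree_one]; exact Nat.zero_le _,
          fun i => by rw [coeff_neg, abs_neg]; exact hone i, ?_⟩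
        exact (MM_neg_one).le
    have h2 := Set.ncard_le_ncard h1 hfin
    have h3 : ({1, -1} : Set ℤ[X]).ncard = 2 := by
      rw [Set.ncard_pair]
      intro h
      have := congrArg (fun p => p.coeff 0) h
      simp only [coeff_neg, coeff_one_zero] at this
      omega
    rw [h3] at h2
    have h4 : (2 : ℝ) ≤ ({g : ℤ[X] | g ≠ 0 ∧ g.natDegree ≤ n ∧ (∀ i, |g.coeff i| ≤ (n : ℤ)) ∧
      (g.map (Int.castRingHom ℂ)).mahlerMeasure ≤ 1}.ncard : ℝ) := by exact_mod_cast h2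
    refine le_trans ?_ h4
    rw [← Real.le_log_iff_exp_le (by norm_num)]
    rw [hK0] at hup
    push_cast at hup
    have h5 : Real.log (2 * n) ^ 2 ≤ (5 * Real.log 2) ^ 2 :=
      pow_le_pow_left₀ hlog0 (by linarith) 2
    nlinarith
  · have h1 : 2 ^ (2 * K) * K ≤ n := by
      calc 2 ^ (2 * K) * K ≤ 2 ^ (2 * K) * 2 ^ K := Nat.mul_le_mul_left _ Nat.lt_two_pow_self.le
        _ = 2 ^ (3 * K) := by rw [← pow_add]; congr 1; ring
        _ ≤ 2 ^ (Nat.log 2 n) := Nat.pow_le_pow_right two_pos (by omega)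
        _ ≤ n := hpl
    have h2 : 2 ^ K ≤ n := (Nat.pow_le_pow_right two_pos (by omega)).trans hpl
    have h3 := (low_pow K).trans (low_card K (2 ^ (2 * K)) n h1 h2)
    have h4 : ((2 : ℝ) ^ (K ^ 2)) ≤ ({g : ℤ[X] | g ≠ 0 ∧ g.natDegree ≤ n ∧
        (∀ i, |g.coeff i| ≤ (n : ℤ)) ∧ (g.map (Int.castRingHom ℂ)).mahlerMeasure ≤ 1}.ncard : ℝ) := by
      exact_mod_cast h3
    refine le_trans ?_ h4
    rw [← Real.le_log_iff_exp_le (by positivity), Real.log_pow]
    push_cast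
    have hKR : (1 : ℝ) ≤ K := by exact_mod_cast hK0
    have h5 : Real.log (2 * n) ≤ 9 * K * Real.log 2 := by
      refine hup.trans (mul_le_mul_of_nonneg_right (by linarith) hl2.le)
    have h6 : Real.log (2 * n) ^ 2 ≤ (9 * K * Real.log 2) ^ 2 := pow_le_pow_left₀ hlog0 h5 2
    have h7 : (9 * K * Real.log 2) ^ 2 = 81 * ((K : ℝ) ^ 2 * Real.log 2 * Real.log 2) := by ring
    have h8 : (K : ℝ) ^ 2 * Real.log 2 * Real.log 2 ≤ (K : ℝ) ^ 2 * Real.log 2 * 1 :=
      mul_le_mul_of_nonneg_left (by linarith) (by positivity)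
    linarith

end Pool.Agent.Lib.MP_7ab245_nt.QC
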