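import Pool.Agent.Lib.MP_7ab245_nt.QC.La4
import Pool.Agent.Lib.MP_7ab245_nt.QC.Low

/-!
QC-La5.
Many polynomials with `M = 1` and small mean of `log⁺`.
-/

set_option autoImplicit false

open Polynomial Finset

namespace Pool.Agent.Lib.MP_7ab245_nt.QC

open Pool.Agent.Lib.MP_7ab245_nt Pool.Agent.Lib.MP_7ab245_nt.Cnt3

/-- the exponents -/
private def la5A (q R : ℕ) (t : Fin (2 * q) → Fin (R ^ (2 * q))) (i : ℕ) : ℕ :=
  R ^ (2 * q + i) + (if h : i < 2 * q then (t ⟨i, h⟩ : ℕ) else 0)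

private theorem la5A_ge (q R : ℕ) (t : Fin (2 * q) → Fin (R ^ (2 * q))) (i : ℕ) :
    R ^ (2 * q + i) ≤ la5A q R t i := Nat.le_add_right _ _

private theorem la5A_lt (q R : ℕ) (hR : 4 ≤ R) (t : Fin (2 * q) → Fin (R ^ (2 * q))) (i : ℕ) :
    la5A q R t i < 2 * R ^ (2 * q + i) := by
  unfold la5A
  have h1 : 0 < R ^ (2 * q + i) := Nat.pow_pos (by omega)
  have h2 : R ^ (2 * q) ≤ R ^ (2 * q + i) := Nat.pow_le_pow_right (by omega) (by omega)
  split_ifs with h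
  · have h3 := (t ⟨i, h⟩).2
    omega
  · omega

private theorem la5A_lt' (q R : ℕ) (hR : 4 ≤ R) (t : Fin (2 * q) → Fin (R ^ (2 * q))) {i j : ℕ}
    (hij : i < j) (t' : Fin (2 * q) → Fin (R ^ (2 * q))) :
    2 * la5A q R t i ≤ la5A q R t' j := by
  have h1 := la5A_lt q R hR t i
  have h2 := la5A_ge q R t' j
  have h3 : R ^ (2 * q + i) * 4 ≤ R ^ (2 * q + j) := by
    calc R ^ (2 * q + i) * 4 ≤ R ^ (2 * q + i) * R := Nat.mul_le_mul_left _ hR
      _ = R ^ (2 * q + i + 1) := (pow_succ _ _).symm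
      _ ≤ R ^ (2 * q + j) := Nat.pow_le_pow_right (by omega) (by omega)
  omega

private theorem la5A_pos (q R : ℕ) (hR : 4 ≤ R) (t : Fin (2 * q) → Fin (R ^ (2 * q))) (i : ℕ) :
    0 < la5A q R t i := by
  have h1 : 0 < R ^ (2 * q + i) := Nat.pow_pos (by omega)
  have h2 := la5A_ge q R t i
  omega

private theorem la5A_le (q R : ℕ) (hR : 4 ≤ R) (t : Fin (2 * q) → Fin (R ^ (2 * q))) (i : ℕ)
    (hi : i < 2 * q) : la5A q R t i ≤ R ^ (4 * q) := by
  have h1 := la5A_lt q R hR t i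
  have h3 : R ^ (2 * q + i) * 4 ≤ R ^ (4 * q) := by
    calc R ^ (2 * q + i) * 4 ≤ R ^ (2 * q + i) * R := Nat.mul_le_mul_left _ hR
      _ = R ^ (2 * q + i + 1) := (pow_succ _ _).symm
      _ ≤ R ^ (4 * q) := Nat.pow_le_pow_right (by omega) (by omega)
  omega

/-- the multiset of the exponents -/
private def la5S (q R : ℕ) (t : Fin (2 * q) → Fin (R ^ (2 * q))) : Multiset ℕ :=
  (range (2 * q)).val.map (la5A q R t)

private theorem la5S_mem (q R : ℕ) (t : Fin (2 * q) → Fin (R ^ (2 * q))) (m : ℕ) :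
    m ∈ la5S q R t ↔ ∃ i < 2 * q, la5A q R t i = m := by
  unfold la5S
  rw [Multiset.mem_map]
  constructor
  · rintro ⟨i, hi, h⟩
    exact ⟨i, Finset.mem_range.1 hi, h⟩
  · rintro ⟨i, hi, h⟩
    exact ⟨i, Finset.mem_range.2 hi, h⟩

private theorem la5S_card (q R : ℕ) (t : Fin (2 * q) → Fin (R ^ (2 * q))) :
    Multiset.card (la5S q R t) = 2 * q := by
  unfold la5S
  rw [Multiset.card_map]
  exact Finset.card_range _

private theorem la5S_inj (q R : ℕ) (hR : 4 ≤ R) {t t' : Fin (2 * q) → Fin (R ^ (2 * q))}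
    (h : la5S q R t = la5S q R t') : t = t' := by
  funext i
  have h1 : la5A q R t i ∈ la5S q R t := (la5S_mem q R t _).2 ⟨i, i.2, rfl⟩
  rw [h, la5S_mem] at h1
  obtain ⟨j, hj, h2⟩ := h1
  have h3 : j = i := by
    rcases lt_trichotomy j (i : ℕ) with h4 | h4 | h4
    · exfalso
      have h5 := la5A_lt' q R hR t' h4 t
      have h6 := la5A_pos q R hR t' j
      omega
    · exact h4
    · exfalso
      have h5 := la5A_lt' q R hR t h4 t'
      have h6 := la5A_pos q R hR t i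
      omega
  subst h3
  unfold la5A at h2
  rw [dif_pos i.2, dif_pos i.2] at h2
  exact Fin.ext (by have := Nat.add_left_cancel h2; exact this.symm)

private theorem la5_PS (q R : ℕ) (t : Fin (2 * q) → Fin (R ^ (2 * q))) :
    PS (X - 1) (la5S q R t) = ∏ i ∈ range (2 * q), (X ^ la5A q R t i - 1) := by
  unfold PS la5S
  rw [Multiset.map_map]
  show ((range (2 * q)).val.map _).prod = ((range (2 * q)).val.map _).prod
  congr 1
  apply Multiset.map_congr rfl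
  intro i _
  simp

private theorem la5_card (q R n : ℕ) (hR : 4 ≤ R) (hn : 2 * q * R ^ (4 * q) ≤ n) :
    (R ^ (4 * q)) ^ q ≤ {g : ℤ[X] | g ≠ 0 ∧
    g.natDegree ≤ n ∧ (g.map (Int.castRingHom ℂ)).mahlerMeasure ≤ 1 ∧
    lp g ≤ √(3 * q) + 1 / 2}.ncard := by
  classical
  have hfin : {g : ℤ[X] | g ≠ 0 ∧
    g.natDegree ≤ n ∧ (g.map (Int.castRingHom ℂ)).mahlerMeasure ≤ 1 ∧
    lp g ≤ √(3 * q) + 1 / 2}.Finite :=
    (fin_set n 1).subset fun g hg => ⟨hg.2.1, hg.2.2.1⟩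
  have hpos : ∀ t : Fin (2 * q) → Fin (R ^ (2 * q)), ∀ m ∈ la5S q R t, 0 < m := by
    intro t m hm
    obtain ⟨i, -, rfl⟩ := (la5S_mem q R t m).1 hm
    exact la5A_pos q R hR t i
  have h1 : (Finset.univ.image fun t : Fin (2 * q) → Fin (R ^ (2 * q)) =>
      PS (X - 1) (la5S q R t)).card = (R ^ (4 * q)) ^ q := by
    rw [Finset.card_image_of_injective, Finset.card_univ, Fintype.card_fun, Fintype.card_fin,
      Fintype.card_fin, ← pow_mul, ← pow_mul]
    · congr 1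
      ring
    · intro t t' he
      exact la5S_inj q R hR (low_inj _ _ _ rfl (hpos t) (hpos t') he)
  rw [← h1, ← Set.ncard_coe_finset]
  refine Set.ncard_le_ncard ?_ hfin
  intro P hP
  rw [Finset.mem_coe, Finset.mem_image] at hP
  obtain ⟨t, -, rfl⟩ := hP
  refine ⟨PS_ne low_ne _ (hpos t), ?_, ?_, ?_⟩
  · have := PS_deg (g := (X - 1 : ℤ[X])) (R ^ (4 * q)) (la5S q R t) (by
      intro m hm
      obtain ⟨i, hi, rfl⟩ := (la5S_mem q R t m).1 hm
      exact la5A_le q R hR t i hi)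
    have hd : (X - 1 : ℤ[X]).natDegree = 1 := by
      have := natDegree_X_sub_C (1 : ℤ)
      rwa [C_1] at this
    rw [la5S_card, hd, one_mul, mul_comm] at this
    exact this.trans hn
  · have h2 := PS_MM (g := (X - 1 : ℤ[X])) (la5S q R t) (hpos t)
    have h3 : Pool.Agent.Lib.MP_7ab245_nt.MM (X - 1 : ℤ[X]) = 1 := by
      unfold Pool.Agent.Lib.MP_7ab245_nt.MM
      rw [Polynomial.map_sub, Polynomial.map_X, Polynomial.map_one]
      have h := mahlerMeasure_X_sub_C (1 : ℂ)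
      rw [C_1] at h
      rw [h]
      simp
    rw [h3, one_pow] at h2
    exact h2.le
  · show lp (PS (X - 1) (la5S q R t)) ≤ √(3 * q) + 1 / 2
    rw [la5_PS]
    have h2 := lac_lp (2 * q) (la5A q R t) (fun i _ => la5A_pos q R hR t i)
      (fun i _ => la5A_lt' q R hR t (Nat.lt_succ_self i) t)
    refine h2.trans (le_of_eq ?_)
    have h3 : √(6 * ((2 * q : ℕ) : ℝ)) = 2 * √(3 * q) := by
      have h4 : (6 * ((2 * q : ℕ) : ℝ)) = 2 ^ 2 * (3 * q) := by
        push_cast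
        ring
      rw [h4, Real.sqrt_mul (by norm_num), Real.sqrt_sq (by norm_num)]
    rw [h3]
    ring

private theorem la5_zero (n : ℕ) : 1 ≤ {g : ℤ[X] | g ≠ 0 ∧
    g.natDegree ≤ n ∧ (g.map (Int.castRingHom ℂ)).mahlerMeasure ≤ 1 ∧
    lp g ≤ √(3 * (0 : ℕ)) + 1 / 2}.ncard := by
  have h := la5_card 0 4 n le_rfl (by simp)
  simpa using h

theorem lac_count (q : ℕ) : ∃ B : ℕ, 0 < B ∧ ∀ n : ℕ, B ≤ n → n ^ q ≤ B * {g : ℤ[X] | g ≠ 0 ∧
    g.natDegree ≤ n ∧ (g.map (Int.castRingHom ℂ)).mahlerMeasure ≤ 1 ∧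
    lp g ≤ √(3 * q) + 1 / 2}.ncard := by
  rcases Nat.eq_zero_or_pos q with hq | hq
  · subst hq
    refine ⟨1, one_pos, fun n _ => ?_⟩
    rw [pow_zero, one_mul]
    exact la5_zero n
  · refine ⟨(4 * q * 2 ^ (4 * q)) ^ q + 4 * q * 4 ^ (4 * q), by positivity, fun n hn => ?_⟩
    have hP4 : 4 * q * 4 ^ (4 * q) ≤ n := (Nat.le_add_left _ _).trans hn
    have hq4 : ∀ R : ℕ, R ≤ 4 * q * R ^ (4 * q) := by
      intro R
      calc R = 1 * R := (one_mul R).symm
        _ ≤ 4 * q * R ^ (4 * q) := Nat.mul_le_mul (by omega) (Nat.le_self_pow (by omega) R)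
    have h4n : 4 ≤ n := (hq4 4).trans hP4
    obtain ⟨R, hRdef⟩ : ∃ R : ℕ, R = Nat.findGreatest (fun R => 4 * q * R ^ (4 * q) ≤ n) n := ⟨_, rfl⟩
    have hPR : 4 * q * R ^ (4 * q) ≤ n := by
      rw [hRdef]
      exact Nat.findGreatest_spec (P := fun R => 4 * q * R ^ (4 * q) ≤ n) h4n hP4
    have hR4 : 4 ≤ R := by
      rw [hRdef]
      exact Nat.le_findGreatest h4n hP4
    have hR1 : n < 4 * q * (R + 1) ^ (4 * q) := by
      by_contra hcon
      push Not at hcon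
      have h1 : R + 1 ≤ n := (hq4 (R + 1)).trans hcon
      have h2 : R + 1 ≤ Nat.findGreatest (fun R => 4 * q * R ^ (4 * q) ≤ n) n :=
        Nat.le_findGreatest h1 hcon
      omega
    have h1 : n ≤ 4 * q * 2 ^ (4 * q) * R ^ (4 * q) := by
      refine hR1.le.trans ?_
      rw [mul_assoc (4 * q), ← mul_pow]
      exact Nat.mul_le_mul_left _ (Nat.pow_le_pow_left (by omega) _)
    have h2 := la5_card q R n hR4 (by
      refine le_trans ?_ hPR
      exact Nat.mul_le_mul_right _ (by omega))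
    calc n ^ q ≤ (4 * q * 2 ^ (4 * q) * R ^ (4 * q)) ^ q := Nat.pow_le_pow_left h1 q
      _ = (4 * q * 2 ^ (4 * q)) ^ q * (R ^ (4 * q)) ^ q := by rw [mul_pow]
      _ ≤ ((4 * q * 2 ^ (4 * q)) ^ q + 4 * q * 4 ^ (4 * q)) * (R ^ (4 * q)) ^ q :=
        Nat.mul_le_mul_right _ (Nat.le_add_right _ _)
      _ ≤ _ := Nat.mul_le_mul_left _ h2

end Pool.Agent.Lib.MP_7ab245_nt.QC
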