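import Pool.Agent.Lib.MP_7ab245_nt.QC.Lp

/-!
QC-Lp2: the mean of `log⁺ |f|` is at most the logarithm of the maximum.
-/

set_option autoImplicit false

open Finset MeasureTheory

namespace Pool.Agent.Lib.MP_7ab245_nt.QC

open Pool.Agent.Lib.MP_7ab245_nt.LogVar Pool.Agent.Lib.MP_7ab245_nt.Cnt
open Pool.Agent.Lib.MP_7ab245_nt.Mono

theorem lp_le_log (f : Polynomial ℤ) (B : ℝ) (hB : 1 ≤ B)
    (h : ∀ z : ℂ, ‖z‖ = 1 → ‖(cx f).eval z‖ ≤ B) : lp f ≤ Real.log B := by
  unfold lp
  refine Real.circleAverage_mono_on_of_le_circle ?_ ?_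
  · exact (Real.continuous_posLog.comp (cx f).continuous.norm).continuousOn.circleIntegrable
      zero_le_one
  · intro z hz
    rw [abs_one, mem_sphere_zero_iff_norm] at hz
    rw [← Real.posLog_eq_log (by rw [abs_of_nonneg (by linarith)]; exact hB)]
    exact Real.posLog_le_posLog (norm_nonneg _) (h z hz)

end Pool.Agent.Lib.MP_7ab245_nt.QC
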