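import Pool.Agent.Lib.MP_7ab245_nt.QC.Defs

/-!
QC-Orth: the `N`-th roots of unity.

PROOF. `zg N t = (zg N 1)^t` (Complex.exp_nat_mul). norm: `Complex.norm_exp` with purely imaginary exponent. `zg_pow_N`: `exp (2πi t) = 1`
(Complex.exp_nat_mul_two_pi_mul_I or exp_int_mul_two_pi_mul_I). `sum_zg`: if `N ∣ m` every term is `1`; otherwise the geometric sum
`∑_{t<N} (w)^t = (w^N - 1)/(w - 1) = 0` with `w = zg N 1 ^ m ≠ 1`, `w^N = 1` (`w ≠ 1`: Complex.exp_eq_one_iff, `m/N` would be an integer).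
-/

set_option autoImplicit false

open Finset MeasureTheory

namespace Pool.Agent.Lib.MP_7ab245_nt.QC

open Pool.Agent.Lib.MP_7ab245_nt.LogVar Pool.Agent.Lib.MP_7ab245_nt.Cnt
open Pool.Agent.Lib.MP_7ab245_nt.Mono

theorem norm_zg (N t : ℕ) : ‖zg N t‖ = 1 := by
  unfold zg
  have e : 2 * (Real.pi : ℂ) * Complex.I * ((t : ℂ) / (N : ℂ)) =
      ((2 * Real.pi * ((t : ℝ) / (N : ℝ)) : ℝ) : ℂ) * Complex.I := by
    push_cast
    ring
  rw [e]
  exact Complex.norm_exp_ofReal_mul_I _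

theorem zg_ne (N t : ℕ) : zg N t ≠ 0 := by
  unfold zg
  exact Complex.exp_ne_zero _

theorem conj_zg (N t : ℕ) : (starRingEnd ℂ) (zg N t) = (zg N t)⁻¹ := by
  rw [Complex.inv_def, Complex.normSq_eq_norm_sq, norm_zg]
  simp

theorem zg_pow_N (N t : ℕ) (hN : 1 ≤ N) : zg N t ^ N = 1 := by
  unfold zg
  rw [← Complex.exp_nat_mul]
  have hN0 : (N : ℂ) ≠ 0 := by exact_mod_cast (by omega : N ≠ 0)
  have e : (N : ℂ) * (2 * (Real.pi : ℂ) * Complex.I * ((t : ℂ) / (N : ℂ))) =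
      (t : ℂ) * (2 * (Real.pi : ℂ) * Complex.I) := by
    field_simp
  rw [e]
  exact Complex.exp_nat_mul_two_pi_mul_I t

private theorem Orth_zg_pow (N t : ℕ) : zg N t = zg N 1 ^ t := by
  unfold zg
  rw [← Complex.exp_nat_mul]
  congr 1
  push_cast
  ring

/-- orthogonality -/
theorem sum_zg (N : ℕ) (hN : 1 ≤ N) (m : ℤ) :
    ∑ t ∈ range N, zg N t ^ m = if (N : ℤ) ∣ m then (N : ℂ) else 0 := by
  have hN0 : (N : ℂ) ≠ 0 := by exact_mod_cast (by omega : N ≠ 0)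
  have h1 : ∀ t ∈ range N, zg N t ^ m = (zg N 1 ^ m) ^ t := by
    intro t _
    rw [Orth_zg_pow N t, ← zpow_natCast, ← zpow_natCast, ← zpow_mul, ← zpow_mul, mul_comm]
  rw [sum_congr rfl h1]
  split_ifs with hd
  · obtain ⟨k, rfl⟩ := hd
    have h2 : zg N 1 ^ ((N : ℤ) * k) = 1 := by
      rw [zpow_mul, zpow_natCast, zg_pow_N N 1 hN, one_zpow]
    rw [h2]
    simp
  · have hw : zg N 1 ^ m ≠ 1 := by
      intro h
      unfold zg at h
      rw [← Complex.exp_int_mul, Complex.exp_eq_one_iff] at h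
      obtain ⟨k, hk⟩ := h
      apply hd
      refine ⟨k, ?_⟩
      have hpi : (2 * (Real.pi : ℂ) * Complex.I) ≠ 0 := Complex.two_pi_I_ne_zero
      have h3 : (m : ℂ) * ((((1 : ℕ) : ℂ)) / (N : ℂ)) = (k : ℂ) := by
        have h4 : (m : ℂ) * ((((1 : ℕ) : ℂ)) / (N : ℂ)) * (2 * (Real.pi : ℂ) * Complex.I) =
            (k : ℂ) * (2 * (Real.pi : ℂ) * Complex.I) := by
          rw [← hk]
          ring
        exact mul_right_cancel₀ hpi h4
      have h5 : (m : ℂ) = (N : ℂ) * (k : ℂ) := by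
        rw [← h3]
        push_cast
        field_simp
      exact_mod_cast h5
    rw [geom_sum_eq hw]
    have h6 : (zg N 1 ^ m) ^ N = 1 := by
      rw [← zpow_natCast, ← zpow_mul, mul_comm, zpow_mul, zpow_natCast, zg_pow_N N 1 hN, one_zpow]
    rw [h6]
    simp

end Pool.Agent.Lib.MP_7ab245_nt.QC
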