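import Pool.Agent.Lib.MP_7ab245_nt.QC.Defs
import Pool.Agent.Lib.MP_7ab245_nt.Cnt.AvB

/-!
QC-Ra: real and complex averages (see also QC/Mart.lean).
-/

set_option autoImplicit false

open Finset MeasureTheory

namespace Pool.Agent.Lib.MP_7ab245_nt.QC

open Pool.Agent.Lib.MP_7ab245_nt.LogVar Pool.Agent.Lib.MP_7ab245_nt.Cnt

variable {ι : Type} [Fintype ι] (a : ℕ → ι → ℤ)

theorem av_ofReal (k : ℕ) (X : ι → ℝ) (f : ι) :
    av a k (fun g => (X g : ℂ)) f = (ra a k X f : ℂ) := (ra_eq a k X f).symm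

theorem av_re (k : ℕ) (X : ι → ℂ) (f : ι) :
    (av a k X f).re = ra a k (fun g => (X g).re) f := by
  unfold av ra
  rw [Complex.div_natCast_re, Complex.re_sum]

theorem av_im (k : ℕ) (X : ι → ℂ) (f : ι) :
    (av a k X f).im = ra a k (fun g => (X g).im) f := by
  unfold av ra
  rw [Complex.div_natCast_im, Complex.im_sum]

theorem ra_mono (k : ℕ) (X Y : ι → ℝ) (h : ∀ g, X g ≤ Y g) (f : ι) :
    ra a k X f ≤ ra a k Y f := by
  unfold ra
  exact div_le_div_of_nonneg_right (sum_le_sum fun g _ => h g) (card_pos' a k f).le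

theorem ra_sub (k : ℕ) (X Y : ι → ℝ) (f : ι) :
    ra a k (fun g => X g - Y g) f = ra a k X f - ra a k Y f := by
  unfold ra
  rw [sum_sub_distrib, sub_div]

theorem ra_ge (k : ℕ) (X : ι → ℝ) (D : ℝ) (h : ∀ g, D ≤ X g) (f : ι) : D ≤ ra a k X f := by
  unfold ra
  rw [le_div_iff₀ (card_pos' a k f)]
  calc D * (cls a k f).card = ∑ _g ∈ cls a k f, D := by rw [sum_const, nsmul_eq_mul, mul_comm]
    _ ≤ ∑ g ∈ cls a k f, X g := sum_le_sum fun g _ => h g

theorem norm_av_le_ra (k : ℕ) (X : ι → ℂ) (f : ι) :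
    ‖av a k X f‖ ≤ ra a k (fun g => ‖X g‖) f := by
  unfold av ra
  rw [norm_div, Complex.norm_natCast]
  exact div_le_div_of_nonneg_right (norm_sum_le _ _) (card_pos' a k f).le

theorem norm_av_le_const (k : ℕ) (X : ι → ℂ) (c : ℝ) (h : ∀ g, ‖X g‖ ≤ c) (f : ι) :
    ‖av a k X f‖ ≤ c :=
  (norm_av_le_ra a k X f).trans (ra_le a k _ c h f)

theorem av_sub (k : ℕ) (X Y : ι → ℂ) (f : ι) :
    av a k (fun g => X g - Y g) f = av a k X f - av a k Y f := by
  unfold av
  rw [sum_sub_distrib, sub_div]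

theorem av_add (k : ℕ) (X Y : ι → ℂ) (f : ι) :
    av a k (fun g => X g + Y g) f = av a k X f + av a k Y f := by
  unfold av
  rw [sum_add_distrib, add_div]

theorem av_smul (k : ℕ) (c : ℂ) (X : ι → ℂ) (f : ι) :
    av a k (fun g => c * X g) f = c * av a k X f := by
  unfold av
  rw [← mul_sum, mul_div_assoc]

end Pool.Agent.Lib.MP_7ab245_nt.QC
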