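import Pool.Agent.Lib.MP_7ab245_nt.QC.Fej

/-!
QC-UInt: the Fejér means of `log |f|` on the circle as integrals.

PROOF. Let `u θ = log ‖(cx f).eval (zz θ)‖`, integrable (log_eval_integrable), `∫ u = 2π log (MM f)` (definition of the Mahler measure:
`Polynomial.mahlerMeasure_def_of_ne_zero`/`logMahlerMeasure`, circleAverage; `mu` is Lebesgue measure on `(0, 2π]`, see LogVar/Fourier.lean and Mono),
`∫ u zz^{-m} = (π/m) QQ m f` for `m ≥ 1` (fourier_poly), and the conjugate for the exponent `+m`. By `KK_eq` with `w = z conj (zz θ)`: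
`KK m w = (1/m) ∑_{i,j<m} z^{i-j} zz^{-(i-j)}`, so `∫ u KK m (z conj zz) = (1/m)[m · 2π log M + ∑_{1≤d<m} (m-d) · 2 Re (z^d (π/d) QQ d)]
= 2π (log M + ∑_{1≤d<m} (1 - d/m) (1/d) Re (QQ d f z^d))`.
-/

set_option autoImplicit false

open Finset MeasureTheory

namespace Pool.Agent.Lib.MP_7ab245_nt.QC

open Pool.Agent.Lib.MP_7ab245_nt.LogVar Pool.Agent.Lib.MP_7ab245_nt.Cnt
open Pool.Agent.Lib.MP_7ab245_nt.Mono

/-- Fejér mean of `log |f|` -/
noncomputable def sg (m : ℕ) (z : ℂ) (f : Polynomial ℤ) : ℝ :=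
  Real.log (MM f) + ∑ d ∈ Ico 1 m, (1 - (d : ℝ) / m) / d * (QQ d f * z ^ d).re

theorem log_integral (f : Polynomial ℤ) (hf : f ≠ 0) :
    ∫ θ, Real.log ‖(cx f).eval (zz θ)‖ ∂mu = 2 * Real.pi * Real.log (MM f) := by
  have hc : cx f ≠ 0 := by
    unfold cx
    exact (Polynomial.map_ne_zero_iff (by
      exact Int.cast_injective)).2 hf
  have h1 : Real.log (MM f) = (cx f).logMahlerMeasure := by
    unfold MM
    exact Polynomial.logMahlerMeasure_eq_log_MahlerMeasure.symm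
  rw [h1, Polynomial.logMahlerMeasure_def, Real.circleAverage_def,
    intervalIntegral.integral_of_le (by positivity), smul_eq_mul]
  have hpi := Real.pi_pos
  unfold mu zz
  field_simp

private theorem tri_sum (c : ℤ → ℂ) (m : ℕ) :
    ∑ i ∈ range m, ∑ j ∈ range m, c ((i : ℤ) - j) =
      m * c 0 + ∑ d ∈ Ico 1 m, ((m : ℂ) - d) * (c d + c (-(d : ℤ))) := by
  induction m with
  | zero => simp
  | succ m ih =>
    have h1 : ∑ i ∈ range (m + 1), ∑ j ∈ range (m + 1), c ((i : ℤ) - j) =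
        (∑ i ∈ range m, ∑ j ∈ range m, c ((i : ℤ) - j)) + ∑ i ∈ range m, c ((i : ℤ) - m) +
          (∑ j ∈ range m, c ((m : ℤ) - j) + c 0) := by
      rw [sum_range_succ, sum_range_succ (fun j => c ((m : ℤ) - j))]
      congr 1
      · rw [← sum_add_distrib]
        apply sum_congr rfl
        intro i _
        rw [sum_range_succ]
      · simp
    have h2 : ∑ i ∈ range m, c ((i : ℤ) - m) = ∑ d ∈ Ico 1 (m + 1), c (-(d : ℤ)) := by
      rw [sum_Ico_eq_sum_range, Nat.add_sub_cancel, ← sum_range_reflect]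
      apply sum_congr rfl
      intro i hi
      rw [mem_range] at hi
      congr 1
      omega
    have h3 : ∑ j ∈ range m, c ((m : ℤ) - j) = ∑ d ∈ Ico 1 (m + 1), c (d : ℤ) := by
      rw [sum_Ico_eq_sum_range, Nat.add_sub_cancel, ← sum_range_reflect]
      apply sum_congr rfl
      intro i hi
      rw [mem_range] at hi
      congr 1
      omega
    have h4 : ∑ d ∈ Ico 1 (m + 1), (((m + 1 : ℕ) : ℂ) - d) * (c d + c (-(d : ℤ))) =
        ∑ d ∈ Ico 1 m, ((m : ℂ) - d) * (c d + c (-(d : ℤ))) +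
          ∑ d ∈ Ico 1 (m + 1), (c d + c (-(d : ℤ))) := by
      rcases Nat.eq_zero_or_pos m with rfl | hm
      · simp
      · have h5 : ∑ d ∈ Ico 1 (m + 1), ((m : ℂ) - d) * (c d + c (-(d : ℤ))) =
            ∑ d ∈ Ico 1 m, ((m : ℂ) - d) * (c d + c (-(d : ℤ))) := by
          rw [sum_Ico_succ_top hm]
          simp
        rw [← h5, ← sum_add_distrib]
        apply sum_congr rfl
        intro d _
        push_cast
        ring
    rw [h1, ih, h2, h3, h4, sum_add_distrib]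
    push_cast
    ring

private theorem conj_int (f : Polynomial ℤ) (n : ℤ) :
    ∫ θ, (Real.log ‖(cx f).eval (zz θ)‖ : ℂ) * (zz θ) ^ n ∂mu =
      (starRingEnd ℂ) (∫ θ, (Real.log ‖(cx f).eval (zz θ)‖ : ℂ) * (zz θ) ^ (-n) ∂mu) := by
  rw [← integral_conj]
  apply integral_congr_ae
  refine Filter.Eventually.of_forall fun θ => ?_
  simp only [map_mul, Complex.conj_ofReal, map_zpow₀, conj_zz, inv_zpow', neg_neg]

theorem sg_integral (f : Polynomial ℤ) (h0 : f.coeff 0 ≠ 0) (m : ℕ) (hm : 1 ≤ m) (z : ℂ)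
    (hz : ‖z‖ = 1) :
    ∫ θ, Real.log ‖(cx f).eval (zz θ)‖ * KK m (z * (starRingEnd ℂ) (zz θ)) ∂mu =
      2 * Real.pi * sg m z f := by
  have hf : f ≠ 0 := by
    rintro rfl
    simp at h0
  have hc0 : (cx f).coeff 0 ≠ 0 := by
    unfold cx
    rw [Polynomial.coeff_map]
    simpa using h0
  have hz0 : z ≠ 0 := by
    rintro rfl
    simp at hz
  have hm0 : (m : ℂ) ≠ 0 := by
    have : m ≠ 0 := by omega
    exact_mod_cast this
  have hI : ∀ n : ℤ, Integrable (fun θ => (Real.log ‖(cx f).eval (zz θ)‖ : ℂ) * (zz θ) ^ n) mu :=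
    fun n => U_integrable _ (log_eval_integrable (cx f)) n
  set A : ℤ → ℂ := fun n => ∫ θ, (Real.log ‖(cx f).eval (zz θ)‖ : ℂ) * (zz θ) ^ (-n) ∂mu with hA
  have hpt : ∀ θ, ((Real.log ‖(cx f).eval (zz θ)‖ * KK m (z * (starRingEnd ℂ) (zz θ)) : ℝ) : ℂ) =
      ∑ i ∈ range m, ∑ j ∈ range m, (z ^ ((i : ℤ) - j) / m) *
        ((Real.log ‖(cx f).eval (zz θ)‖ : ℂ) * (zz θ) ^ (-((i : ℤ) - j))) := by
    intro θ
    have hn : ‖z * (starRingEnd ℂ) (zz θ)‖ = 1 := by
      rw [norm_mul, hz, Complex.norm_conj, norm_zz, one_mul]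
    rw [Complex.ofReal_mul, KK_eq m _ hn, sum_div, mul_sum]
    apply sum_congr rfl
    intro i _
    rw [sum_div, mul_sum]
    apply sum_congr rfl
    intro j _
    rw [conj_zz, mul_zpow, inv_zpow']
    ring
  have h1 : ((∫ θ, Real.log ‖(cx f).eval (zz θ)‖ * KK m (z * (starRingEnd ℂ) (zz θ)) ∂mu : ℝ) : ℂ) =
      (∑ i ∈ range m, ∑ j ∈ range m, (fun n : ℤ => z ^ n * A n) ((i : ℤ) - j)) / m := by
    rw [← integral_complex_ofReal]
    simp_rw [hpt]
    rw [integral_finsetSum _ (fun i _ => integrable_finsetSum _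
      (fun j _ => (hI _).const_mul _)), sum_div]
    apply sum_congr rfl
    intro i _
    rw [integral_finsetSum _ (fun j _ => (hI _).const_mul _), sum_div]
    apply sum_congr rfl
    intro j _
    rw [integral_const_mul]
    simp only [hA]
    ring
  have hA0 : A 0 = ((2 * Real.pi * Real.log (MM f) : ℝ) : ℂ) := by
    simp only [hA, neg_zero, zpow_zero, mul_one]
    rw [← log_integral f hf, integral_complex_ofReal]
  have hAd : ∀ d : ℕ, 1 ≤ d → A d = (Real.pi / d) * QQ d f := fun d hd =>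
    fourier_poly (cx f) hc0 d hd
  have hAn : ∀ d : ℕ, A (-(d : ℤ)) = (starRingEnd ℂ) (A d) := by
    intro d
    simp only [hA]
    rw [neg_neg]
    exact conj_int f d
  have hzn : ∀ d : ℕ, z ^ (-(d : ℤ)) = (starRingEnd ℂ) (z ^ (d : ℤ)) := by
    intro d
    have h2 : (starRingEnd ℂ) z = z⁻¹ := by
      have h3 : z * (starRingEnd ℂ) z = 1 := by
        rw [Complex.mul_conj, Complex.normSq_eq_norm_sq, hz]; simp
      exact eq_inv_of_mul_eq_one_right h3
    rw [map_zpow₀, h2, inv_zpow']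
  have h2 : ∀ d ∈ Ico 1 m, ((m : ℂ) - d) * ((fun n : ℤ => z ^ n * A n) d +
      (fun n : ℤ => z ^ n * A n) (-(d : ℤ))) =
      ((2 * Real.pi * (m * ((1 - (d : ℝ) / m) / d * (QQ d f * z ^ d).re)) : ℝ) : ℂ) := by
    intro d hd
    rw [mem_Ico] at hd
    have hd0 : (d : ℂ) ≠ 0 := by
      have : d ≠ 0 := by omega
      exact_mod_cast this
    have h3 : z ^ (d : ℤ) * A d + z ^ (-(d : ℤ)) * A (-(d : ℤ)) =
        ((2 * (z ^ (d : ℤ) * A d).re : ℝ) : ℂ) := by
      rw [hAn, hzn, ← map_mul, Complex.add_conj]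
    have h4 : (z ^ (d : ℤ) * A d).re = Real.pi / d * (QQ d f * z ^ d).re := by
      rw [hAd d hd.1, zpow_natCast]
      have h5 : z ^ d * ((Real.pi : ℂ) / d * QQ d f) = ((Real.pi / d : ℝ) : ℂ) * (QQ d f * z ^ d) := by
        push_cast
        ring
      rw [h5, Complex.re_ofReal_mul]
    simp only
    rw [h3, h4]
    push_cast
    field_simp
  have h6 : ((∫ θ, Real.log ‖(cx f).eval (zz θ)‖ * KK m (z * (starRingEnd ℂ) (zz θ)) ∂mu : ℝ) : ℂ) =
      ((2 * Real.pi * sg m z f : ℝ) : ℂ) := by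
    rw [h1, tri_sum (fun n : ℤ => z ^ n * A n) m, sum_congr rfl h2]
    simp only [zpow_zero, one_mul]
    rw [hA0, ← Complex.ofReal_sum, ← mul_sum, ← mul_sum]
    unfold sg
    push_cast
    field_simp
  exact_mod_cast h6

end Pool.Agent.Lib.MP_7ab245_nt.QC
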