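import Pool.Agent.Lib.MP_7ab245_nt.QC.UInt
import Pool.Agent.Lib.MP_7ab245_nt.QC.Bet

/-!
QC-UMean: bounds for the smoothed `log |f|`.

PROOF. `ut_eq`: `vw n j = 2 max 0 (1 - j/(2n)) - max 0 (1 - j/n)`, so `ut n z f = 2 sg (2n) z f - sg n z f` (the terms `j = 2n` and, in the second,
`j ≥ n` vanish). `sg_abs_sum`: for `1 ≤ m ≤ N` by `sg_integral` `2π |sg m z f| ≤ ∫ |u| KK m (z conj zz)`; sum over `z = zg N t`, exchange sum and
integral (integral_finset_sum), `KK_sum` with `w = conj (zz θ)`: `2π ∑_t |sg m (zg N t) f| ≤ N ∫ |u| = N 2π ll f`.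
`ut_mean`: `|ut| ≤ 2|sg (2n)| + |sg n|`. `ut_sup`: `‖QQ j f‖ ≤ natDegree f ≤ n` for `j ≥ 1` (coeff_ld_ho, norm_ww_le, card_roots), `|vw| ≤ 1`, `‖z‖ = 1`,
`∑_{j=1}^{2n} 1/j ≤ 1 + log (2n)` (harmonic_le_one_add_log), and `log (MM f) ≥ 0` (one_le_MM).
-/

set_option autoImplicit false

open Finset MeasureTheory

namespace Pool.Agent.Lib.MP_7ab245_nt.QC

open Pool.Agent.Lib.MP_7ab245_nt.LogVar Pool.Agent.Lib.MP_7ab245_nt.Cnt
open Pool.Agent.Lib.MP_7ab245_nt.Mono

private lemma um_sum (m M : ℕ) (hm : 1 ≤ m) (hmM : m ≤ M) (r : ℕ → ℝ) :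
    ∑ d ∈ Ico 1 m, (1 - (d : ℝ) / m) / d * r d =
      ∑ d ∈ Icc 1 M, (max 0 (1 - (d : ℝ) / m)) / d * r d := by
  have hm0 : (0 : ℝ) < m := by exact_mod_cast hm
  have h1 : ∑ d ∈ Ico 1 m, (1 - (d : ℝ) / m) / d * r d =
      ∑ d ∈ Ico 1 m, (max 0 (1 - (d : ℝ) / m)) / d * r d := by
    refine sum_congr rfl fun d hd => ?_
    rw [mem_Ico] at hd
    have h2 : (d : ℝ) / m ≤ 1 := by
      rw [div_le_one hm0]
      exact_mod_cast hd.2.le
    rw [max_eq_right (by linarith)]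
  rw [h1]
  refine sum_subset ?_ ?_
  · intro d hd
    rw [mem_Ico] at hd
    rw [mem_Icc]
    omega
  · intro d hd hd'
    rw [mem_Icc] at hd
    rw [mem_Ico] at hd'
    have h3 : m ≤ d := by omega
    have h2 : 1 ≤ (d : ℝ) / m := by
      rw [one_le_div hm0]
      exact_mod_cast h3
    rw [max_eq_left (by linarith), zero_div, zero_mul]

theorem ut_eq (n : ℕ) (hn : 1 ≤ n) (z : ℂ) (f : Polynomial ℤ) :
    ut n z f = 2 * sg (2 * n) z f - sg n z f := by
  unfold ut sg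
  rw [um_sum (2 * n) (2 * n) (by omega) le_rfl (fun d => (QQ d f * z ^ d).re),
    um_sum n (2 * n) hn (by omega) (fun d => (QQ d f * z ^ d).re), mul_add, mul_sum]
  have hn0 : (0 : ℝ) < n := by exact_mod_cast hn
  have h1 : ∑ j ∈ Icc 1 (2 * n), vw n j / j * (QQ j f * z ^ j).re =
      ∑ j ∈ Icc 1 (2 * n), 2 * (max 0 (1 - (j : ℝ) / (2 * n : ℕ)) / j * (QQ j f * z ^ j).re) -
      ∑ j ∈ Icc 1 (2 * n), max 0 (1 - (j : ℝ) / n) / j * (QQ j f * z ^ j).re := by
    rw [← sum_sub_distrib]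
    refine sum_congr rfl fun j hj => ?_
    rw [mem_Icc] at hj
    have hj2 : (j : ℝ) ≤ 2 * n := by exact_mod_cast hj.2
    have e1 : (j : ℝ) / (2 * n : ℕ) = (j : ℝ) / n / 2 := by
      push_cast
      field_simp
    have hx2 : (j : ℝ) / n ≤ 2 := by
      rw [div_le_iff₀ hn0]
      exact hj2
    have e2 : vw n j = 2 * max 0 (1 - (j : ℝ) / (2 * n : ℕ)) - max 0 (1 - (j : ℝ) / n) := by
      unfold vw
      rw [e1, max_eq_right (a := (0 : ℝ)) (b := 1 - (j : ℝ) / n / 2) (by linarith)]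
      rcases le_total ((j : ℝ) / n) 1 with h | h
      · rw [min_eq_left (by linarith), max_eq_right zero_le_one, max_eq_right (by linarith)]
        ring
      · rw [min_eq_right (by linarith), max_eq_right (by linarith), max_eq_left (by linarith)]
        ring
    rw [e2]
    ring
  rw [h1]
  ring

private lemma um_cont (m : ℕ) (z : ℂ) :
    Continuous fun θ => KK m (z * (starRingEnd ℂ) (zz θ)) := by
  unfold KK
  refine Continuous.div_const ?_ _
  refine Continuous.pow (Continuous.norm ?_) 2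
  refine continuous_finsetSum _ fun i _ => ?_
  exact (continuous_const.mul (Complex.continuous_conj.comp zz_continuous)).pow i

private lemma um_norm (z : ℂ) (hz : ‖z‖ = 1) (θ : ℝ) : ‖z * (starRingEnd ℂ) (zz θ)‖ = 1 := by
  rw [norm_mul, hz, RCLike.norm_conj, norm_zz, one_mul]

private lemma um_int (m : ℕ) (z : ℂ) (hz : ‖z‖ = 1) (u : ℝ → ℝ) (hu : Integrable u mu) :
    Integrable (fun θ => u θ * KK m (z * (starRingEnd ℂ) (zz θ))) mu := by
  refine hu.mul_bdd (c := m) (um_cont m z).aestronglyMeasurable (Filter.Eventually.of_forall ?_)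
  intro θ
  rw [Real.norm_eq_abs, abs_of_nonneg (KK_nonneg _ _)]
  exact KK_le m _ (um_norm z hz θ)

theorem sg_abs_sum (N m : ℕ) (hm : 1 ≤ m) (hmN : m ≤ N) (f : Polynomial ℤ) (h0 : f.coeff 0 ≠ 0) :
    ∑ t ∈ range N, |sg m (zg N t) f| ≤ N * ll f := by
  have hpi : (0 : ℝ) < 2 * Real.pi := by positivity
  have hu : Integrable (fun θ => Real.log ‖(cx f).eval (zz θ)‖) mu := log_eval_integrable (cx f)
  have hua : Integrable (fun θ => |Real.log ‖(cx f).eval (zz θ)‖|) mu := hu.abs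
  have h1 : ∀ t ∈ range N, 2 * Real.pi * |sg m (zg N t) f| ≤
      ∫ θ, |Real.log ‖(cx f).eval (zz θ)‖| * KK m (zg N t * (starRingEnd ℂ) (zz θ)) ∂mu := by
    intro t _
    have h2 := sg_integral f h0 m hm (zg N t) (norm_zg N t)
    have h3 : 2 * Real.pi * |sg m (zg N t) f| = |2 * Real.pi * sg m (zg N t) f| := by
      rw [abs_mul, abs_of_pos hpi]
    rw [h3, ← h2, ← Real.norm_eq_abs]
    refine (norm_integral_le_integral_norm _).trans (le_of_eq ?_)
    refine integral_congr_ae (Filter.Eventually.of_forall fun θ => ?_)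
    show ‖Real.log ‖(cx f).eval (zz θ)‖ * KK m (zg N t * (starRingEnd ℂ) (zz θ))‖ = _
    rw [norm_mul, Real.norm_eq_abs, Real.norm_eq_abs, abs_of_nonneg (KK_nonneg _ _)]
  have h4 : ∑ t ∈ range N, 2 * Real.pi * |sg m (zg N t) f| ≤
      N * ∫ θ, |Real.log ‖(cx f).eval (zz θ)‖| ∂mu := by
    refine (sum_le_sum h1).trans (le_of_eq ?_)
    rw [← integral_finsetSum _ fun t _ => um_int m (zg N t) (norm_zg N t) _ hua,
      ← integral_const_mul]
    refine integral_congr_ae (Filter.Eventually.of_forall fun θ => ?_)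
    show ∑ t ∈ range N, |Real.log ‖(cx f).eval (zz θ)‖| * KK m (zg N t * (starRingEnd ℂ) (zz θ)) =
      N * |Real.log ‖(cx f).eval (zz θ)‖|
    rw [← mul_sum, KK_sum N m hm hmN _ (by rw [RCLike.norm_conj, norm_zz]), mul_comm]
  rw [← mul_sum] at h4
  unfold ll
  have h5 : ∑ t ∈ range N, |sg m (zg N t) f| ≤
      (N * ∫ θ, |Real.log ‖(cx f).eval (zz θ)‖| ∂mu) / (2 * Real.pi) := by
    rw [le_div_iff₀ hpi]
    linarith
  refine h5.trans (le_of_eq ?_)
  field_simp

theorem ut_mean (n N : ℕ) (hn : 1 ≤ n) (hN : 2 * n ≤ N) (f : Polynomial ℤ)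
    (h0 : f.coeff 0 ≠ 0) : ∑ t ∈ range N, |ut n (zg N t) f| ≤ 3 * ll f * N := by
  have h1 := sg_abs_sum N (2 * n) (by omega) hN f h0
  have h2 := sg_abs_sum N n hn (by omega) f h0
  have h3 : ∑ t ∈ range N, |ut n (zg N t) f| ≤
      ∑ t ∈ range N, (2 * |sg (2 * n) (zg N t) f| + |sg n (zg N t) f|) := by
    refine sum_le_sum fun t _ => ?_
    rw [ut_eq n hn]
    refine (abs_sub _ _).trans ?_
    rw [abs_mul, abs_two]
  rw [sum_add_distrib, ← mul_sum] at h3
  linarith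

private lemma um_QQ (f : Polynomial ℤ) (n j : ℕ) (hj : 1 ≤ j) (hd : f.natDegree ≤ n) :
    ‖QQ j f‖ ≤ n := by
  have h1 : ∀ S : Multiset ℂ, ‖(S.map (fun z => ww z ^ j)).sum‖ ≤ S.card := by
    intro S
    induction S using Multiset.induction_on with
    | empty => simp
    | cons a S ih =>
      rw [Multiset.map_cons, Multiset.sum_cons, Multiset.card_cons]
      refine (norm_add_le _ _).trans ?_
      have h2 : ‖ww a ^ j‖ ≤ 1 := by
        rw [norm_pow]
        exact pow_le_one₀ (norm_nonneg _) (norm_ww_le a)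
      push_cast
      linarith
  unfold Cnt.QQ
  rw [coeff_ld_ho _ j hj, norm_neg]
  refine (h1 _).trans ?_
  have h3 : (cx f).roots.card ≤ n := by
    refine (Polynomial.card_roots' _).trans ?_
    unfold cx
    exact Polynomial.natDegree_map_le.trans hd
  exact_mod_cast h3

theorem ut_sup (n : ℕ) (hn : 1 ≤ n) (z : ℂ) (hz : ‖z‖ = 1) (f : Polynomial ℤ)
    (h0 : f.coeff 0 ≠ 0) (hd : f.natDegree ≤ n) :
    |ut n z f| ≤ Real.log (MM f) + n * (1 + Real.log (2 * n)) := by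
  have hf : f ≠ 0 := by
    rintro rfl
    exact h0 (Polynomial.coeff_zero 0)
  have hM : 0 ≤ Real.log (MM f) := by
    refine Real.log_nonneg ?_
    unfold MM cx
    exact Polynomial.one_le_mahlerMeasure_of_ne_zero hf
  unfold ut
  refine (abs_add_le _ _).trans ?_
  rw [abs_of_nonneg hM]
  refine add_le_add le_rfl ?_
  refine (abs_sum_le_sum_abs _ _).trans ?_
  have h1 : ∀ j ∈ Icc 1 (2 * n), |vw n j / j * (QQ j f * z ^ j).re| ≤ n * (j : ℝ)⁻¹ := by
    intro j hj
    rw [mem_Icc] at hj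
    have hj0 : (0 : ℝ) < j := by exact_mod_cast hj.1
    have h2 : |vw n j / j| ≤ (j : ℝ)⁻¹ := by
      rw [abs_div, abs_of_pos hj0, div_eq_mul_inv]
      refine mul_le_of_le_one_left (by positivity) ?_
      unfold vw
      rw [abs_of_nonneg (le_max_left _ _)]
      exact max_le zero_le_one (min_le_left _ _)
    have h3 : |(QQ j f * z ^ j).re| ≤ n := by
      refine (Complex.abs_re_le_norm _).trans ?_
      rw [norm_mul, norm_pow, hz, one_pow, mul_one]
      exact um_QQ f n j hj.1 hd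
    rw [abs_mul, mul_comm]
    exact mul_le_mul h3 h2 (abs_nonneg _) (Nat.cast_nonneg _)
  refine (sum_le_sum h1).trans ?_
  rw [← mul_sum]
  refine mul_le_mul_of_nonneg_left ?_ (Nat.cast_nonneg _)
  have h4 := harmonic_le_one_add_log (2 * n)
  rw [harmonic_eq_sum_Icc] at h4
  push_cast at h4
  exact h4

end Pool.Agent.Lib.MP_7ab245_nt.QC
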